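import Pool.Agent.P.MP_aef18a_nt.Ad.Czn1

namespace Pool.Agent.P.MP_aef18a_nt

namespace CznA

open AddMonoidAlgebra

variable {k : ℕ}

/-- the nonzero differences of the exponents of `A` -/
noncomputable def dif (A : LQ ℚ k) : Finset (Fin k → ℤ) :=
  ((A.coeff.support ×ˢ A.coeff.support).image fun p => p.1 - p.2).erase 0

lemma injOn_of_dif {A : LQ ℚ k} {a : Fin k → ℤ} (h : ∀ c ∈ dif A, c ⬝ᵥ a ≠ 0) :
    Set.InjOn (· ⬝ᵥ a) A.coeff.support := by
  intro u hu u' hu' e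
  by_contra hne
  refine h (u - u') (Finset.mem_erase.mpr ⟨sub_ne_zero.mpr hne,
    Finset.mem_image.mpr ⟨(u, u'), Finset.mem_product.mpr ⟨hu, hu'⟩, rfl⟩⟩) ?_
  simp only at e
  rw [sub_dotProduct, e, sub_self]

/-- the nonzero vectors of a box -/
noncomputable def box (k L : ℕ) : Finset (Fin k → ℤ) :=
  (Fintype.piFinset fun _ => Finset.Icc (-(L : ℤ)) L).erase 0

lemma mem_box {L : ℕ} {c : Fin k → ℤ} : c ∈ box k L ↔ c ≠ 0 ∧ ∀ i, |c i| ≤ L := by
  simp [box, abs_le]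

/-- restriction to the two-dimensional subtorus spanned by `a` and `b` -/
def th (a b : Fin k → ℤ) : (Fin k → ℤ) →+ (Fin 2 → ℤ) :=
  AddMonoidHom.mk' (fun u => ![u ⬝ᵥ a, u ⬝ᵥ b]) fun u w => by
    ext i
    fin_cases i <;> simp [add_dotProduct]

noncomputable def Th (a b : Fin k → ℤ) : LQ ℚ k →+* LQ ℚ 2 := mapDomainRingHom ℚ (th a b)

lemma Th_eq (a b : Fin k → ℤ) (A : LQ ℚ k) :
    Th a b A = ∑ u ∈ A.coeff.support, single (th a b u) (A.coeff u) :=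
  mapDomain_eq_sum _ A

lemma evc_Th (a b : Fin k → ℤ) (α : ℂˣ) (A : LQ ℚ k) :
    evc ![1, 0] α (Th a b A) = evc a α A := by
  rw [Th_eq, map_sum, evc_eq_sum]
  refine Finset.sum_congr rfl fun u _ => ?_
  rw [evc_single]
  simp [th, dotProduct]

lemma Th_ne_zero {a : Fin k → ℤ} (b : Fin k → ℤ) {A : LQ ℚ k}
    (h : Set.InjOn (· ⬝ᵥ a) A.coeff.support) (hA : A ≠ 0) : Th a b A ≠ 0 :=
  mapDomain_ne_zero (fun u hu u' hu' e => h hu hu' (congrFun e 0)) hA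

lemma mem_Th {a b : Fin k → ℤ} {A : LQ ℚ k} {z : Fin 2 → ℤ} (hz : z ∈ (Th a b A).coeff.support) :
    ∃ u ∈ A.coeff.support, th a b u = z := by
  classical
  have : z ∈ (Finsupp.mapDomain (th a b) A.coeff).support := hz
  simpa using Finsupp.mapDomain_support this

lemma evc_span {Ps : Finset (LQ ℚ k)} {a : Fin k → ℤ} {α : ℂˣ}
    (h : ∀ B ∈ Ps, MinVan α B.coeff.support B.coeff (· ⬝ᵥ a)) {A : LQ ℚ k}
    (hA : A ∈ Ideal.span (Ps : Set (LQ ℚ k))) : evc a α A = 0 := by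
  have : Ideal.span (Ps : Set (LQ ℚ k)) ≤ RingHom.ker (evc a α : LQ ℚ k →ₐ[ℚ] ℂ) := by
    rw [Ideal.span_le]
    intro B hB
    rw [SetLike.mem_coe, RingHom.mem_ker, evc_eq_sum]
    exact (h B hB).1
  exact this hA

/-- the arithmetic case -/
lemma arith (he : S_Elim) (hdu : S_DegUp) {a b : Fin k → ℤ} {N Q τ R : ℕ} (h : Ap a b N Q τ)
    (hR : 1 ≤ R) {α : ℂˣ} {B₁ B : LQ ℚ k} (d₁ : Dm R B₁) (d : Dm R B) (n₁ : Th a b B₁ ≠ 0)
    (n : Th a b B ≠ 0) {G : LQ ℚ 2} (hG : Prime G) (g1 : G ∣ Th a b B₁)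
    (g2 : evc ![1, 0] α G = 0) (g3 : ¬ G ∣ Th a b B) (e : evc a α B = 0) :
    ((minpoly ℚ (α : ℂ)).natDegree : ℝ) ≤ 5 * R ^ 2 * N / Q := by
  let ρ : (Fin 2 → ℤ) →+ ℤ := AddMonoidHom.mk' (fun u => u 1) fun _ _ => rfl
  let ρ' : (Fin 2 → ℤ) →+ ℝ := (Int.castAddHom ℝ).comp ρ
  let ω : (Fin 2 → ℤ) →+ ℝ := AddMonoidHom.mk' (fun u => (u 0 : ℝ) - N / τ * (u 1 : ℝ))
    fun u w => by simp only [Pi.add_apply, Int.cast_add]; ring
  have w1 : ∀ A, Dm R A → Wd ρ' (R * (τ + 1)) (Th a b A) := by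
    intro A hA z hz z' hz'
    obtain ⟨u, hu, rfl⟩ := mem_Th hz
    obtain ⟨u', hu', rfl⟩ := mem_Th hz'
    have := h.w1 (d := u - u') (hA u hu u' hu')
    rw [sub_dotProduct, Int.cast_sub] at this
    exact this
  have w2 : ∀ A, Dm R A → Wd ω (R * (N / (Q * τ))) (Th a b A) := by
    intro A hA z hz z' hz'
    obtain ⟨u, hu, rfl⟩ := mem_Th hz
    obtain ⟨u', hu', rfl⟩ := mem_Th hz'
    have := h.w2 (d := u - u') (hA u hu u' hu')
    rw [sub_dotProduct, sub_dotProduct, Int.cast_sub, Int.cast_sub] at this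
    change ((u ⬝ᵥ a : ℤ) : ℝ) - N / τ * ((u ⬝ᵥ b : ℤ) : ℝ) -
      (((u' ⬝ᵥ a : ℤ) : ℝ) - N / τ * ((u' ⬝ᵥ b : ℤ) : ℝ)) ≤ _
    linarith
  obtain ⟨E, e1, e2, e3, e4⟩ := he 2 ρ ![0, 1] rfl G (Th a b B) hG.ne_zero n
    (hG.irreducible.isRelPrime_iff_not_dvd.mpr g3)
  have e5 := e4 ω _ _ _ _ ((w1 B₁ d₁).of_dvd ρ' n₁ g1) (w1 B d) ((w2 B₁ d₁).of_dvd ω n₁ g1) (w2 B d)
  refine hdu α 2 ![1, 0] E _ e1 (fun u hu u' hu' h => ?_) ?_ (fun u hu u' hu' => ?_)
  · have h1 : u 1 = 0 := e3 u hu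
    have h2 : u' 1 = 0 := e3 u' hu'
    ext i
    fin_cases i
    · simpa [dotProduct] using h
    · simp [h1, h2]
  · obtain ⟨x, y, rfl⟩ := Ideal.mem_span_pair.mp e2
    rw [map_add, map_mul, map_mul, g2, evc_Th, e, mul_zero, mul_zero, add_zero]
  · have h1 : u 1 = 0 := e3 u hu
    have h2 : u' 1 = 0 := e3 u' hu'
    have h3 := (e5 u hu u' hu').trans (h.fin hR)
    simp only [ω, AddMonoidHom.mk'_apply, h1, h2] at h3
    simpa [dotProduct] using h3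

lemma big (hu : S_UFD) (he : S_Elim) (hg : S_Geo) (hd : S_Deg) (hdu : S_DegUp) (hdir : S_Dir)
    (hk : 2 ≤ k) {Ps : Finset (LQ ℚ k)} (hne : Ps.Nonempty) (h0 : ∀ B ∈ Ps, B ≠ 0)
    (hcl : AddSubgroup.closure (Dif Ps) = ⊤) {F₁ F₂ : LQ ℚ k} (f1 : F₁ ≠ 0) (f2 : F₂ ≠ 0)
    (m1 : F₁ ∈ Ideal.span (Ps : Set (LQ ℚ k))) (m2 : F₂ ∈ Ideal.span (Ps : Set (LQ ℚ k)))
    (hrel : IsRelPrime F₁ F₂) :
    ∃ Γ : Finset (Fin k → ℤ), 0 ∉ Γ ∧ (∀ i, Pi.single i 1 ∈ Γ) ∧ ∀ a v : Fin k → ℤ, v ⬝ᵥ a = 1 →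
      (∀ c ∈ Γ, c ⬝ᵥ a ≠ 0) → ∀ α : ℂˣ, NonTors α →
      ¬ ∀ B ∈ Ps, MinVan α B.coeff.support B.coeff (· ⬝ᵥ a) := by
  classical
  have := hu ℚ 2
  obtain ⟨R, hR, hDm⟩ := exists_dm (insert F₁ (insert F₂ Ps))
  obtain ⟨C₀, hC₀⟩ := gen_bound hcl
  obtain ⟨CM, hCM⟩ := hg (Ps.sup fun B => B.coeff.support.card)
  obtain ⟨c, hc, hdeg⟩ := hd (Ps.sup fun B => B.coeff.support.card)
    (Ps.biUnion fun B => B.coeff.support.image B.coeff) (1 / (2 * k : ℝ)) (by positivity)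
  obtain ⟨N₀, hN₀⟩ := numer (k := k) (by omega) (c := c / (C₀ + 1)) (A := 5 * R ^ 2) (by positivity)
  choose Eb hEb using elim' he f1 f2 hrel
  set Q₀ : ℕ := C₀ * CM * (5 * R ^ 2) + 2 with hQ₀
  refine ⟨Ps.biUnion dif ∪ (box k (Q₀ ^ k + 1)).biUnion (fun b => dif (Eb b)) ∪
    box k (N₀ + 2 ^ k), by simp [dif, box], fun i => ?_, fun a v hv hΓ α hα hmin => ?_⟩
  · refine Finset.mem_union_right _ (mem_box.mpr ⟨by simp, fun j => ?_⟩)
    have : 1 ≤ N₀ + 2 ^ k := le_add_left Nat.one_le_two_pow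
    rw [Pi.single_apply]
    split_ifs
    · rw [abs_one]; exact_mod_cast this
    · rw [abs_zero]; positivity
  have inj : ∀ B ∈ Ps, Set.InjOn (· ⬝ᵥ a) B.coeff.support := fun B hB =>
    injOn_of_dif fun c hc => hΓ c (Finset.mem_union_left _ (Finset.mem_union_left _
      (Finset.mem_biUnion.mpr ⟨B, hB, hc⟩)))
  have injE : ∀ b ∈ box k (Q₀ ^ k + 1), Set.InjOn (· ⬝ᵥ a) (Eb b).coeff.support := fun b hb =>
    injOn_of_dif fun c hc => hΓ c (Finset.mem_union_left _ (Finset.mem_union_right _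
      (Finset.mem_biUnion.mpr ⟨b, hb, hc⟩)))
  have hbox : ∀ c : Fin k → ℤ, c ≠ 0 → (∀ i, |c i| ≤ (N₀ + 2 ^ k : ℕ)) → c ⬝ᵥ a ≠ 0 :=
    fun c h1 h2 => hΓ c (Finset.mem_union_right _ (mem_box.mpr ⟨h1, h2⟩))
  obtain ⟨i₀, -, hi₀⟩ := Finset.exists_max_image Finset.univ (fun i => (a i).natAbs)
    ⟨⟨0, by omega⟩, Finset.mem_univ _⟩
  set N := (a i₀).natAbs with hNdef
  have hiN : |a i₀| = N := by rw [hNdef, Int.natCast_natAbs]
  have haN : ∀ i, |a i| ≤ N := fun i => by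
    rw [← Int.natCast_natAbs]
    exact_mod_cast hi₀ i (Finset.mem_univ _)
  have hN : N₀ + 2 ^ k < N := by
    by_contra hc
    let j₀ : Fin k := ⟨0, by omega⟩
    let j₁ : Fin k := ⟨1, by omega⟩
    have hj : j₀ ≠ j₁ := by simp [j₀, j₁]
    have hle : ∀ i, |a i| ≤ (N₀ + 2 ^ k : ℕ) := fun i => (haN i).trans (by exact_mod_cast not_lt.mp hc)
    have h1 : a j₁ ≠ 0 := by
      have h2 : 1 ≤ N₀ + 2 ^ k := le_add_left Nat.one_le_two_pow
      have := hbox (Pi.single j₁ 1) (by simp) fun j => by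
        rw [Pi.single_apply]
        split_ifs
        · rw [abs_one]; exact_mod_cast h2
        · rw [abs_zero]; positivity
      simpa using this
    refine hbox (Pi.single j₀ (a j₁) - Pi.single j₁ (a j₀)) (fun h => h1 ?_) (fun j => ?_) ?_
    · simpa [hj] using congrFun h j₀
    · rw [Pi.sub_apply, Pi.single_apply, Pi.single_apply]
      split_ifs with e1 e2
      · exact absurd (e1.symm.trans e2) hj
      · simpa using hle j₁
      · simpa using hle j₀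
      · rw [sub_self, abs_zero]; positivity
    · rw [sub_dotProduct, single_dotProduct, single_dotProduct]
      ring
  have hNp : 0 < N := lt_of_le_of_lt (Nat.zero_le _) hN
  have hN1 : N₀ < N := lt_of_le_of_lt (Nat.le_add_right _ _) hN
  have hN2 : 2 ^ k < N := lt_of_le_of_lt (Nat.le_add_left _ _) hN
  have hNR : (0 : ℝ) < N := by exact_mod_cast hNp
  have hiR : |(a i₀ : ℝ)| = N := by exact_mod_cast hiN
  obtain ⟨Q, hQ2, hQ1, hQ3⟩ := exists_Q (k := k) (N := N) (by omega) (by omega)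
  obtain ⟨τ, hτ, hτQ, b, hb⟩ := hdir k a N Q hNp (by omega)
  have ap : Ap a b N Q τ := ⟨hNp, hQ2, hτ, haN, hb⟩
  obtain ⟨B₁, hB₁⟩ := hne
  have nz : ∀ B ∈ Ps, Th a b B ≠ 0 := fun B hB => Th_ne_zero b (inj B hB) (h0 B hB)
  have ev0 : ∀ B ∈ Ps, evc a α B = 0 := fun B hB => evc_span hmin (Ideal.subset_span hB)
  have dm : ∀ B ∈ Ps, Dm R B := fun B hB => hDm B (by simp [hB])
  have crd : ∀ B ∈ Ps, B.coeff.support.card ≤ Ps.sup fun B => B.coeff.support.card :=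
    fun B hB => Finset.le_sup (f := fun B : LQ ℚ k => B.coeff.support.card) hB
  obtain ⟨G, hG, g1, g2⟩ := primefac (evc ![1, 0] α : LQ ℚ 2 →ₐ[ℚ] ℂ).toRingHom (nz B₁ hB₁)
    ((evc_Th a b α B₁).trans (ev0 B₁ hB₁))
  by_cases hall : ∀ B ∈ Ps, G ∣ Th a b B
  · have hall' : ∀ B ∈ Ps, G ∣ ∑ u ∈ B.coeff.support, single (th a b u) (B.coeff u) :=
      fun B hB => Th_eq a b B ▸ hall B hB
    rcases hCM α G hG.ne_zero g2 with hns | ⟨μ, hμ, hsg⟩
    · obtain ⟨τ', hτ', hτQ', b', hb'⟩ := hdir k a N Q₀ hNp (by omega)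
      have ap' : Ap a b' N Q₀ τ' := ⟨hNp, by omega, hτ', haN, hb'⟩
      have hb0 := ap'.ne_zero hiN
      have hbb : b' ∈ box k (Q₀ ^ k + 1) := mem_box.mpr ⟨hb0, fun i => (ap'.b_le i).trans (by
        exact_mod_cast Nat.succ_le_succ hτQ')⟩
      obtain ⟨e1, e2, e3, e4⟩ := hEb b' hb0
      let ω : (Fin k → ℤ) →+ ℝ := AddMonoidHom.mk'
        (fun u => ((u ⬝ᵥ a : ℤ) : ℝ) - N / τ' * ((u ⬝ᵥ b' : ℤ) : ℝ)) fun u w => by
          simp only [add_dotProduct, Int.cast_add]; ring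
      have w1 : ∀ A, Dm R A → Wd (dotR b') (R * (τ' + 1)) A := by
        intro A hA u hu u' hu'
        have := ap'.w1 (d := u - u') (hA u hu u' hu')
        rwa [sub_dotProduct, Int.cast_sub] at this
      have w2 : ∀ A, Dm R A → Wd ω (R * (N / (Q₀ * τ'))) A := by
        intro A hA u hu u' hu'
        have := ap'.w2 (d := u - u') (hA u hu u' hu')
        rw [sub_dotProduct, sub_dotProduct, Int.cast_sub, Int.cast_sub] at this
        simp only [ω, AddMonoidHom.mk'_apply]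
        linarith
      have d1 := hDm F₁ (by simp)
      have d2 := hDm F₂ (by simp)
      have e5 := (e4 ω _ _ (w1 _ d1) (w1 _ d2) (w2 _ d1) (w2 _ d2)).mono (ap'.fin hR)
      have e6 : Wd x0h (5 * R ^ 2 * N / Q₀) (Th a b (Eb b')) := by
        intro z hz z' hz'
        obtain ⟨u, hu, rfl⟩ := mem_Th hz
        obtain ⟨u', hu', rfl⟩ := mem_Th hz'
        have := e5 u hu u' hu'
        simp only [ω, AddMonoidHom.mk'_apply, e3 u hu, e3 u' hu', Int.cast_zero, mul_zero,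
          sub_zero] at this
        exact this
      have e7 : G ∣ Th a b (Eb b') := by
        have h1 : Ideal.span (Ps : Set (LQ ℚ k)) ≤ (Ideal.span {G}).comap (Th a b) := by
          rw [Ideal.span_le]
          intro B hB
          exact Ideal.mem_comap.mpr (Ideal.mem_span_singleton.mpr (hall B hB))
        obtain ⟨x, y, hxy⟩ := Ideal.mem_span_pair.mp e2
        rw [← hxy]
        exact Ideal.mem_span_singleton.mp (Ideal.mem_comap.mp (h1
          (Ideal.add_mem _ (Ideal.mul_mem_left _ _ m1) (Ideal.mul_mem_left _ _ m2))))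
      have e8 := e6.of_dvd x0h (Th_ne_zero b (injE b' hbb) e1) e7
      have e9 := hC₀ a (CM * (5 * R ^ 2 * N / Q₀)) (by positivity) (by
        rintro _ ⟨B, hB, u, hu, u', hu', rfl⟩
        have := hns _ e8 _ B.coeff.support B.coeff (th a b) (crd B hB) (hall' B hB) (hmin B hB)
          u hu u' hu'
        rw [sub_dotProduct, Int.cast_sub]
        exact this) i₀
      have hQR : (Q₀ : ℝ) = C₀ * CM * (5 * R ^ 2) + 2 := by rw [hQ₀]; push_cast; ring
      have hQp : (0 : ℝ) < Q₀ := by rw [hQR]; positivity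
      rw [hiR, ← mul_div_assoc, ← mul_div_assoc, le_div_iff₀ hQp, hQR] at e9
      nlinarith
    · have h1 : ∀ u ∈ AddSubgroup.closure (Dif Ps), μ 0 * (u ⬝ᵥ b) = μ 1 * (u ⬝ᵥ a) := by
        intro x hx
        induction hx using AddSubgroup.closure_induction with
        | mem x hx =>
          obtain ⟨B, hB, u, hu, u', hu', rfl⟩ := hx
          rw [sub_dotProduct, sub_dotProduct]
          exact hsg _ B.coeff.support B.coeff (th a b) (hall' B hB) (hmin B hB) u hu u' hu'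
        | zero => simp
        | add x y _ _ hx hy => rw [add_dotProduct, add_dotProduct, mul_add, mul_add, hx, hy]
        | neg x _ hx => rw [neg_dotProduct, neg_dotProduct, mul_neg, mul_neg, hx]
      have h2 := h1 v (hcl ▸ AddSubgroup.mem_top _)
      rw [hv, mul_one] at h2
      have h3 : μ 0 ≠ 0 := by
        intro h
        apply hμ
        ext i
        fin_cases i
        · exact h
        · simpa [h] using h2.symm
      have h4 := ap.mul hiN (v ⬝ᵥ b) (by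
        ext i
        have := h1 (Pi.single i 1) (hcl ▸ AddSubgroup.mem_top _)
        rw [single_dotProduct, single_dotProduct, one_mul, one_mul, ← h2, mul_assoc] at this
        exact mul_left_cancel₀ h3 this)
      omega
  · push Not at hall
    obtain ⟨B, hB, g3⟩ := hall
    have h1 := arith he hdu ap hR (dm B₁ hB₁) (dm B hB) (nz B₁ hB₁) (nz B hB) hG g1 g2 g3 (ev0 B hB)
    refine hN₀ N Q (by omega) (by omega) hQ3 _ (Nat.cast_nonneg _) h1 ?_
    have h2 := hC₀ a (((minpoly ℚ (α : ℂ)).natDegree : ℝ) ^ (1 + 1 / (2 * k : ℝ)) / c)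
      (by positivity) (by
        rintro _ ⟨B, hB, u, hu, u', hu', rfl⟩
        have := hdeg α hα _ B.coeff.support B.coeff (· ⬝ᵥ a) (crd B hB)
          (fun i hi => Finset.mem_biUnion.mpr ⟨B, hB, Finset.mem_image_of_mem _ hi⟩) (hmin B hB)
          u hu u' hu'
        rw [sub_dotProduct, Int.cast_sub, le_div_iff₀ hc, mul_comm]
        exact this) i₀
    rw [hiR, ← mul_div_assoc, le_div_iff₀ hc] at h2
    rw [div_mul_eq_mul_div, div_le_iff₀ (by positivity)]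
    have : (0 : ℝ) ≤ ((minpoly ℚ (α : ℂ)).natDegree : ℝ) ^ (1 + 1 / (2 * k : ℝ)) := by positivity
    nlinarith

end CznA

open CznA in
theorem czn (hu : S_UFD) (he : S_Elim) (hg : S_Geo) (hd : S_Deg) (hdu : S_DegUp) (hdir : S_Dir)
    (hav : S_Avoid) : S_CZN := by
  intro k Ps hne h0 hpr hcl
  obtain ⟨F₁, F₂, f1, f2, m1, m2, hrel⟩ := hav k Ps hne h0 hpr
  have mono : ∀ (E : LQ ℚ k) (a : Fin k → ℤ) (α : ℂˣ), E ≠ 0 → (∀ u ∈ E.coeff.support, u = 0) →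
      evc a α E ≠ 0 := by
    intro E a α hE h
    have hs : E.coeff.support = {0} := by
      refine Finset.eq_singleton_iff_nonempty_unique_mem.mpr ⟨?_, h⟩
      rw [Finsupp.support_nonempty_iff]
      simpa using hE
    have : E.coeff 0 ≠ 0 := Finsupp.mem_support_iff.mp (hs ▸ Finset.mem_singleton_self _)
    rw [evc_eq_sum, hs]
    simpa using this
  rcases Nat.lt_or_ge k 2 with hk | hk
  · refine ⟨∅, by simp, fun a _ α _ hmin => ?_⟩
    interval_cases k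
    · exact mono F₁ a α f1 (fun u _ => Subsingleton.elim _ _) (evc_span hmin m1)
    · obtain ⟨E, e1, e2, e3, -⟩ := he 1 (AddMonoidHom.mk' (fun u => u 0) fun _ _ => rfl) ![1] rfl
        F₁ F₂ f1 f2 hrel
      refine mono E a α e1 (fun u hu => ?_) (evc_span hmin ?_)
      · ext i
        fin_cases i
        exact e3 u hu
      · obtain ⟨x, y, rfl⟩ := Ideal.mem_span_pair.mp e2
        exact Ideal.add_mem _ (Ideal.mul_mem_left _ _ m1) (Ideal.mul_mem_left _ _ m2)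
  obtain ⟨Γ, hΓ0, hΓ1, hΓ⟩ := big hu he hg hd hdu hdir hk hne h0 hcl f1 f2 m1 m2 hrel
  refine ⟨Γ, hΓ0, fun a ha α hα hmin => ?_⟩
  have ha0 : a ≠ 0 := by
    rintro rfl
    exact ha _ (hΓ1 ⟨0, by omega⟩) (by simp)
  obtain ⟨g, hg0, a₀, v, rfl, hv⟩ := prim ha0
  have e : ∀ u : Fin k → ℤ, ((α ^ g : ℂˣ) : ℂ) ^ (u ⬝ᵥ a₀) = (α : ℂ) ^ (u ⬝ᵥ ((g : ℤ) • a₀)) := by
    intro u
    rw [dotProduct_smul, smul_eq_mul, zpow_mul, zpow_natCast, Units.val_pow_eq_pow_val]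
  refine hΓ a₀ v hv (fun c hc h => ha c hc (by rw [dotProduct_smul, h, smul_zero])) (α ^ g) ?_ ?_
  · rintro ⟨m, hm, h⟩
    exact hα ⟨g * m, Nat.mul_pos hg0 hm, by rwa [pow_mul, ← Units.val_pow_eq_pow_val]⟩
  · intro B hB
    unfold MinVan
    simp only [e]
    exact hmin B hB

end Pool.Agent.P.MP_aef18a_nt
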