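import Pool.Agent.P.MP_aef18a_nt.Ad.Cone
import Pool.Agent.P.MP_aef18a_nt.Ad.Czn

namespace Pool.Agent.P.MP_aef18a_nt

open CznA in
theorem coneFac (hfac : S_Fac) {n k : ℕ} {F : LP n} {c : (Fin n → ℤ) → ℤ}
    (hc : ∀ u, F.coeff u = c u) (hF : Irreducible F) {C : Set (Fin n → ℝ)} (hC : IsClosed C)
    (hC' : ∀ x ∈ C, ∀ t : ℝ, 0 < t → ∀ y : Fin n → ℝ,
      (∀ u w, c u ≠ 0 → c w ≠ 0 → pt u ⬝ᵥ y = pt w ⬝ᵥ y) → t • x + y ∈ C)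
    (h : ∀ x ∈ C, (∃ u w, c u ≠ 0 ∧ c w ≠ 0 ∧ pt u ⬝ᵥ x ≠ pt w ⬝ᵥ x) →
      ∀ u, pt u ∈ (newt F).extremePoints ℝ → (∀ w, c w ≠ 0 → pt w ⬝ᵥ x ≤ pt u ⬝ᵥ x) →
        ∃ q : ℕ, q.Prime ∧ (∃ w, ¬ (q : ℤ) ∣ c w) ∧
          (∀ w, pt w ⬝ᵥ x = pt u ⬝ᵥ x → (q : ℤ) ∣ c w) ∧ ¬ (q : ℤ) ^ (k + 1) ∣ c u) :
    ∃ Γ : Finset (Fin n → ℤ), 0 ∉ Γ ∧ ∀ a : Fin n → ℤ, pt a ∈ C → (∀ γ ∈ Γ, γ ⬝ᵥ a ≠ 0) →
      Fac (spec a F) k := by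
  classical
  have hs : ∀ u, u ∈ F.coeff.support ↔ c u ≠ 0 := fun u => by
    rw [Finsupp.mem_support_iff, hc]
    exact_mod_cast Iff.rfl
  obtain ⟨K, hK⟩ := cptC F.coeff.support (fun u => pt u ∈ (newt F).extremePoints ℝ)
    (fun u q => q.Prime ∧ (∃ w, ¬ (q : ℤ) ∣ c w) ∧ (q : ℤ) ∣ c u ∧ ¬ (q : ℤ) ^ (k + 1) ∣ c u)
    (fun q w => ¬ (q : ℤ) ∣ c w) C hC
    (fun x hx t ht y hy => hC' x hx t ht y fun u w hu hw => hy u ((hs u).2 hu) w ((hs w).2 hw))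
    (by
      rintro x hx ⟨u₁, h₁, u₂, h₂, h₃⟩ u _ hmax hV
      obtain ⟨q, q1, q2, q3, q4⟩ := h x hx ⟨u₁, u₂, (hs _).1 h₁, (hs _).1 h₂, h₃⟩ u hV
        fun w hw => hmax w ((hs w).2 hw)
      exact ⟨q, ⟨q1, q2, q3 u rfl, q4⟩, fun w _ e => not_not.mpr (q3 w e)⟩)
  obtain ⟨Z, rfl, hZ⟩ := exists_int hc
  have key : ∀ q : ℕ, ∃ Γ : Finset (Fin n → ℤ), 0 ∉ Γ ∧ (q.Prime → (∃ u, ¬ (q : ℤ) ∣ c u) →
      ∀ a : Fin n → ℤ, (∀ c ∈ Γ, c ⬝ᵥ a ≠ 0) →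
      ∀ u ∈ Z.coeff.support, (∀ w ∈ Z.coeff.support, w ⬝ᵥ a ≤ u ⬝ᵥ a) →
        (∀ w, ¬ (q : ℤ) ∣ Z.coeff w → ∀ w' ∈ Z.coeff.support,
          u ⬝ᵥ a - w' ⬝ᵥ a ≤ K * (u ⬝ᵥ a - w ⬝ᵥ a)) →
        ∀ k : ℕ, ¬ (q : ℤ) ^ (k + 1) ∣ Z.coeff u → Fac (spec a (toQ Z)) k) := by
    intro q
    by_cases hq : q.Prime ∧ ∃ u, ¬ (q : ℤ) ∣ c u
    · obtain ⟨Γ, h1, h2⟩ := hfac n Z hF q hq.1 (by simpa only [hZ] using hq.2) K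
      exact ⟨Γ, h1, fun _ _ => h2⟩
    · exact ⟨∅, by simp, fun h1 h2 => absurd ⟨h1, h2⟩ hq⟩
  choose Γ hΓ0 hΓ using key
  refine ⟨dif (toQ Z) ∪ ((toQ Z).coeff.support.biUnion fun u => (c u).natAbs.primeFactors).biUnion Γ,
    by simp [dif, hΓ0], fun a haC ha => ?_⟩
  have inj : Set.InjOn (· ⬝ᵥ a) (toQ Z).coeff.support :=
    injOn_of_dif fun γ hγ => ha γ (Finset.mem_union_left _ hγ)
  have hl : ∀ u, lin (pt a) u = ((u ⬝ᵥ a : ℤ) : ℝ) := fun u => lin_cast a u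
  obtain ⟨u, hu, hV, hmax⟩ := exists_vertex hF.ne_zero (pt a)
  obtain ⟨u', hu', hne⟩ : ∃ u' ∈ (toQ Z).coeff.support, u' ≠ u := by
    by_contra hcon
    push Not at hcon
    have h1 : (toQ Z).coeff.support ⊆ {u} := fun w hw => Finset.mem_singleton.mpr (hcon w hw)
    have h2 : toQ Z = AddMonoidAlgebra.single u ((toQ Z).coeff u) := by
      ext1
      rw [AddMonoidAlgebra.coeff_single]
      exact Finsupp.support_subset_singleton.mp h1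
    exact hF.not_isUnit (h2 ▸ isUnit_single u (Finsupp.mem_support_iff.mp hu).isUnit)
  obtain ⟨q, ⟨q1, q2, q3, q4⟩, q5⟩ := hK (pt a) haC ⟨u', hu', u, hu, fun e => hne (inj hu' hu (by
    rw [hl, hl] at e
    exact_mod_cast e))⟩ u hu hmax hV
  refine hΓ q q1 q2 a (fun γ hγ => ha γ (Finset.mem_union_right _ (Finset.mem_biUnion.mpr
    ⟨q, Finset.mem_biUnion.mpr ⟨u, hu, Nat.mem_primeFactors.mpr ⟨q1, Int.natCast_dvd.mp q3,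
      Int.natAbs_ne_zero.mpr ((hs u).1 hu)⟩⟩, hγ⟩))) u (support_toQ Z ▸ hu) (fun w hw => ?_)
    (fun w hw w' hw' => ?_) k (by rwa [hZ])
  · have := hmax w (by rwa [support_toQ])
    rw [hl, hl] at this
    exact_mod_cast this
  · rw [hZ] at hw
    have := q5 w ((hs w).2 fun e => hw (e ▸ dvd_zero _)) hw w' (by rwa [support_toQ])
    rw [hl, hl, hl] at this
    exact_mod_cast this

end Pool.Agent.P.MP_aef18a_nt
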