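import Pool.Agent.P.MP_aef18a_nt.Ad.Basic

namespace Pool.Agent.P.MP_aef18a_nt

open Polynomial

namespace ConstA

section Der

variable {K : Type*} [Field K] {D : K → K}

lemma der_eval (hadd : ∀ a b, D (a + b) = D a + D b) (hmul : ∀ a b, D (a * b) = a * D b + D a * b)
    {A : Type*} [CommRing A] (f : A →+* K) (hf : ∀ a, D (f a) = 0) (x : K) (q : A[X]) :
    D (eval₂ f x q) = eval₂ f x (derivative q) * D x := by
  induction q using Polynomial.induction_on with
  | C a => simp [hf]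
  | add p q hp hq => rw [eval₂_add, hadd, hp, hq, derivative_add, eval₂_add]; ring
  | monomial n a ih =>
    rw [pow_succ, ← mul_assoc, eval₂_mul, eval₂_X, hmul, ih, derivative_mul (g := X), derivative_X,
      mul_one, eval₂_add, eval₂_mul (q := X), eval₂_X]
    ring

/-- a nonconstant element is transcendental over the constants -/
lemma exists_ker (hadd : ∀ a b, D (a + b) = D a + D b)
    (hmul : ∀ a b, D (a * b) = a * D b + D a * b)
    {A : Type*} [CommRing A] [IsDomain A] [CharZero A] (f : A →+* K) (hf : ∀ a, D (f a) = 0)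
    {x : K} (hx : D x ≠ 0) (h0 : D 0 = 0) :
    ∀ (n : ℕ) (q : A[X]), q.natDegree ≤ n → q ≠ 0 → eval₂ f x q = 0 → ∃ a, a ≠ 0 ∧ f a = 0 := by
  have base : ∀ q : A[X], q.natDegree = 0 → q ≠ 0 → eval₂ f x q = 0 → ∃ a, a ≠ 0 ∧ f a = 0 := by
    intro q hq h1 h2
    obtain ⟨a, rfl⟩ := natDegree_eq_zero.mp hq
    exact ⟨a, by simpa using h1, by simpa using h2⟩
  intro n
  induction n with
  | zero => exact fun q hq => base q (Nat.le_zero.mp hq)
  | succ n ih =>
    intro q hq h1 h2
    by_cases hd : q.natDegree = 0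
    · exact base q hd h1 h2
    refine ih (derivative q) ?_ (fun h => hd (derivative_eq_zero.mp h)) ?_
    · have := natDegree_derivative_le q
      omega
    · have := der_eval hadd hmul f hf x q
      rw [h2, h0] at this
      exact (mul_eq_zero.mp this.symm).resolve_right hx

end Der

/-- a derivation preserving a prime ideal extends to the fraction field of the quotient -/
lemma ext_der {R K : Type*} [CommRing R] [Field K] (I : Ideal R) [Algebra (R ⧸ I) K]
    [IsFractionRing (R ⧸ I) K] (δ : R → R) (hadd : ∀ a b, δ (a + b) = δ a + δ b)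
    (hmul : ∀ a b, δ (a * b) = δ a * b + a * δ b) (hI : ∀ a ∈ I, δ a ∈ I) :
    ∃ D : K → K, (∀ a b, D (a + b) = D a + D b) ∧ (∀ a b, D (a * b) = a * D b + D a * b) ∧
      ∀ A, D (algebraMap (R ⧸ I) K (Ideal.Quotient.mk I A)) =
        algebraMap (R ⧸ I) K (Ideal.Quotient.mk I (δ A)) := by
  let φ : R →+* K := (algebraMap (R ⧸ I) K).comp (Ideal.Quotient.mk I)
  have hφ : ∀ A ∈ I, φ A = 0 := fun A hA => by
    simp only [φ, RingHom.comp_apply]
    rw [Ideal.Quotient.eq_zero_iff_mem.mpr hA, map_zero]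
  have d1 : δ 1 = 0 := by
    have := hmul 1 1
    rw [mul_one, mul_one, one_mul] at this
    exact left_eq_add.mp this
  have d0 : δ 0 = 0 := by
    have := hadd 0 0
    rw [add_zero] at this
    exact left_eq_add.mp this
  let Ψ₁ : R →+* DualNumber K :=
    { toFun := fun A => TrivSqZeroExt.inl (φ A) + TrivSqZeroExt.inr (φ (δ A))
      map_one' := by ext <;> simp [d1]
      map_mul' := fun A B => by
        ext
        · simp
        · simp [hmul]; ring
      map_zero' := by ext <;> simp [d0]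
      map_add' := fun A B => by ext <;> simp [hadd] }
  have f1 : ∀ A, (Ψ₁ A).fst = φ A := fun A => by simp [Ψ₁]
  have s1 : ∀ A, (Ψ₁ A).snd = φ (δ A) := fun A => by simp [Ψ₁]
  let Ψ₂ : R ⧸ I →+* DualNumber K := Ideal.Quotient.lift I Ψ₁ fun A hA => by
    ext
    · rw [f1, hφ A hA]; rfl
    · rw [s1, hφ _ (hI A hA)]; rfl
  have f2 : ∀ a : R ⧸ I, (Ψ₂ a).fst = algebraMap (R ⧸ I) K a := fun a => by
    obtain ⟨A, rfl⟩ := Ideal.Quotient.mk_surjective a
    exact f1 A
  have hu : ∀ a : nonZeroDivisors (R ⧸ I), IsUnit (Ψ₂ a) := fun a => by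
    rw [TrivSqZeroExt.isUnit_iff_isUnit_fst, f2]
    exact IsLocalization.map_units K a
  let Ψ : K →+* DualNumber K := IsLocalization.lift hu
  have e1 : ∀ A, Ψ (φ A) = Ψ₁ A := fun A => IsLocalization.lift_eq hu _
  have f3 : ∀ a, (Ψ a).fst = a := by
    have : (TrivSqZeroExt.fstHom K K K).toRingHom.comp Ψ = RingHom.id K := by
      refine IsLocalization.ringHom_ext (nonZeroDivisors (R ⧸ I)) (RingHom.ext fun a => ?_)
      have := IsLocalization.lift_eq (S := K) hu a
      exact (congrArg TrivSqZeroExt.fst this).trans (f2 a)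
    exact fun a => RingHom.congr_fun this a
  refine ⟨fun a => (Ψ a).snd, fun a b => by simp, fun a b => ?_,
    fun A => (congrArg TrivSqZeroExt.snd (e1 A)).trans (s1 A)⟩
  simp only [map_mul, DualNumber.snd_mul, f3]

/-- the function field of the curve with its derivation -/
lemma exists_field {G : LQ ℂ 2} (hG : Prime G) :
    ∃ (K : Type) (_ : Field K) (φ : LQ ℂ 2 →+* K) (D : K → K), (∀ A, φ A = 0 ↔ G ∣ A) ∧
      (∀ a b, D (a + b) = D a + D b) ∧ (∀ a b, D (a * b) = a * D b + D a * b) ∧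
      ∀ A, D (φ A) = φ (DG G A) := by
  let I : Ideal (LQ ℂ 2) := Ideal.span {G}
  have : I.IsPrime := (Ideal.span_singleton_prime hG.ne_zero).mpr hG
  obtain ⟨D, h1, h2, h3⟩ := ext_der (K := FractionRing (LQ ℂ 2 ⧸ I)) I (DG G) (DG_add G) (DG_mul G)
    fun a ha => Ideal.mem_span_singleton.mpr (DG_dvd (Ideal.mem_span_singleton.mp ha))
  refine ⟨FractionRing (LQ ℂ 2 ⧸ I), inferInstance,
    (algebraMap (LQ ℂ 2 ⧸ I) _).comp (Ideal.Quotient.mk I), D, fun A => ?_, h1, h2, h3⟩
  rw [RingHom.comp_apply, IsFractionRing.to_map_eq_zero_iff, Ideal.Quotient.eq_zero_iff_mem,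
    Ideal.mem_span_singleton]

/-- `G` does not divide its derivative in the second variable -/
lemma not_dvd_dd {G : LQ ℂ 2} (hG : G ≠ 0) (hN : NonSeg G) : ¬ G ∣ dd 1 G := by
  rintro ⟨Z, hZ⟩
  obtain ⟨u, hu, u', hu', hne⟩ := hN ![1, 0] (by simp)
  apply hne
  have hs : ∀ v ∈ Z.coeff.support, v = 0 := by
    intro v hv
    have hZ0 : Z ≠ 0 := by rintro rfl; simp at hv
    obtain ⟨a, -, w, -, z, hz, a1, b1, e⟩ := exists_top_mul (dotR v) hG hZ0
    rw [← hZ] at hz
    have h1 := a1 z (support_dd 1 G hz)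
    have h2 := b1 v hv
    have h3 : ((v ⬝ᵥ v : ℤ) : ℝ) ≤ 0 := by
      rw [← dotR_apply]
      linarith
    have h4 : v ⬝ᵥ v ≤ 0 := by exact_mod_cast h3
    simp only [dotProduct, Fin.sum_univ_two] at h4
    ext i
    fin_cases i
    · show v 0 = 0
      nlinarith [mul_self_nonneg (v 0), mul_self_nonneg (v 1)]
    · show v 1 = 0
      nlinarith [mul_self_nonneg (v 0), mul_self_nonneg (v 1)]
  have hZ' : Z = AddMonoidAlgebra.single 0 (Z.coeff 0) := by
    ext v
    by_cases hv : v = 0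
    · subst hv; simp
    · rw [Finsupp.notMem_support_iff.mp fun h => hv (hs v h), AddMonoidAlgebra.coeff_single,
        Finsupp.single_eq_of_ne hv]
  have key : ∀ w ∈ G.coeff.support, (w 1 : ℂ) = Z.coeff 0 := by
    intro w hw
    have h : (dd 1 G).coeff w = (G * AddMonoidAlgebra.single 0 (Z.coeff 0)).coeff w := by
      rw [← hZ', hZ]
    rw [dd_coeff, AddMonoidAlgebra.coeff_mul_single_zero, mul_comm] at h
    exact mul_left_cancel₀ (Finsupp.mem_support_iff.mp hw) h
  have : u 1 = u' 1 := by exact_mod_cast (key u hu).trans (key u' hu').symm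
  simp [this]

section Alg

variable {K : Type*} [Field K] (φ : LQ ℂ 2 →+* K)

lemma phi_single (u : Fin 2 → ℤ) (c : ℂ) :
    φ (AddMonoidAlgebra.single u c) = φ (algebraMap ℂ _ c) *
      φ (AddMonoidAlgebra.single ![1, 0] 1) ^ u 0 * φ (AddMonoidAlgebra.single ![0, 1] 1) ^ u 1 := by
  let χ : Multiplicative (Fin 2 → ℤ) →* K := φ.toMonoidHom.comp (AddMonoidAlgebra.of ℂ _)
  have hz : ∀ (v : Fin 2 → ℤ) (n : ℤ), φ (AddMonoidAlgebra.single v 1) ^ n =
      φ (AddMonoidAlgebra.single (n • v) 1) := by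
    intro v n
    have h1 : ∀ w : Fin 2 → ℤ, φ (AddMonoidAlgebra.single w 1) =
        (χ.toHomUnits (Multiplicative.ofAdd w) : K) := fun w => rfl
    rw [h1, h1, ofAdd_zsmul, map_zpow, Units.val_zpow_eq_zpow_val]
  rw [hz, hz, ← map_mul, ← map_mul, AddMonoidAlgebra.coe_algebraMap, Function.comp_apply,
    AddMonoidAlgebra.single_mul_single, AddMonoidAlgebra.single_mul_single]
  congr 2
  · ext i
    fin_cases i <;> simp
  · simp

lemma phi_ne (u : Fin 2 → ℤ) : φ (AddMonoidAlgebra.single u 1) ≠ 0 :=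
  ((isUnit_single u isUnit_one).map φ).ne_zero

/-- the two coordinates satisfy a polynomial relation -/
lemma exists_rel {G : LQ ℂ 2} (hG : G ≠ 0) (h : φ G = 0) :
    ∃ p : ℂ[X][X], p ≠ 0 ∧ eval₂ (eval₂RingHom (φ.comp (algebraMap ℂ _))
      (φ (AddMonoidAlgebra.single ![1, 0] 1))) (φ (AddMonoidAlgebra.single ![0, 1] 1)) p = 0 := by
  classical
  obtain ⟨N, hN⟩ : ∃ N : ℕ, ∀ u ∈ G.coeff.support, ∀ i, 0 ≤ u i + N := by
    refine ⟨G.coeff.support.sup fun u => (u 0).natAbs + (u 1).natAbs, fun u hu i => ?_⟩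
    have := Finset.le_sup (f := fun u : Fin 2 → ℤ => (u 0).natAbs + (u 1).natAbs) hu
    fin_cases i
    · show 0 ≤ u 0 + _
      omega
    · show 0 ≤ u 1 + _
      omega
  refine ⟨∑ u ∈ G.coeff.support,
    monomial (u 1 + N).toNat (monomial (u 0 + N).toNat (G.coeff u)), ?_, ?_⟩
  · obtain ⟨m, -, h2⟩ := exists_top (fun _ => (0 : ℝ)) hG
    obtain ⟨w, hw, -⟩ := lev_ne_zero_iff.mp h2
    intro h0
    have h1 := congrArg (fun p : ℂ[X][X] => (p.coeff (w 1 + N).toNat).coeff (w 0 + N).toNat) h0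
    simp only [finsetSum_coeff, coeff_zero] at h1
    rw [Finset.sum_eq_single w] at h1
    · simp only [coeff_monomial, if_true] at h1
      exact Finsupp.mem_support_iff.mp hw h1
    · intro u hu hne
      rw [coeff_monomial]
      split_ifs with e1
      · rw [coeff_monomial, if_neg]
        intro e0
        apply hne
        have a0 := hN u hu 0
        have a1 := hN u hu 1
        have b0 := hN w hw 0
        have b1 := hN w hw 1
        ext i
        fin_cases i
        · show u 0 = w 0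
          omega
        · show u 1 = w 1
          omega
      · simp
    · exact fun h => absurd hw h
  · set x := φ (AddMonoidAlgebra.single ![1, 0] 1)
    set z := φ (AddMonoidAlgebra.single ![0, 1] 1)
    have hx : x ≠ 0 := phi_ne φ _
    have hz : z ≠ 0 := phi_ne φ _
    have e : φ G = ∑ u ∈ G.coeff.support, φ (AddMonoidAlgebra.single u (G.coeff u)) := by
      rw [← map_sum]
      congr 1
      exact (AddMonoidAlgebra.sum_coeff_single G).symm
    have : x ^ (N : ℤ) * z ^ (N : ℤ) * φ G = 0 := by rw [h, mul_zero]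
    rw [← this, e, Finset.mul_sum, eval₂_finsetSum]
    refine Finset.sum_congr rfl fun u hu => ?_
    rw [eval₂_monomial, coe_eval₂RingHom, eval₂_monomial, phi_single, ← zpow_natCast, ← zpow_natCast,
      Int.toNat_of_nonneg (hN u hu 0), Int.toNat_of_nonneg (hN u hu 1), zpow_add₀ hx, zpow_add₀ hz,
      RingHom.comp_apply]
    ring

/-- every quotient satisfies a relation with the first coordinate -/
lemma exists_rel' {G : LQ ℂ 2} (hG : G ≠ 0) (h : φ G = 0) (P₁ P₂ : LQ ℂ 2) :
    ∃ p : ℂ[X][X], p ≠ 0 ∧ eval₂ (eval₂RingHom (φ.comp (algebraMap ℂ _))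
      (φ (AddMonoidAlgebra.single ![1, 0] 1))) (φ P₁ / φ P₂) p = 0 := by
  let _ : Algebra ℂ[X] K := (eval₂RingHom (φ.comp (algebraMap ℂ _))
      (φ (AddMonoidAlgebra.single ![1, 0] 1))).toAlgebra
  have zp : ∀ (w : K) (n : ℤ), IsAlgebraic ℂ[X] w → IsAlgebraic ℂ[X] (w ^ n) := by
    intro w n hw
    obtain ⟨k, rfl | rfl⟩ := Int.eq_nat_or_neg n
    · rw [zpow_natCast]; exact hw.pow k
    · rw [zpow_neg, zpow_natCast]; exact (hw.pow k).inv
  have ax : IsAlgebraic ℂ[X] (φ (AddMonoidAlgebra.single ![1, 0] 1)) := by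
    have := isAlgebraic_algebraMap (A := K) (X : ℂ[X])
    rwa [RingHom.algebraMap_toAlgebra, coe_eval₂RingHom, eval₂_X] at this
  have az : IsAlgebraic ℂ[X] (φ (AddMonoidAlgebra.single ![0, 1] 1)) := exists_rel φ hG h
  have aa : ∀ A, IsAlgebraic ℂ[X] (φ A) := by
    intro A
    induction A using AddMonoidAlgebra.induction_linear with
    | zero => rw [map_zero]; exact isAlgebraic_zero
    | add a b ha hb => rw [map_add]; exact ha.add hb
    | single u c =>
      rw [phi_single]
      refine IsAlgebraic.mul (IsAlgebraic.mul ?_ (zp _ _ ax)) (zp _ _ az)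
      have := isAlgebraic_algebraMap (A := K) (C c : ℂ[X])
      rwa [RingHom.algebraMap_toAlgebra, coe_eval₂RingHom, eval₂_C] at this
  have : IsAlgebraic ℂ[X] (φ P₁ / φ P₂) := by
    rw [div_eq_mul_inv]
    exact (aa P₁).mul (aa P₂).inv
  exact this

lemma eval_swap (ι : ℂ →+* K) (x y : K) (p : ℂ[X][X]) :
    eval₂ (eval₂RingHom ι y) x (Bivariate.swap p) = eval₂ (eval₂RingHom ι x) y p := by
  have : (eval₂RingHom (eval₂RingHom ι y) x).comp (Bivariate.swap (R := ℂ)).toRingEquiv.toRingHom =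
      eval₂RingHom (eval₂RingHom ι x) y := by
    refine Polynomial.ringHom_ext' (Polynomial.ringHom_ext' (RingHom.ext fun c => ?_) ?_) ?_
    · have := Bivariate.swap_C_C c
      simp [this]
    · have := Bivariate.swap_X (R := ℂ)
      simp [this]
    · have := Bivariate.swap_Y (R := ℂ)
      simp [this]
  exact RingHom.congr_fun this p

end Alg

end ConstA

open ConstA in
theorem const : S_Const := by
  intro G hG hN P₁ P₂ h2 hd
  obtain ⟨K, _, φ, D, hφ, hadd, hmul, hD⟩ := exists_field hG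
  have h0 : D 0 = 0 := by
    have := hadd 0 0
    rw [add_zero] at this
    exact left_eq_add.mp this
  have hP : φ P₂ ≠ 0 := fun h => h2 ((hφ _).mp h)
  let ι : ℂ →+* K := φ.comp (algebraMap ℂ _)
  have hι : ∀ c, D (ι c) = 0 := fun c => by
    have : DG G (algebraMap ℂ _ c) = 0 := by
      rw [AddMonoidAlgebra.coe_algebraMap, Function.comp_apply]
      simp [DG, dd_single]
    simp only [ι, RingHom.comp_apply]
    rw [hD, this, map_zero]
  have hx : D (φ (AddMonoidAlgebra.single ![1, 0] 1)) ≠ 0 := by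
    rw [hD, DG_single, map_mul]
    refine mul_ne_zero (fun h => not_dvd_dd hG.ne_zero hN ?_) (phi_ne φ _)
    have := (hφ _).mp h
    simpa using this
  have hy : D (φ P₁ / φ P₂) = 0 := by
    have e1 := hmul (φ P₁ / φ P₂) (φ P₂)
    rw [div_mul_cancel₀ _ hP, hD, hD] at e1
    have e2 := (hφ _).mpr hd
    rw [map_sub, map_mul, map_mul, e1, mul_add, ← mul_assoc, mul_div_cancel₀ _ hP,
      add_sub_cancel_left] at e2
    simpa [hP] using e2
  obtain ⟨p, hp, hp0⟩ := exists_rel' φ hG.ne_zero ((hφ G).mpr dvd_rfl) P₁ P₂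
  rw [← eval_swap] at hp0
  obtain ⟨a, ha, ha0⟩ := exists_ker hadd hmul (eval₂RingHom ι (φ P₁ / φ P₂))
    (fun a => by rw [coe_eval₂RingHom, der_eval hadd hmul ι hι, hy, mul_zero]) hx h0 _
    (Bivariate.swap p) le_rfl (by simpa using hp) hp0
  let _ : Algebra ℂ K := ι.toAlgebra
  have hal : IsAlgebraic ℂ (φ P₁ / φ P₂) := ⟨a, ha, ha0⟩
  obtain ⟨κ, hκ⟩ := minpoly.mem_range_of_degree_eq_one ℂ _
    (IsAlgClosed.degree_eq_one_of_irreducible ℂ (minpoly.irreducible hal.isIntegral))
  refine ⟨κ, (hφ _).mp ?_⟩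
  have : φ (algebraMap ℂ _ κ) = φ P₁ / φ P₂ := hκ
  rw [Algebra.smul_def, map_sub, map_mul, this, div_mul_cancel₀ _ hP, sub_self]

end Pool.Agent.P.MP_aef18a_nt
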