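import Pool.Agent.P.MP_aef18a_nt.Ad.Basic

namespace Pool.Agent.P.MP_aef18a_nt

open Polynomial

namespace DegA

lemma alg {ι : Type} (α : ℂˣ) (I : Finset ι) (c : ι → ℚ) (e : ι → ℤ)
    (h0 : ∑ i ∈ I, (c i : ℂ) * (α : ℂ) ^ e i = 0) {i₀ : ι} (hi : i₀ ∈ I)
    (hne : ∑ i ∈ I.filter (fun i => e i = e i₀), c i ≠ 0) :
    ∃ p : ℚ[X], p ≠ 0 ∧ aeval (α : ℂ) p = 0 ∧ ∃ j ∈ I, ∃ j' ∈ I, (p.natDegree : ℤ) ≤ e j - e j' := by
  obtain ⟨lo, hlo, hlo'⟩ := I.exists_min_image e ⟨i₀, hi⟩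
  obtain ⟨hi', hhi, hhi'⟩ := I.exists_max_image e ⟨i₀, hi⟩
  refine ⟨∑ i ∈ I, monomial (e i - e lo).toNat (c i), fun h => hne ?_, ?_, hi', hhi, lo, hlo, ?_⟩
  · have := congrArg (fun p : ℚ[X] => p.coeff (e i₀ - e lo).toNat) h
    simp only [finsetSum_coeff, coeff_monomial, coeff_zero] at this
    rw [Finset.sum_filter]
    refine (Finset.sum_congr rfl fun i hI => if_congr ?_ rfl rfl).trans this
    have := hlo' i hI
    have := hlo' i₀ hi
    omega
  · rw [← mul_zero ((α : ℂ) ^ (-e lo)), ← h0, map_sum, Finset.mul_sum]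
    refine Finset.sum_congr rfl fun i hI => ?_
    rw [aeval_monomial, ← zpow_natCast, Int.toNat_of_nonneg (sub_nonneg.2 (hlo' i hI)),
      sub_eq_add_neg, zpow_add₀ α.ne_zero, eq_ratCast]
    ring
  · have : (∑ i ∈ I, monomial (e i - e lo).toNat (c i)).natDegree ≤ (e hi' - e lo).toNat :=
      natDegree_sum_le_of_forall_le _ _ fun i hI => (natDegree_monomial_le _).trans (by
        have := hhi' i hI
        omega)
    have := hlo' hi' hhi
    omega

lemma den (Cs : Finset ℚ) : ∃ (D : ℤ) (z : ℚ → ℤ) (B : ℕ), D ≠ 0 ∧ 1 ≤ B ∧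
    ∀ c ∈ Cs, (z c : ℚ) = D * c ∧ |z c| ≤ B := by
  obtain ⟨b, hb⟩ := IsLocalization.exist_integer_multiples_of_finset (nonZeroDivisors ℤ) Cs
  choose! z hz using hb
  refine ⟨b, z, Cs.sup (fun c => (z c).natAbs) + 1, nonZeroDivisors.coe_ne_zero b, by omega,
    fun c hc => ⟨by simpa using hz c hc, ?_⟩⟩
  have := Finset.le_sup (f := fun c => (z c).natAbs) hc
  rw [Int.abs_eq_natAbs]
  exact_mod_cast this.trans (Nat.le_succ _)

end DegA

theorem degUp : S_DegUp := by
  intro α k a E w hE hinj h0 hw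
  obtain ⟨u, hu⟩ : E.coeff.support.Nonempty := by
    rw [Finsupp.support_nonempty_iff]
    exact fun h => hE (by ext v; simp [h])
  rw [evc_eq_sum] at h0
  obtain ⟨p, h1, h2, j, hj, j', hj', h3⟩ := DegA.alg α E.coeff.support E.coeff (· ⬝ᵥ a)
    (by simpa using h0) hu (by
      rw [Finset.sum_eq_single u]
      · exact Finsupp.mem_support_iff.1 hu
      · intro v hv hne
        rw [Finset.mem_filter] at hv
        exact absurd (hinj hv.1 hu hv.2) hne
      · intro h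
        exact (h (Finset.mem_filter.2 ⟨hu, rfl⟩)).elim)
  have h4 := natDegree_le_natDegree (minpoly.degree_le_of_ne_zero ℚ _ h1 h2)
  refine le_trans ?_ (hw j hj j' hj')
  beta_reduce
  exact_mod_cast (Int.ofNat_le.2 h4).trans h3

theorem deg (hg : S_Gap) (hd : S_Dob) : S_Deg := by
  intro s Cs η hη
  obtain ⟨c₀, hc₀, hD⟩ := hd η hη
  obtain ⟨D, z, B, hD0, hB, hz⟩ := DegA.den Cs
  have hL : 0 ≤ (s : ℝ) * Real.log (s * B) := by
    have := Real.log_natCast_nonneg (s * B)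
    rw [Nat.cast_mul] at this
    positivity
  refine ⟨c₀ / (s * Real.log (s * B) + 1), by positivity, fun α htor ι I cf e hs hcf hm => ?_⟩
  have key : ∀ i ∈ I, ∀ i' ∈ I, e i' < e i → c₀ / (s * Real.log (s * B) + 1) * ((e i : ℝ) - e i') ≤
      ((minpoly ℚ (α : ℂ)).natDegree : ℝ) ^ (1 + η) := by
    intro i hi i' hi' hlt
    obtain ⟨p, h1, h2, -⟩ := DegA.alg α I cf e hm.1 hi fun h => hm.2
      (I.filter fun j => e j = e i) (Finset.filter_subset _ _) ⟨i, Finset.mem_filter.2 ⟨hi, rfl⟩⟩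
      (fun h' => hlt.ne (Finset.mem_filter.1 (h'.symm ▸ hi' : i' ∈ I.filter _)).2) (by
        rw [Finset.sum_congr rfl fun j hj => by rw [(Finset.mem_filter.1 hj).2], ← Finset.sum_mul,
          ← Rat.cast_sum, h, Rat.cast_zero, zero_mul])
    have hint : IsIntegral ℚ (α : ℂ) := IsAlgebraic.isIntegral ⟨p, h1, h2⟩
    have : FiniteDimensional ℚ (IntermediateField.adjoin ℚ {(α : ℂ)}) :=
      IntermediateField.adjoin.finiteDimensional hint
    have : NumberField (IntermediateField.adjoin ℚ {(α : ℂ)}) := {}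
    let β := IntermediateField.AdjoinSimple.gen ℚ (α : ℂ)
    let φ := algebraMap (IntermediateField.adjoin ℚ {(α : ℂ)}) ℂ
    have hφ : φ β = α := rfl
    have tr : ∀ J ⊆ I, φ (∑ j ∈ J, (z (cf j) : IntermediateField.adjoin ℚ {(α : ℂ)}) * β ^ e j) =
        D * ∑ j ∈ J, (cf j : ℂ) * (α : ℂ) ^ e j := by
      intro J hJ
      simp only [map_sum, map_mul, map_intCast, map_zpow₀, hφ, Finset.mul_sum]
      refine Finset.sum_congr rfl fun j hj => ?_
      have : (z (cf j) : ℂ) = D * (cf j : ℂ) := by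
        exact_mod_cast congrArg (Rat.cast : ℚ → ℂ) (hz _ (hcf j (hJ hj))).1
      rw [this, mul_assoc]
    have hβ : β ≠ 0 := fun h => α.ne_zero (by rw [← hφ, h, map_zero])
    have hdeg := IntermediateField.adjoin.finrank hint
    have g1 := hg _ β hβ ι I (fun j => z (cf j)) e s B hs hB (fun j hj => (hz _ (hcf j hj)).2)
      (φ.injective (by rw [tr I subset_rfl, hm.1, mul_zero, map_zero]))
      (fun w ⟨j, hj, hw⟩ ⟨j', hj', hw'⟩ h => by
        have h3 := congrArg φ h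
        rw [tr _ (Finset.filter_subset _ _), map_zero, mul_eq_zero] at h3
        refine hm.2 _ (Finset.filter_subset _ _) ⟨j, Finset.mem_filter.2 ⟨hj, hw⟩⟩ (fun h' => ?_)
          (h3.resolve_left (by exact_mod_cast hD0))
        exact hw'.not_ge (Finset.mem_filter.1 (h'.symm ▸ hj' : j' ∈ I.filter _)).2) i hi i' hi'
    have g2 := hD _ β hβ (fun ⟨m, h3, h4⟩ => htor ⟨m, h3, by rw [← hφ, ← map_pow, h4, map_one]⟩)
      (by rw [hdeg]; exact congrArg natDegree (IntermediateField.minpoly_gen ℚ (α : ℂ)))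
    have g3 := Real.log_le_log (pow_pos (Height.mulHeight₁_pos β) _) g1
    rw [Real.log_pow, Real.log_pow, Real.log_pow, NumberField.totalWeight_eq_finrank, hdeg] at g3
    rw [hdeg] at g2
    have e1 : (((e i - e i').toNat : ℕ) : ℝ) = (e i : ℝ) - e i' := by
      exact_mod_cast congrArg (Int.cast : ℤ → ℝ) (Int.toNat_of_nonneg (sub_nonneg.2 hlt.le))
    have e2 : (0 : ℝ) ≤ (e i : ℝ) - e i' := e1 ▸ Nat.cast_nonneg _
    have d0 : (0 : ℝ) < (minpoly ℚ (α : ℂ)).natDegree := by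
      exact_mod_cast minpoly.natDegree_pos hint
    have d1 := (Real.rpow_pos_of_pos d0 η).le
    rw [e1] at g3
    rw [div_mul_eq_mul_div, div_le_iff₀ (by positivity), Real.rpow_add d0, Real.rpow_one]
    nlinarith [mul_le_mul_of_nonneg_right g2 e2, mul_le_mul_of_nonneg_left g3 d1,
      mul_nonneg d0.le d1]
  intro i hi i' hi'
  rcases lt_trichotomy (e i) (e i') with h | h | h
  · rw [abs_sub_comm, abs_of_nonneg (by exact_mod_cast sub_nonneg.2 h.le)]
    exact key i' hi' i hi h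
  · rw [h, sub_self, abs_zero, mul_zero]
    positivity
  · rw [abs_of_nonneg (by exact_mod_cast sub_nonneg.2 h.le)]
    exact key i hi i' hi' h

end Pool.Agent.P.MP_aef18a_nt
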