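import Pool.Agent.P.MP_aef18a_nt.Ad.Basic

/-! Simultaneous Dirichlet approximation and prime avoidance. -/

namespace Pool.Agent.P.MP_aef18a_nt

namespace DirA

lemma box_lt {N Q : ℕ} (hN : 0 < N) (hQ : 0 < Q) (x : ℤ) : (x % N * Q / N).toNat < Q := by
  have h0 : (0 : ℤ) < N := by exact_mod_cast hN
  have h1 : (0 : ℤ) < Q := by exact_mod_cast hQ
  have h2 := Int.emod_lt_of_pos x h0
  have h3 : x % N * Q / N < Q := Int.ediv_lt_of_lt_mul h0 (by nlinarith)
  omega

lemma close {N Q : ℕ} (hN : 0 < N) {x y : ℤ}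
    (h : (x % N * Q / N).toNat = (y % N * Q / N).toNat) : |x % N - y % N| * Q ≤ N := by
  have h0 : (0 : ℤ) < N := by exact_mod_cast hN
  have p : ∀ z : ℤ, 0 ≤ z % N * Q / N := fun z =>
    Int.ediv_nonneg (mul_nonneg (Int.emod_nonneg _ h0.ne') (by positivity)) h0.le
  have e : x % N * Q / N = y % N * Q / N := by have := p x; have := p y; omega
  have a1 := Int.mul_ediv_add_emod (x % N * Q) N
  have a2 := Int.mul_ediv_add_emod (y % N * Q) N
  have b1 := Int.emod_nonneg (x % N * Q) h0.ne'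
  have b2 := Int.emod_nonneg (y % N * Q) h0.ne'
  have c1 := Int.emod_lt_of_pos (x % N * Q) h0
  have c2 := Int.emod_lt_of_pos (y % N * Q) h0
  rw [e] at a1
  rw [← abs_of_nonneg (Int.natCast_nonneg Q), ← abs_mul, abs_le]
  constructor <;> linarith

lemma dir_lt {r : ℕ} (a : Fin r → ℤ) {N Q : ℕ} (hN : 0 < N) {s t : ℕ} (hst : s < t)
    (ht : t ≤ Q ^ r) (h : ∀ i, (t * a i % N * Q / N).toNat = (s * a i % N * Q / N).toNat) :
    ∃ τ : ℕ, 0 < τ ∧ τ ≤ Q ^ r ∧ ∃ b : Fin r → ℤ, ∀ i, |τ * a i - N * b i| * Q ≤ N := by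
  refine ⟨t - s, by omega, by omega, fun i => t * a i / N - s * a i / N, fun i => ?_⟩
  have e : ((t - s : ℕ) : ℤ) * a i - N * (t * a i / N - s * a i / N) =
      t * a i % N - s * a i % N := by
    rw [Nat.cast_sub hst.le, Int.emod_def, Int.emod_def]; ring
  rw [e]
  exact close hN (h i)

end DirA

theorem dir : S_Dir := by
  intro r a N Q hN hQ
  obtain ⟨s, t, hne, h⟩ := Fintype.exists_ne_map_eq_of_card_lt
    (fun (t : Fin (Q ^ r + 1)) (i : Fin r) => (⟨_, DirA.box_lt hN hQ ((t : ℕ) * a i)⟩ : Fin Q))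
    (by simp)
  have h' := fun i => congrArg Fin.val (congrFun h i)
  rcases lt_or_gt_of_ne (Fin.val_ne_of_ne hne) with c | c
  · exact DirA.dir_lt a hN c (Nat.lt_succ_iff.1 t.2) fun i => (h' i).symm
  · exact DirA.dir_lt a hN c (Nat.lt_succ_iff.1 s.2) h'

theorem avoid (hu : S_UFD) : S_Avoid := by
  classical
  rintro k Ps ⟨F, hF⟩ h0 hp
  have := hu ℚ k
  have hF0 := h0 F hF
  have key := (Ideal.subset_union_prime (s := insert 0 (UniqueFactorizationMonoid.factors F).toFinset)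
    (f := fun π : LQ ℚ k => Ideal.span {π}) 0 0 (fun π hπ h _ => by
      rw [Ideal.span_singleton_prime h]
      exact UniqueFactorizationMonoid.prime_of_factor π
        (Multiset.mem_toFinset.1 ((Finset.mem_insert.1 hπ).resolve_left h)))
    (I := Ideal.span (Ps : Set (LQ ℚ k)))).not.2 (by
      rintro ⟨π, hπ, h⟩
      have h1 : ∀ B ∈ Ps, π ∣ B := fun B hB =>
        Ideal.mem_span_singleton.1 (h (Ideal.subset_span hB))
      rcases Finset.mem_insert.1 hπ with rfl | hπ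
      · exact hF0 (zero_dvd_iff.1 (h1 F hF))
      · obtain ⟨B, hB, h2⟩ := hp π
          (UniqueFactorizationMonoid.prime_of_factor π (Multiset.mem_toFinset.1 hπ))
        exact h2 (h1 B hB))
  obtain ⟨G, hG, hG'⟩ := Set.not_subset.1 key
  have h1 : ∀ π ∈ insert 0 (UniqueFactorizationMonoid.factors F).toFinset, ¬ π ∣ G :=
    fun π hπ h => hG' (Set.mem_biUnion (Finset.mem_coe.2 hπ) (Ideal.mem_span_singleton.2 h))
  refine ⟨F, G, hF0, fun e => h1 0 (Finset.mem_insert_self _ _) (e ▸ dvd_rfl),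
    Ideal.subset_span hF, hG, ?_⟩
  rw [UniqueFactorizationMonoid.isRelPrime_iff_no_prime_factors hF0]
  intro d h2 h3 h4
  obtain ⟨π, hπ, h5⟩ := UniqueFactorizationMonoid.exists_mem_factors_of_dvd hF0 h4.irreducible h2
  exact h1 π (Finset.mem_insert_of_mem (Multiset.mem_toFinset.2 hπ)) (h5.symm.dvd.trans h3)

end Pool.Agent.P.MP_aef18a_nt
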