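import Pool.Agent.P.MP_aef18a_nt.Ad.Basic

/-! A weak form of the theorem of Dobrowolski: the numerical part. -/

namespace Pool.Agent.P.MP_aef18a_nt

open Polynomial

namespace DobA

lemma one_le_Mm {K : Type} [Field K] [NumberField K] (β : K) : 1 ≤ Mm β :=
  Finset.prod_induction _ (fun x : ℝ => 1 ≤ x) (fun _ _ a b => one_le_mul_of_one_le_of_one_le a b)
    le_rfl fun _ _ => le_max_right _ _

/-- many primes between `Y` and `2 ^ N * Y` -/
lemma primes (Y N : ℕ) (hY : 0 < Y) : ∃ P : Finset ℕ, P.card = N ∧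
    ∀ p ∈ P, p.Prime ∧ Y < p ∧ p ≤ 2 ^ N * Y := by
  induction N with
  | zero => exact ⟨∅, rfl, by simp⟩
  | succ N ih =>
    obtain ⟨P, h1, h2⟩ := ih
    obtain ⟨p, hp, h3, h4⟩ := Nat.exists_prime_lt_and_le_two_mul (2 ^ N * Y) (by positivity)
    have hn : p ∉ P := fun h => by have := (h2 p h).2.2; omega
    have h5 : Y ≤ 2 ^ N * Y := Nat.le_mul_of_pos_left _ (by positivity)
    have h6 : 2 ^ (N + 1) * Y = 2 * (2 ^ N * Y) := by ring
    refine ⟨insert p P, by rw [Finset.card_insert_of_notMem hn, h1], fun r hr => ?_⟩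
    rcases Finset.mem_insert.1 hr with rfl | hr
    · exact ⟨hp, by omega, by omega⟩
    · obtain ⟨a, b, c⟩ := h2 r hr
      exact ⟨a, b, by omega⟩

/-- the hypothesis of the pigeonhole step -/
lemma cond {T m Kp d Y : ℕ} {M : ℝ} (hK : Kp = 2 * T + 2 * T ^ 2 * m + 1) (hd : 0 < d)
    (hdY : d ≤ Y ^ m) (hY : 3 * (6 * Kp ^ T) ^ (2 * T) < Y) (hM : 1 ≤ M)
    (h3 : M ^ (2 * Kp * T) < 3) :
    (6 * ((Kp * d : ℕ) : ℝ) ^ T * Y) ^ (2 * d * T) * M ^ (2 * (Kp * d) * T) < (Y : ℝ) ^ (Kp * d) := by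
  have e1 : (6 * ((Kp * d : ℕ) : ℝ) ^ T * Y) ^ (2 * d * T) * M ^ (2 * (Kp * d) * T) =
      ((6 * ((Kp * d : ℕ) : ℝ) ^ T * Y) ^ (2 * T) * M ^ (2 * Kp * T)) ^ d := by
    rw [mul_pow _ _ d, ← pow_mul, ← pow_mul]
    congr 2 <;> ring
  rw [e1, pow_mul (Y : ℝ) Kp d]
  refine pow_lt_pow_left₀ ?_ (by positivity) hd.ne'
  have hY0 : 0 < Y := by omega
  have a1 : (6 * (Kp * d) ^ T * Y) ^ (2 * T) * 3 ≤ Y ^ Kp := by
    calc (6 * (Kp * d) ^ T * Y) ^ (2 * T) * 3 ≤ (6 * (Kp * Y ^ m) ^ T * Y) ^ (2 * T) * 3 := by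
          gcongr
      _ = (3 * (6 * Kp ^ T) ^ (2 * T)) * Y ^ (2 * T + 2 * T ^ 2 * m) := by
          rw [mul_pow Kp, ← mul_assoc 6, mul_pow, mul_pow _ ((Y ^ m) ^ T), ← pow_mul, ← pow_mul,
            pow_add]
          have : m * (T * (2 * T)) = 2 * T ^ 2 * m := by ring
          rw [this]
          ring
      _ ≤ Y * Y ^ (2 * T + 2 * T ^ 2 * m) := Nat.mul_le_mul_right _ hY.le
      _ = Y ^ Kp := by rw [hK, pow_succ' Y]
  have a2 : (6 * ((Kp * d : ℕ) : ℝ) ^ T * Y) ^ (2 * T) * 3 ≤ (Y : ℝ) ^ Kp := by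
    exact_mod_cast a1
  have hK0 : 0 < Kp := by omega
  refine lt_of_lt_of_le (mul_lt_mul_of_pos_left h3 ?_) a2
  positivity

/-- the integral case -/
lemma intCase (h2 : S_Dob2) (h3 : S_Dob3) (h4 : S_Dob4) (h5 : S_Dob5) (m : ℕ) :
    ∃ Y0 C : ℕ, ∀ (K : Type) [Field K] [NumberField K] (β : K), IsIntegral ℤ β → β ≠ 0 →
      (¬ ∃ m, 0 < m ∧ β ^ m = 1) → (minpoly ℚ β).natDegree = Module.finrank ℚ K →
      ∀ Y : ℕ, Y0 ≤ Y → Module.finrank ℚ K ≤ Y ^ m → 2 ≤ Mm β ^ (C * Y) := by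
  obtain ⟨T, hT⟩ : ∃ T, T = m + 2 := ⟨_, rfl⟩
  obtain ⟨Kp, hK⟩ : ∃ Kp, Kp = 2 * T + 2 * T ^ 2 * m + 1 := ⟨_, rfl⟩
  refine ⟨3 * (6 * Kp ^ T) ^ (2 * T) + 1 + 2 * Kp, 2 * Kp * T + Kp * 2 ^ (Kp + 2 * m), ?_⟩
  intro K _ _ β hi h0 ht hdeg Y hY hdY
  have hM := one_le_Mm β
  have hd : 0 < Module.finrank ℚ K := Module.finrank_pos
  have hK0 : 0 < Kp := by omega
  have hY2 : 2 ≤ Y := by omega
  set d := Module.finrank ℚ K with hdd
  by_cases hc : 3 ≤ Mm β ^ (2 * Kp * T)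
  · refine le_trans (by linarith) (pow_le_pow_right₀ hM (?_ : 2 * Kp * T ≤ _))
    nlinarith [Nat.zero_le (Kp * 2 ^ (Kp + 2 * m) * Y), Nat.zero_le (2 * Kp * T)]
  obtain ⟨H, rfl⟩ : ∃ H, Y = H + 1 := ⟨Y - 1, by omega⟩
  have hcond := cond hK hd hdY (by omega) hM (not_le.1 hc)
  obtain ⟨A, hA0, hA1, hA2, hA3⟩ := h2 K β hi T (Kp * d) H (by positivity) (by
    push_cast at hcond ⊢
    exact hcond)
  obtain ⟨P, hP1, hP2⟩ := primes (H + 1) (Kp + 2 * m) (by omega)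
  classical
  have hbad : (P.filter fun p => ¬ (minpoly ℚ (β ^ p)).natDegree = d).card ≤ 2 * m := by
    have := h4 K β hdeg (P.filter fun p => ¬ (minpoly ℚ (β ^ p)).natDegree = d) (H + 1)
      (fun p hp => by
        obtain ⟨a, b⟩ := Finset.mem_filter.1 hp
        exact ⟨(hP2 p a).1, (hP2 p a).2.1, b⟩)
    have a1 : d ^ 2 ≤ (H + 1) ^ (2 * m) := by
      rw [mul_comm, pow_mul]
      exact Nat.pow_le_pow_left hdY 2
    exact (Nat.pow_le_pow_iff_right (by omega)).1 (this.trans a1)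
  have hgood : Kp ≤ (P.filter fun p => (minpoly ℚ (β ^ p)).natDegree = d).card := by
    have := Finset.card_filter_add_card_filter_not (s := P)
      (fun p => (minpoly ℚ (β ^ p)).natDegree = d)
    omega
  obtain ⟨p, hp, hne⟩ : ∃ p ∈ P, aeval (β ^ p) A ≠ 0 := by
    by_contra hall
    push Not at hall
    have := h5 K β hi h0 ht (P.filter fun p => (minpoly ℚ (β ^ p)).natDegree = d) A hA0
      (fun p hp => by
        obtain ⟨a, b⟩ := Finset.mem_filter.1 hp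
        exact ⟨b, hall p a⟩)
    have a1 : Kp * d ≤ (P.filter fun p => (minpoly ℚ (β ^ p)).natDegree = d).card * d :=
      Nat.mul_le_mul_right _ hgood
    rw [← hdd] at this
    omega
  obtain ⟨p1, p2, p3⟩ := hP2 p hp
  have b1 := h3 K β hi p p1 T (Kp * d) H A hA1 hA2 hA3 hne
  have e1 : (((Kp * d : ℕ) : ℝ) * H) ^ d * Mm β ^ (p * (Kp * d)) =
      ((((Kp * d : ℕ) : ℝ) * H) * Mm β ^ (p * Kp)) ^ d := by
    rw [mul_pow _ (Mm β ^ (p * Kp)), ← pow_mul, mul_assoc p]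
  rw [← hdd, e1, pow_mul] at b1
  have b2 := (pow_le_pow_iff_left₀ (by positivity) (by positivity) hd.ne').1 b1
  have b3 : 2 * (Kp * d * H) ≤ p ^ T := by
    calc 2 * (Kp * d * H) ≤ 2 * (Kp * (H + 1) ^ m * (H + 1)) := by gcongr; omega
      _ = (2 * Kp) * (H + 1) ^ (m + 1) := by ring
      _ ≤ (H + 1) * (H + 1) ^ (m + 1) := Nat.mul_le_mul_right _ (by omega)
      _ = (H + 1) ^ T := by rw [hT]; ring
      _ ≤ p ^ T := Nat.pow_le_pow_left p2.le _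
  have b4 : 2 * (((Kp * d : ℕ) : ℝ) * H) ≤ (p : ℝ) ^ T := by exact_mod_cast b3
  have b5 : (0 : ℝ) < ((Kp * d : ℕ) : ℝ) * H := by
    have : 0 < Kp * d * H := Nat.mul_pos (Nat.mul_pos hK0 hd) (by omega)
    exact_mod_cast this
  have b6 : 2 ≤ Mm β ^ (p * Kp) := by
    have := b4.trans b2
    rw [mul_comm] at this
    exact le_of_mul_le_mul_left this b5
  refine b6.trans (pow_le_pow_right₀ hM ?_)
  calc p * Kp ≤ 2 ^ (Kp + 2 * m) * (H + 1) * Kp := Nat.mul_le_mul_right _ p3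
    _ = (Kp * 2 ^ (Kp + 2 * m)) * (H + 1) := by ring
    _ ≤ _ := Nat.mul_le_mul_right _ (by omega)

end DobA

open DobA

theorem dob (h1 : S_Dob1) (h2 : S_Dob2) (h3 : S_Dob3) (h4 : S_Dob4) (h5 : S_Dob5) : S_Dob := by
  intro η hη
  obtain ⟨m, hm⟩ := exists_nat_gt (1 / η)
  have hm0 : (0 : ℝ) < m := lt_trans (by positivity) hm
  have hm1 : (m : ℝ)⁻¹ ≤ η := by
    rw [inv_le_comm₀ hm0 hη, ← one_div]
    exact hm.le
  have hm2 : m ≠ 0 := by rintro rfl; simp at hm0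
  obtain ⟨Y0, C, hC⟩ := intCase h2 h3 h4 h5 m
  have l2 : 0 < Real.log 2 := Real.log_pos (by norm_num)
  refine ⟨Real.log 2 / (C * (Y0 + 2) + 1), by positivity, fun K _ _ β h0 ht hdeg => ?_⟩
  have hd : (1 : ℝ) ≤ Module.finrank ℚ K := by
    exact_mod_cast (Module.finrank_pos : 0 < Module.finrank ℚ K)
  set d : ℝ := ((Module.finrank ℚ K : ℕ) : ℝ) with hdd
  have e1 : 1 ≤ d ^ η := Real.one_le_rpow hd hη.le
  have hM := one_le_Mm β
  have hL : 0 ≤ Real.log (Height.mulHeight₁ β) := Real.log_nonneg (hM.trans (h1 K β).1)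
  have hCY : (0 : ℝ) ≤ C * (Y0 + 2) := by positivity
  rw [div_le_iff₀ (by positivity)]
  have hX : 0 ≤ d ^ η * Real.log (Height.mulHeight₁ β) := by positivity
  by_cases hi : IsIntegral ℤ β
  · have a0 : 0 ≤ d ^ (m : ℝ)⁻¹ := by positivity
    have a1 : d ^ (m : ℝ)⁻¹ ≤ d ^ η := Real.rpow_le_rpow_of_exponent_le hd hm1
    have a2 := Nat.le_ceil (d ^ (m : ℝ)⁻¹)
    have a3 := Nat.ceil_lt_add_one a0
    set Z := ⌈d ^ (m : ℝ)⁻¹⌉₊ with hZ
    have a4 : Module.finrank ℚ K ≤ (Y0 + Z) ^ m := by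
      have : d ≤ ((Y0 + Z : ℕ) : ℝ) ^ m := by
        rw [← Real.rpow_inv_natCast_pow (by linarith : 0 ≤ d) hm2]
        refine pow_le_pow_left₀ a0 (a2.trans ?_) m
        push_cast
        linarith [(Nat.cast_nonneg Y0 : (0 : ℝ) ≤ Y0)]
      rw [hdd] at this
      exact_mod_cast this
    have a5 := hC K β hi h0 ht hdeg (Y0 + Z) (by omega) a4
    have a6 := Real.log_le_log (by norm_num) a5
    rw [Real.log_pow] at a6
    have a7 : Real.log (Mm β) ≤ Real.log (Height.mulHeight₁ β) :=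
      Real.log_le_log (by linarith) (h1 K β).1
    have a8 : ((C * (Y0 + Z) : ℕ) : ℝ) ≤ C * (Y0 + 2) * d ^ η := by
      push_cast
      rw [mul_assoc]
      refine mul_le_mul_of_nonneg_left ?_ (Nat.cast_nonneg C)
      nlinarith [(Nat.cast_nonneg Y0 : (0 : ℝ) ≤ Y0)]
    have a9 : ((C * (Y0 + Z) : ℕ) : ℝ) * Real.log (Mm β) ≤
        C * (Y0 + 2) * d ^ η * Real.log (Height.mulHeight₁ β) :=
      mul_le_mul a8 a7 (Real.log_nonneg hM) (by positivity)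
    nlinarith
  · have a1 := Real.log_le_log (by norm_num) ((h1 K β).2 hi)
    have a2 : Real.log (Height.mulHeight₁ β) ≤ d ^ η * Real.log (Height.mulHeight₁ β) :=
      le_mul_of_one_le_left hL e1
    nlinarith [mul_nonneg hX hCY]

end Pool.Agent.P.MP_aef18a_nt
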