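import Pool.Agent.P.MP_aef18a_nt.Ad.Basic

namespace Pool.Agent.P.MP_aef18a_nt

open NumberField

namespace Dob1A

lemma Mm_eq {K : Type} [Field K] [NumberField K] (β : K) :
    Mm β = ∏ w : InfinitePlace K, max (w β) 1 ^ w.mult := by
  classical
  unfold Mm
  rw [← Finset.prod_fiberwise Finset.univ InfinitePlace.mk (fun φ : K →+* ℂ => max ‖φ β‖ 1)]
  have (w : InfinitePlace K) (φ : K →+* ℂ)
      (hφ : φ ∈ ({φ | InfinitePlace.mk φ = w} : Finset _)) :
      max ‖φ β‖ 1 = max (w β) 1 := by
    rw [← (Finset.mem_filter.mp hφ).2, InfinitePlace.apply]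
  simp_rw [Finset.prod_congr rfl (this _), Finset.prod_const, InfinitePlace.card_filter_mk_eq]

end Dob1A

theorem dob1 : S_Dob1 := by
  intro K _ _ β
  refine ⟨?_, fun h => ?_⟩
  · rw [Dob1A.Mm_eq, NumberField.mulHeight₁_eq]
    refine le_mul_of_one_le_right (Finset.prod_nonneg fun w _ => by positivity) ?_
    exact finprod_induction (fun x : ℝ => 1 ≤ x) le_rfl (fun _ _ ha hb => one_le_mul_of_one_le_of_one_le ha hb)
      fun v => le_max_right _ _
  · obtain ⟨n, hn, hle, hint⟩ := NumberField.exists_nat_le_mulHeight₁ β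
    have h1 : n ≠ 1 := by
      rintro rfl
      exact h (by simpa using hint)
    have h2 : (2 : ℝ) ≤ n := by
      have : 2 ≤ n := by omega
      exact_mod_cast this
    exact h2.trans hle

end Pool.Agent.P.MP_aef18a_nt
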