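import Pool.Agent.P.MP_aef18a_nt.Ad.Basic

/-! The auxiliary polynomial of Dobrowolski's argument, by the box principle. -/

namespace Pool.Agent.P.MP_aef18a_nt

open Polynomial

namespace Dob2A

/-- the polynomial with coefficient vector `x` -/
noncomputable def pl {n : ℕ} (x : Fin n → ℤ) : ℤ[X] := ∑ i : Fin n, monomial (i : ℕ) (x i)

lemma pl_coeff {n : ℕ} (x : Fin n → ℤ) (i : Fin n) : (pl x).coeff i = x i := by
  rw [pl, finsetSum_coeff, Finset.sum_eq_single i]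
  · simp
  · intro j _ hj
    rw [coeff_monomial, if_neg fun e => hj (Fin.ext e)]
  · simp

lemma pl_coeff_ge {n : ℕ} (x : Fin n → ℤ) {i : ℕ} (h : n ≤ i) : (pl x).coeff i = 0 := by
  rw [pl, finsetSum_coeff]
  refine Finset.sum_eq_zero fun j _ => ?_
  rw [coeff_monomial, if_neg]
  have := j.2
  omega

lemma pl_sub {n : ℕ} (x y : Fin n → ℤ) : pl (x - y) = pl x - pl y := by
  simp [pl, Finset.sum_sub_distrib]

lemma norm_le {n : ℕ} (hn : 0 < n) (x : Fin n → ℤ) {H : ℕ} (hx : ∀ i, |x i| ≤ H) (z : ℂ)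
    {j T : ℕ} (hj : j < T) :
    ‖aeval z (hasseDeriv j (pl x))‖ ≤ (n : ℝ) ^ T * H * max ‖z‖ 1 ^ n := by
  have hM : (1 : ℝ) ≤ max ‖z‖ 1 := le_max_right _ _
  have hn' : (1 : ℝ) ≤ n := by exact_mod_cast hn
  rw [pl, map_sum, map_sum]
  refine (norm_sum_le _ _).trans ?_
  have h1 : ∀ i : Fin n, ‖aeval z (hasseDeriv j (monomial (i : ℕ) (x i)))‖ ≤
      (n : ℝ) ^ j * H * max ‖z‖ 1 ^ n := by
    intro i
    rw [hasseDeriv_monomial, aeval_monomial, norm_mul, norm_pow, map_mul, norm_mul]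
    have e1 : ‖algebraMap ℤ ℂ ((i : ℕ).choose j : ℤ)‖ ≤ (n : ℝ) ^ j := by
      rw [map_natCast, Complex.norm_natCast]
      have := (Nat.choose_le_pow i j).trans (Nat.pow_le_pow_left i.2.le j)
      exact_mod_cast this
    have e2 : ‖algebraMap ℤ ℂ (x i)‖ ≤ H := by
      rw [eq_intCast, Complex.norm_intCast]
      exact_mod_cast hx i
    have e3 : ‖z‖ ^ ((i : ℕ) - j) ≤ max ‖z‖ 1 ^ n :=
      (pow_le_pow_left₀ (norm_nonneg _) (le_max_left _ _) _).trans
        (pow_le_pow_right₀ hM (by have := i.2; omega))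
    gcongr
  refine (Finset.sum_le_sum fun i _ => h1 i).trans ?_
  rw [Finset.sum_const, Finset.card_univ, Fintype.card_fin, nsmul_eq_mul, ← mul_assoc, ← mul_assoc,
    ← pow_succ']
  gcongr
  · exact hj

lemma floor_mem {t R : ℝ} (h : |t| ≤ R) :
    ⌊2 * t⌋ ∈ Finset.Icc (-(⌈2 * R⌉₊ : ℤ)) (⌈2 * R⌉₊ : ℤ) := by
  have h1 := Nat.le_ceil (2 * R)
  rw [abs_le] at h
  rw [Finset.mem_Icc, Int.le_floor]
  constructor
  · push_cast; linarith
  · have := Int.floor_le (2 * t)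
    have h2 : ((⌊2 * t⌋ : ℤ) : ℝ) ≤ ((⌈2 * R⌉₊ : ℤ) : ℝ) := by push_cast; linarith
    exact_mod_cast h2

lemma close {z w : ℂ} (h1 : ⌊2 * z.re⌋ = ⌊2 * w.re⌋) (h2 : ⌊2 * z.im⌋ = ⌊2 * w.im⌋) :
    ‖z - w‖ < 1 := by
  have e1 := Int.abs_sub_lt_one_of_floor_eq_floor h1
  have e2 := Int.abs_sub_lt_one_of_floor_eq_floor h2
  have e3 := Complex.norm_le_abs_re_add_abs_im (z - w)
  rw [← mul_sub, abs_mul, abs_two] at e1 e2
  rw [Complex.sub_re, Complex.sub_im] at e3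
  linarith

variable {K : Type} [Field K] [NumberField K]

lemma pow_dvd {β : K} (hβ : IsIntegral ℤ β) (T : ℕ) : ∀ B : ℤ[X],
    (X - C β) ^ T ∣ B.map (algebraMap ℤ K) → minpoly ℤ β ^ T ∣ B := by
  have hs : ((minpoly ℤ β).map (algebraMap ℤ K)).Separable := by
    rw [IsScalarTower.algebraMap_eq ℤ ℚ K, ← Polynomial.map_map,
      ← minpoly.isIntegrallyClosed_eq_field_fractions' ℚ hβ]
    exact Separable.map (Algebra.IsSeparable.isSeparable ℚ β)
  obtain ⟨m, hm⟩ : X - C β ∣ (minpoly ℤ β).map (algebraMap ℤ K) := by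
    rw [dvd_iff_isRoot, IsRoot, eval_map_algebraMap, minpoly.aeval]
  rw [hm] at hs
  induction T with
  | zero => intro B _; simp
  | succ T ih =>
    intro B hB
    have h0 : aeval β B = 0 := by
      rw [← eval_map_algebraMap]
      exact dvd_iff_isRoot.1 ((dvd_pow_self _ (Nat.succ_ne_zero T)).trans hB)
    obtain ⟨B', rfl⟩ := minpoly.isIntegrallyClosed_dvd hβ h0
    rw [pow_succ']
    refine mul_dvd_mul_left _ (ih B' ?_)
    rw [Polynomial.map_mul, hm, pow_succ', mul_assoc,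
      mul_dvd_mul_iff_left (X_sub_C_ne_zero β)] at hB
    exact (hs.isCoprime.pow_left).dvd_of_dvd_mul_left hB

omit [NumberField K] in
lemma dvd_of_hasse {β : K} {T : ℕ} {A : ℤ[X]} (h : ∀ j < T, aeval β (hasseDeriv j A) = 0) :
    (X - C β) ^ T ∣ A.map (algebraMap ℤ K) := by
  rw [X_sub_C_pow_dvd_iff, X_pow_dvd_iff]
  intro j hj
  rw [← taylor_apply, taylor_coeff, ← h j hj, ← eval_map_algebraMap]
  congr 1
  ext i
  simp [hasseDeriv_coeff]

lemma eq_zero {β : K} (hβ : IsIntegral ℤ β) (B : ℤ[X])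
    (h : ∀ σ : K →+* ℂ, ‖aeval (σ β) B‖ < 1) : aeval β B = 0 := by
  by_contra h0
  have hi : IsIntegral ℤ (aeval β B) :=
    IsIntegral.of_mem_of_fg _ hβ.fg_adjoin_singleton _ (aeval_mem_adjoin_singleton ℤ β)
  obtain ⟨σ, hσ⟩ := NumberField.exists_conjugate_one_le_norm (K := K) (α := ⟨_, hi⟩)
    (by simpa [NumberField.RingOfIntegers.ext_iff] using h0)
  have e : σ (aeval β B) = aeval (σ β) B := (aeval_algHom_apply σ.toIntAlgHom β B).symm
  have := h σ
  rw [← e] at this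
  exact absurd hσ (not_le.2 this)

end Dob2A

open Dob2A in
theorem dob2 : S_Dob2 := by
  classical
  intro K _ _ β hβ T n H hn hlt
  set N : (K →+* ℂ) → ℕ := fun σ => ⌈2 * ((n : ℝ) ^ T * H * max ‖σ β‖ 1 ^ n)⌉₊ with hN
  let S : Finset (Fin n → ℤ) := Fintype.piFinset fun _ => Finset.Icc (0 : ℤ) H
  let U : Finset ((K →+* ℂ) × Fin T → ℤ × ℤ) := Fintype.piFinset fun p =>
    Finset.Icc (-(N p.1 : ℤ)) (N p.1) ×ˢ Finset.Icc (-(N p.1 : ℤ)) (N p.1)
  let f : (Fin n → ℤ) → ((K →+* ℂ) × Fin T → ℤ × ℤ) := fun x p =>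
    (⌊2 * (aeval (p.1 β) (hasseDeriv p.2 (pl x))).re⌋,
      ⌊2 * (aeval (p.1 β) (hasseDeriv p.2 (pl x))).im⌋)
  have hS : ∀ x ∈ S, ∀ i, 0 ≤ x i ∧ x i ≤ H := fun x hx i =>
    Finset.mem_Icc.1 (Fintype.mem_piFinset.1 hx i)
  have hf : Set.MapsTo f S U := by
    intro x hx
    rw [Finset.mem_coe, Fintype.mem_piFinset]
    intro p
    have := norm_le hn x (H := H) (fun i => by rw [abs_of_nonneg (hS x hx i).1]; exact (hS x hx i).2)
      (p.1 β) p.2.2
    exact Finset.mem_product.2 ⟨floor_mem ((Complex.abs_re_le_norm _).trans this),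
      floor_mem ((Complex.abs_im_le_norm _).trans this)⟩
  have hc : U.card < S.card := by
    have e1 : (S.card : ℝ) = ((H : ℝ) + 1) ^ n := by
      simp [S, Fintype.card_piFinset]
    have e2 : (U.card : ℝ) = ∏ σ : K →+* ℂ, ((2 * (N σ : ℝ) + 1) ^ 2) ^ T := by
      have : ∀ m : ℕ, (Finset.Icc (-(m : ℤ)) m).card = 2 * m + 1 := fun m => by
        rw [Int.card_Icc]; omega
      simp only [U, Fintype.card_piFinset, Finset.card_product, this, Fintype.prod_prod_type]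
      push_cast
      simp [pow_two]
    have e3 : ∀ σ : K →+* ℂ, 2 * (N σ : ℝ) + 1 ≤ 6 * (n : ℝ) ^ T * (H + 1) * max ‖σ β‖ 1 ^ n := by
      intro σ
      have a1 : (1 : ℝ) ≤ (n : ℝ) ^ T := one_le_pow₀ (by exact_mod_cast hn)
      have a2 : (1 : ℝ) ≤ max ‖σ β‖ 1 ^ n := one_le_pow₀ (le_max_right _ _)
      have a3 := Nat.ceil_lt_add_one
        (show (0 : ℝ) ≤ 2 * ((n : ℝ) ^ T * H * max ‖σ β‖ 1 ^ n) by positivity)
      have a4 := one_le_mul_of_one_le_of_one_le a1 a2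
      have a5 : (0 : ℝ) ≤ (n : ℝ) ^ T * H * max ‖σ β‖ 1 ^ n := by positivity
      simp only [hN]
      nlinarith
    have e4 : (U.card : ℝ) ≤
        (6 * (n : ℝ) ^ T * (H + 1)) ^ (2 * Module.finrank ℚ K * T) * Mm β ^ (2 * n * T) := by
      rw [e2]
      refine (Finset.prod_le_prod (fun σ _ => by positivity) fun σ _ => pow_le_pow_left₀
        (by positivity) (pow_le_pow_left₀ (by positivity) (e3 σ) 2) T).trans_eq ?_
      simp only [mul_pow _ (max _ _ ^ n), Finset.prod_mul_distrib, Finset.prod_const,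
        Finset.card_univ, NumberField.Embeddings.card, ← pow_mul, Finset.prod_pow, Mm]
      ring
    have := e4.trans_lt hlt
    rw [← e1] at this
    exact_mod_cast this
  obtain ⟨x, hx, y, hy, hxy, e⟩ := Finset.exists_ne_map_eq_of_card_lt_of_maps_to hc hf
  refine ⟨pl (x - y), fun h0 => hxy (funext fun i => ?_), ?_, fun i => ?_, ?_⟩
  · have := pl_coeff (x - y) i
    rw [h0, coeff_zero, Pi.sub_apply] at this
    omega
  · obtain ⟨n, rfl⟩ := Nat.exists_eq_succ_of_ne_zero hn.ne'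
    exact Nat.lt_succ_of_le (natDegree_le_iff_coeff_eq_zero.2 fun i hi => pl_coeff_ge _ hi)
  · rcases lt_or_ge i n with hi | hi
    · have := pl_coeff (x - y) ⟨i, hi⟩
      rw [this, Pi.sub_apply, abs_le]
      have := hS x hx ⟨i, hi⟩
      have := hS y hy ⟨i, hi⟩
      omega
    · rw [pl_coeff_ge _ hi, abs_zero]
      positivity
  · refine pow_dvd hβ T _ (dvd_of_hasse fun j hj => eq_zero hβ _ fun σ => ?_)
    have := congrFun e (σ, ⟨j, hj⟩)
    rw [pl_sub, map_sub, map_sub]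
    exact close (congrArg Prod.fst this) (congrArg Prod.snd this)

end Pool.Agent.P.MP_aef18a_nt
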