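import Pool.Agent.P.MP_aef18a_nt.Ad.Basic

namespace Pool.Agent.P.MP_aef18a_nt

open Polynomial

namespace Dob3A

lemma frob (g : ℤ[X]) {p : ℕ} (hp : p.Prime) : ∃ r : ℤ[X], expand ℤ p g = g ^ p + C (p : ℤ) * r := by
  have : Fact p.Prime := ⟨hp⟩
  have h : (expand ℤ p g - g ^ p).map (Int.castRingHom (ZMod p)) = 0 := by
    rw [Polynomial.map_sub, map_expand, Polynomial.map_pow, ZMod.expand_card, sub_self]
  obtain ⟨r, hr⟩ : C (p : ℤ) ∣ expand ℤ p g - g ^ p := by
    rw [C_dvd_iff_dvd_coeff]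
    intro i
    have := congrArg (fun f => coeff f i) h
    simp only [coeff_map, coeff_zero, eq_intCast] at this
    exact (ZMod.intCast_zmod_eq_zero_iff_dvd _ _).1 this
  exact ⟨r, by rw [← hr]; ring⟩

variable {K : Type} [Field K] [NumberField K]

lemma norm_emb (x : K) : ((|Algebra.norm ℚ x| : ℚ) : ℝ) = ∏ σ : K →+* ℂ, ‖σ x‖ := by
  have h := congrArg (fun z : ℂ => ‖z‖) (Algebra.norm_eq_prod_embeddings ℚ ℂ x)
  simp only [eq_ratCast, norm_prod, Complex.norm_ratCast] at h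
  rw [Rat.cast_abs, h]
  exact (Fintype.prod_equiv (RingHom.equivRatAlgHom K ℂ) _ _ fun σ => rfl).symm

lemma one_le_norm {z : K} (hz : IsIntegral ℤ z) (h0 : z ≠ 0) : 1 ≤ |Algebra.norm ℚ z| := by
  obtain ⟨m, hm⟩ := IsIntegrallyClosed.isIntegral_iff.1 (Algebra.isIntegral_norm (R := ℤ) ℚ hz)
  have h1 : m ≠ 0 := by
    rintro rfl
    exact Algebra.norm_ne_zero_iff.2 h0 (by rw [← hm, map_zero])
  rw [← hm, eq_intCast]
  exact_mod_cast Int.one_le_abs h1

lemma eval_le {n H : ℕ} {A : ℤ[X]} (hn : A.natDegree < n) (hH : ∀ i, |A.coeff i| ≤ H) (w : ℂ) :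
    ‖aeval w A‖ ≤ (n : ℝ) * H * max ‖w‖ 1 ^ n := by
  rw [aeval_eq_sum_range' hn]
  refine (norm_sum_le _ _).trans ?_
  refine (Finset.sum_le_card_nsmul _ _ (H * max ‖w‖ 1 ^ n) fun i hi => ?_).trans ?_
  · rw [zsmul_eq_mul, norm_mul, norm_pow, Complex.norm_intCast]
    refine mul_le_mul (by exact_mod_cast hH i) ?_ (by positivity) (by positivity)
    exact (pow_le_pow_left₀ (norm_nonneg _) (le_max_left _ _) i).trans
      (pow_le_pow_right₀ (le_max_right _ _) (Finset.mem_range.1 hi).le)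
  · rw [Finset.card_range, nsmul_eq_mul, mul_assoc]

end Dob3A

open Dob3A in
theorem dob3 : S_Dob3 := by
  intro K _ _ β hβ p hp T n H A hn hH hdvd hne
  obtain ⟨B, hB⟩ := hdvd
  obtain ⟨r, hr⟩ := frob (minpoly ℤ β) hp
  have e1 : aeval (β ^ p) (minpoly ℤ β) = (p : K) * aeval β r := by
    rw [← expand_aeval, hr, map_add, map_pow, minpoly.aeval, zero_pow hp.ne_zero, zero_add, map_mul,
      aeval_C, eq_intCast, Int.cast_natCast]
  have int : ∀ {x : K}, IsIntegral ℤ x → ∀ f : ℤ[X], IsIntegral ℤ (aeval x f) := fun {x} hx f =>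
    IsIntegral.of_mem_of_fg _ hx.fg_adjoin_singleton _ (aeval_mem_adjoin_singleton ℤ x)
  have e2 : aeval (β ^ p) A =
      algebraMap ℚ K ((p : ℚ) ^ T) * (aeval β r ^ T * aeval (β ^ p) B) := by
    rw [hB, map_mul, map_pow, e1, map_pow, map_natCast]; ring
  have hz := one_le_norm (((int hβ r).pow T).mul (int (hβ.pow p) B))
    (right_ne_zero_of_mul (e2 ▸ hne))
  have e3 : (p : ℚ) ^ (T * Module.finrank ℚ K) ≤ |Algebra.norm ℚ (aeval (β ^ p) A)| := by
    rw [e2, map_mul, Algebra.norm_algebraMap, abs_mul, ← pow_mul, abs_of_nonneg (by positivity)]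
    exact le_mul_of_one_le_right (by positivity) hz
  have e4 : (p : ℝ) ^ (T * Module.finrank ℚ K) ≤ ∏ σ : K →+* ℂ, ‖σ (aeval (β ^ p) A)‖ := by
    rw [← norm_emb]; exact_mod_cast e3
  refine e4.trans ?_
  rw [Mm, ← Finset.prod_pow, ← NumberField.Embeddings.card K ℂ, ← Finset.card_univ,
    ← Finset.prod_const, ← Finset.prod_mul_distrib]
  refine Finset.prod_le_prod (fun _ _ => norm_nonneg _) fun σ _ => ?_
  have e5 : σ (aeval (β ^ p) A) = aeval (σ β ^ p) A := by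
    rw [← map_pow]; exact (aeval_algHom_apply σ.toIntAlgHom _ _).symm
  rw [e5]
  refine (eval_le hn hH _).trans (mul_le_mul_of_nonneg_left ?_ (by positivity))
  rw [pow_mul]
  refine pow_le_pow_left₀ (by positivity) (max_le ?_ (one_le_pow₀ (le_max_right _ _))) n
  rw [norm_pow]
  exact pow_le_pow_left₀ (norm_nonneg _) (le_max_left _ _) p

end Pool.Agent.P.MP_aef18a_nt
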