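import Pool.Agent.P.MP_aef18a_nt.Ad.Basic

namespace Pool.Agent.P.MP_aef18a_nt

open Polynomial IntermediateField

namespace Dob4A

variable {K : Type} [Field K] [NumberField K]

/-- if the degree of `β ^ p` drops, then `p` divides the degree or there is a `p`-th root of unity -/
lemma dich {β : K} (hβ : (minpoly ℚ β).natDegree = Module.finrank ℚ K) {p : ℕ} (hp : p.Prime)
    (h : (minpoly ℚ (β ^ p)).natDegree ≠ Module.finrank ℚ K) :
    p ∣ Module.finrank ℚ K ∨ ∃ ζ : K, IsPrimitiveRoot ζ p := by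
  have htop := (Field.primitive_element_iff_minpoly_natDegree_eq ℚ β).2 hβ
  have hne : ℚ⟮β ^ p⟯ ≠ ⊤ := fun e =>
    h ((Field.primitive_element_iff_minpoly_natDegree_eq ℚ _).1 e)
  set L := ℚ⟮β ^ p⟯ with hL
  have hnot : β ∉ L := fun e => hne (top_le_iff.1 (htop ▸ adjoin_simple_le_iff.2 e))
  let a : L := ⟨β ^ p, mem_adjoin_simple_self ℚ _⟩
  by_cases hi : Irreducible (X ^ p - C a)
  · left
    have h1 : X ^ p - C a = minpoly L β :=
      minpoly.eq_of_irreducible_of_monic hi (by simp [a]) (monic_X_pow_sub_C a hp.ne_zero)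
    have h2 := minpoly.degree_dvd (Algebra.IsIntegral.isIntegral (R := L) β)
    rw [← h1, natDegree_X_pow_sub_C] at h2
    rw [← Module.finrank_mul_finrank ℚ L K]
    exact h2.mul_left _
  · right
    rw [X_pow_sub_C_irreducible_iff_of_prime hp] at hi
    push Not at hi
    obtain ⟨b, hb⟩ := hi
    have h1 : (b : K) ^ p = β ^ p := congrArg Subtype.val hb
    have h0 : β ≠ 0 := fun e => hnot (e ▸ L.zero_mem)
    have hb0 : (b : K) ≠ 0 := fun e => pow_ne_zero p h0 (by rw [← h1, e, zero_pow hp.ne_zero])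
    have : Fact p.Prime := ⟨hp⟩
    refine ⟨β / b, IsPrimitiveRoot.iff_orderOf.2 (orderOf_eq_prime ?_ fun e => hnot ?_)⟩
    · rw [div_pow, h1, div_self (pow_ne_zero p h0)]
    · rw [div_eq_one_iff_eq hb0] at e
      exact e ▸ b.2

omit [NumberField K] in
lemma root_prod (Y : ℕ) (P : Finset ℕ)
    (h : ∀ p ∈ P, p.Prime ∧ Y < p ∧ ∃ ζ : K, IsPrimitiveRoot ζ p) :
    (∃ ζ : K, IsPrimitiveRoot ζ (∏ p ∈ P, p)) ∧ Y ^ P.card ≤ (∏ p ∈ P, p).totient := by
  induction P using Finset.induction_on with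
  | empty => exact ⟨⟨1, by simp⟩, by simp⟩
  | insert p P hp ih =>
    obtain ⟨⟨ζ, h1⟩, h2⟩ := ih fun q hq => h q (Finset.mem_insert_of_mem hq)
    obtain ⟨h3, h4, ξ, h5⟩ := h p (Finset.mem_insert_self _ _)
    have hc : p.Coprime (∏ q ∈ P, q) := Nat.Coprime.prod_right fun q hq =>
      (Nat.coprime_primes h3 (h q (Finset.mem_insert_of_mem hq)).1).2 fun e => hp (e ▸ hq)
    rw [Finset.prod_insert hp, Finset.card_insert_of_notMem hp, Nat.totient_mul hc,
      Nat.totient_prime h3, pow_succ']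
    refine ⟨⟨ξ * ζ, IsPrimitiveRoot.iff_orderOf.2 ?_⟩, Nat.mul_le_mul (by omega) h2⟩
    rw [h5.eq_orderOf, h1.eq_orderOf] at hc ⊢
    exact (Commute.all ξ ζ).orderOf_mul_eq_mul_orderOf_of_coprime hc

end Dob4A

theorem dob4 : S_Dob4 := by
  intro K _ _ β hβ P Y h
  classical
  have hd : 0 < Module.finrank ℚ K := Module.finrank_pos
  rw [← Finset.card_filter_add_card_filter_not (s := P) (· ∣ Module.finrank ℚ K), pow_add, pow_two]
  refine Nat.mul_le_mul ?_ ?_
  · have h1 : ∏ p ∈ P.filter (· ∣ Module.finrank ℚ K), p ∣ Module.finrank ℚ K :=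
      Finset.prod_primes_dvd _ (fun p hp => (h p (Finset.mem_filter.1 hp).1).1.prime)
        fun p hp => (Finset.mem_filter.1 hp).2
    exact (Finset.pow_card_le_prod _ _ _ fun p hp => (h p (Finset.mem_filter.1 hp).1).2.1.le).trans
      (Nat.le_of_dvd hd h1)
  · obtain ⟨⟨ζ, h1⟩, h2⟩ := Dob4A.root_prod (K := K) Y (P.filter fun p => ¬ p ∣ Module.finrank ℚ K)
      fun p hp => by
        obtain ⟨h3, h4⟩ := Finset.mem_filter.1 hp
        exact ⟨(h p h3).1, (h p h3).2.1, (Dob4A.dich hβ (h p h3).1 (h p h3).2.2).resolve_left h4⟩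
    have h3 := h1.lcm_totient_le_finrank (K := ℚ) h1 (cyclotomic.irreducible_rat (by
      rw [Nat.lcm_self]
      exact Finset.prod_pos fun p hp => (h p (Finset.mem_filter.1 hp).1).1.pos))
    rw [Nat.lcm_self] at h3
    exact h2.trans h3

end Pool.Agent.P.MP_aef18a_nt
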