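import Pool.Agent.P.MP_aef18a_nt.Ad.Basic

namespace Pool.Agent.P.MP_aef18a_nt

open AddMonoidAlgebra

namespace ElimA

variable {k : ℕ}

lemma mem_shift (m : Fin k → ℤ) (A : LQ ℚ k) (u : Fin k → ℤ) :
    u ∈ (single m (1 : ℚ) * A : LQ ℚ k).coeff.support ↔ -m + u ∈ A.coeff.support := by
  simp only [Finsupp.mem_support_iff, coeff_single_mul_apply, one_mul]

lemma wd_shift (ω : (Fin k → ℤ) →+ ℝ) (m : Fin k → ℤ) {w : ℝ} {A : LQ ℚ k} (h : Wd ω w A) :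
    Wd ω w (single m (1 : ℚ) * A : LQ ℚ k) := by
  intro u hu u' hu'
  have := h _ ((mem_shift m A u).mp hu) _ ((mem_shift m A u').mp hu')
  simp only [map_add, map_neg] at this
  linarith

/-- normalisation by a monomial -/
lemma norm (ρ : (Fin k → ℤ) →+ ℤ) (v : Fin k → ℤ) (hv : ρ v = 1) {A : LQ ℚ k} (hA : A ≠ 0) :
    ∃ (m : Fin k → ℤ) (d : ℕ), Rng ρ d (single m (1 : ℚ) * A : LQ ℚ k) ∧
      (∃ u ∈ (single m (1 : ℚ) * A : LQ ℚ k).coeff.support, ρ u = 0) ∧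
      (∃ u ∈ (single m (1 : ℚ) * A : LQ ℚ k).coeff.support, ρ u = d) ∧
      ∀ δ : ℝ, Wd (fun u => (ρ u : ℝ)) δ A → (d : ℝ) ≤ δ := by
  have hne : A.coeff.support.Nonempty := by
    rw [Finsupp.support_nonempty_iff]
    simpa using hA
  obtain ⟨u1, hu1, hmax⟩ := Finset.exists_max_image _ ρ hne
  obtain ⟨u0, hu0, hmin⟩ := Finset.exists_min_image _ ρ hne
  have h01 : 0 ≤ ρ u1 - ρ u0 := sub_nonneg.mpr (hmax u0 hu0)
  have hm : ρ (-(ρ u0 • v)) = -ρ u0 := by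
    rw [map_neg, map_zsmul, hv, smul_eq_mul, mul_one]
  refine ⟨-(ρ u0 • v), (ρ u1 - ρ u0).toNat, ?_, ?_, ?_, ?_⟩
  · intro u hu
    rw [mem_shift] at hu
    have a1 := hmax _ hu
    have a2 := hmin _ hu
    rw [map_add, map_neg, hm] at a1 a2
    rw [Int.toNat_of_nonneg h01]
    constructor <;> linarith
  · refine ⟨-(ρ u0 • v) + u0, ?_, ?_⟩
    · rw [mem_shift]; simpa using hu0
    · rw [map_add, hm]; ring
  · refine ⟨-(ρ u0 • v) + u1, ?_, ?_⟩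
    · rw [mem_shift]; simpa using hu1
    · rw [map_add, hm, Int.toNat_of_nonneg h01]; ring
  · intro δ h
    have := h u1 hu1 u0 hu0
    have e : (((ρ u1 - ρ u0).toNat : ℤ) : ℝ) = ((ρ u1 - ρ u0 : ℤ) : ℝ) := by
      rw [Int.toNat_of_nonneg h01]
    push_cast at e
    linarith

lemma tops (ω : (Fin k → ℤ) →+ ℝ) {w : ℝ} {A : LQ ℚ k} (hA : A ≠ 0) (h : Wd ω w A) :
    ∃ g g' : ℝ, Bd ω g A ∧ Bd (-ω : (Fin k → ℤ) →+ ℝ) g' A ∧ g + g' ≤ w ∧ 0 ≤ g + g' := by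
  obtain ⟨g, a1, a2⟩ := exists_top ω hA
  obtain ⟨g', b1, b2⟩ := exists_top (-ω : (Fin k → ℤ) →+ ℝ) hA
  obtain ⟨u, hu, rfl⟩ := lev_ne_zero_iff.mp a2
  obtain ⟨u', hu', rfl⟩ := lev_ne_zero_iff.mp b2
  refine ⟨_, _, a1, b1, ?_, ?_⟩
  · have := h u hu u' hu'
    simp only [AddMonoidHom.neg_apply]
    linarith
  · have := a1 u' hu'
    simp only [AddMonoidHom.neg_apply]
    linarith

end ElimA

open ElimA in
theorem elim (h1 : S_Res1) (h2 : S_Res2) : S_Elim := by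
  intro k ρ v hv G A hG hA hrel
  obtain ⟨m, d, r1, r2, r3, r4⟩ := norm ρ v hv hG
  obtain ⟨m', e0, s1, -, -, s4⟩ := norm ρ v hv hA
  have um : IsUnit (single m (1 : ℚ) : LQ ℚ k) := isUnit_single m isUnit_one
  have um' : IsUnit (single m' (1 : ℚ) : LQ ℚ k) := isUnit_single m' isUnit_one
  have hG' : (single m (1 : ℚ) * G : LQ ℚ k) ≠ 0 := mul_ne_zero um.ne_zero hG
  have hA' : (single m' (1 : ℚ) * A : LQ ℚ k) ≠ 0 := mul_ne_zero um'.ne_zero hA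
  have hsub : Ideal.span {single m (1 : ℚ) * G, single m' (1 : ℚ) * A} ≤
      Ideal.span ({G, A} : Set (LQ ℚ k)) := by
    rw [Ideal.span_le]
    intro x hx
    rcases hx with rfl | rfl
    · exact Ideal.mul_mem_left _ _ (Ideal.subset_span (by simp))
    · exact Ideal.mul_mem_left _ _ (Ideal.subset_span (by simp))
  by_cases hd : d = 0
  · subst hd
    refine ⟨_, hG', hsub (Ideal.subset_span (by simp)), ?_, ?_⟩
    · intro u hu
      have := r1 u hu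
      simp only [Nat.cast_zero] at this
      omega
    · intro ω δ e wG wA a1 a2 a3 a4
      refine (wd_shift ω m a3).mono ?_
      have := a1.nonneg hG
      have := a2.nonneg hA
      have := a3.nonneg hG
      have := a4.nonneg hA
      nlinarith [mul_nonneg ‹0 ≤ e› ‹0 ≤ wG›, mul_nonneg ‹0 ≤ δ› ‹0 ≤ wA›]
  · have hrel' : IsRelPrime (single m (1 : ℚ) * G : LQ ℚ k) (single m' (1 : ℚ) * A) := by
      intro x hx hy
      exact hrel ((um.dvd_mul_left).mp hx) ((um'.dvd_mul_left).mp hy)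
    obtain ⟨b1, b2, b3⟩ := h1 ℚ k ρ v hv d e0 _ _ r1 s1
    refine ⟨_, h2 ℚ k ρ v hv d e0 _ _ r1 s1 r2 r3 hrel', hsub (b1 (Or.inl hd)), b2, ?_⟩
    intro ω δ e wG wA a1 a2 a3 a4
    obtain ⟨g, g', c1, c2, c3, c4⟩ := tops ω hG' (wd_shift ω m a3)
    obtain ⟨b, b', d1, d2, d3, d4⟩ := tops ω hA' (wd_shift ω m' a4)
    refine (wd_of_bd ω (b3 ω g b c1 d1) (b3 (-ω) g' b' c2 d2)).mono ?_
    simp only [AddMonoidHom.neg_apply]
    have e1 := r4 δ a1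
    have e2 := s4 e a2
    have e3 : (0 : ℝ) ≤ d := Nat.cast_nonneg _
    have e4 : (0 : ℝ) ≤ e0 := Nat.cast_nonneg _
    have f1 : (e0 : ℝ) * (g + g') ≤ e * wG := mul_le_mul e2 c3 c4 (e4.trans e2)
    have f2 : (d : ℝ) * (b + b') ≤ δ * wA := mul_le_mul e1 d3 d4 (e3.trans e1)
    nlinarith

end Pool.Agent.P.MP_aef18a_nt
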