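import Pool.Agent.P.MP_aef18a_nt.Ad.Basic

/-! The gap principle for minimal vanishing sums of powers. -/

namespace Pool.Agent.P.MP_aef18a_nt

open Height AdmissibleAbsValues

namespace GapA

variable {K : Type} [Field K] [NumberField K] {ι : Type}

lemma one_gap (S : Finset ι) (T : ℕ) (hT : S.card ≤ T) (e c : ι → ℤ) {β : K} (hβ : β ≠ 0)
    (hroot : ∑ u ∈ S, (c u : K) * β ^ e u = 0) (w : ℤ) (g : ℕ)
    (hgap : ∀ u ∈ S, e u ≤ w ∨ w + g ≤ e u) {B : ℝ} (hB0 : 0 ≤ B) (hB : ∀ u ∈ S, |(c u : ℝ)| ≤ B)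
    (hy : ∑ u ∈ S.filter (fun u => e u ≤ w), (c u : K) * β ^ e u ≠ 0) :
    mulHeight₁ β ^ g ≤ (T * B) ^ totalWeight K := by
  classical
  set y : K := ∑ u ∈ S.filter (fun u => e u ≤ w), (c u : K) * β ^ (e u - (w + g)) with hydef
  have hy0 : y ≠ 0 := by
    intro h
    apply hy
    have := congrArg (· * β ^ (w + g)) h
    simp only [hydef, Finset.sum_mul, zero_mul, mul_assoc, ← zpow_add₀ hβ, sub_add_cancel] at this
    exact this
  have hy2 : y = ∑ u ∈ S.filter (fun u => ¬ e u ≤ w), ((-c u : ℤ) : K) * β ^ (e u - (w + g)) := by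
    have := congrArg (· * β ^ (-(w + g))) hroot
    simp only [Finset.sum_mul, zero_mul, mul_assoc, ← zpow_add₀ hβ, ← sub_eq_add_neg] at this
    rw [← Finset.sum_filter_add_sum_filter_not S (fun u => e u ≤ w)] at this
    simp only [Int.cast_neg, neg_mul, Finset.sum_neg_distrib]
    rw [← eq_neg_of_add_eq_zero_left this]
  have big : ∀ v : AbsoluteValue K ℝ, 1 ≤ v β → ∀ u ∈ S.filter (fun u => e u ≤ w),
      v (β ^ (e u - (w + g))) ≤ (v β ^ g)⁻¹ := by
    intro v hv u hu
    rw [map_zpow₀, ← zpow_natCast, ← zpow_neg]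
    have := (Finset.mem_filter.mp hu).2
    exact zpow_le_zpow_right₀ hv (by omega)
  have small : ∀ v : AbsoluteValue K ℝ, v β < 1 → ∀ u ∈ S.filter (fun u => ¬ e u ≤ w),
      v (β ^ (e u - (w + g))) ≤ 1 := by
    intro v hv u hu
    rw [map_zpow₀]
    obtain ⟨h1, h2⟩ := Finset.mem_filter.mp hu
    have := (hgap u h1).resolve_left h2
    exact zpow_le_one₀ (v.pos hβ) hv.le (by omega)
  have H1 : mulHeight₁ β ^ g ≤ (T * B) ^ totalWeight K * mulHeight₁ β ^ 0 := by
    refine pf hy0 hβ g 0 (fun v hv => ?_) (fun v hv => ?_)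
    · rw [pow_zero, mul_one]
      rcases le_or_gt 1 (v β) with h | h
      · have := arch_sum hv _ c _ T ((Finset.card_filter_le _ _).trans hT) hB0 (by positivity)
          (fun u hu => hB u (Finset.mem_filter.mp hu).1) (big v h)
        rw [max_eq_left h]
        rwa [← div_eq_mul_inv, le_div_iff₀ (by positivity)] at this
      · have := arch_sum hv _ (fun u => -c u) _ T ((Finset.card_filter_le _ _).trans hT)
          hB0 zero_le_one
          (fun u hu => by simpa using hB u (Finset.mem_filter.mp hu).1) (small v h)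
        rw [← hy2, mul_one] at this
        rwa [max_eq_right h.le, one_pow, mul_one]
    · rw [pow_zero]
      have hna := isNonarchimedean v hv
      rcases le_or_gt 1 (v β) with h | h
      · have := nonarch_sum hna _ c _ (by positivity) (big v h)
        rw [max_eq_left h]
        rwa [inv_eq_one_div, le_div_iff₀ (by positivity)] at this
      · have := nonarch_sum hna _ (fun u => -c u) _ zero_le_one (small v h)
        rw [← hy2] at this
        rwa [max_eq_right h.le, one_pow, mul_one]
  rwa [pow_zero, mul_one] at H1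

end GapA

theorem gap : S_Gap := by
  classical
  intro K _ _ β hβ ι I c e s B hs hB hc hroot hsub i hi i' hi'
  have hs1 : 1 ≤ s := (Finset.card_pos.2 ⟨i, hi⟩).trans_le hs
  rcases le_or_gt (e i) (e i') with h | h
  · rw [Int.toNat_eq_zero.2 (by omega), pow_zero]
    refine one_le_pow₀ (one_le_pow₀ (one_le_mul_of_one_le_of_one_le ?_ ?_)) <;> assumption_mod_cast
  obtain ⟨n, rfl⟩ : ∃ n, s = n + 1 := ⟨s - 1, by omega⟩
  have hcard : ((I.image e).filter (fun v => e i' < v ∧ v < e i)).card ≤ n := by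
    have h1 : (I.image e).filter (fun v => e i' < v ∧ v < e i) ⊆ (I.image e).erase (e i) :=
      fun v hv => Finset.mem_erase.2
        ⟨(Finset.mem_filter.1 hv).2.2.ne, (Finset.mem_filter.1 hv).1⟩
    have h2 := Finset.card_le_card h1
    rw [Finset.card_erase_of_mem (Finset.mem_image_of_mem e hi)] at h2
    have := Finset.card_image_le (s := I) (f := e)
    omega
  obtain ⟨w, g, h1, h2, h3, h4⟩ := exists_gap (I.image e) (e i') n (e i) h.le hcard
  have hg : 0 < g := by
    rcases Nat.eq_zero_or_pos g with rfl | hg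
    · simp at h4; omega
    · exact hg
  have key := GapA.one_gap I (n + 1) hs e c hβ hroot w g
    (fun u hu => h3 _ (Finset.mem_image_of_mem e hu)) (B := B) (by positivity)
    (fun u hu => by exact_mod_cast hc u hu) (hsub w ⟨i', hi', h1⟩ ⟨i, hi, by omega⟩)
  have h5 : (e i - e i').toNat ≤ g * (n + 1) := by
    rw [Int.toNat_le]
    exact_mod_cast h4
  refine (pow_le_pow_right₀ (one_le_mulHeight₁ β) h5).trans ?_
  rw [pow_mul, ← pow_mul _ (n + 1), mul_comm (n + 1), pow_mul]
  exact pow_le_pow_left₀ (by positivity) key _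

end Pool.Agent.P.MP_aef18a_nt
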