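import Pool.Agent.P.MP_aef18a_nt.Ad.Basic

namespace Pool.Agent.P.MP_aef18a_nt

open AddMonoidAlgebra

namespace GeoA

/-- extension of scalars to the complex numbers -/
noncomputable abbrev toC : LQ ℚ 2 →+* LQ ℂ 2 := mapRingHom (Fin 2 → ℤ) (algebraMap ℚ ℂ)

lemma evc_toC (a : Fin 2 → ℤ) (α : ℂˣ) (G : LQ ℚ 2) : evc a α (toC G) = evc a α G := by
  induction G using AddMonoidAlgebra.induction_linear with
  | zero => simp
  | add x y hx hy => rw [map_add, map_add, map_add, hx, hy]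
  | single u r => rw [mapRingHom_single, evc_single, evc_single]; simp

lemma support_toC (G : LQ ℚ 2) : (toC G).coeff.support = G.coeff.support := by
  ext u
  simp [Finsupp.mem_support_iff, coeff_mapRingHom]

lemma toC_ne_zero {G : LQ ℚ 2} (hG : G ≠ 0) : toC G ≠ 0 := by
  intro h
  have := support_toC G
  rw [h] at this
  apply hG
  ext u
  have hu : u ∉ G.coeff.support := by rw [← this]; simp
  simpa using Finsupp.notMem_support_iff.mp hu

lemma exists_prime (hu : S_UFD) (α : ℂˣ) (a : Fin 2 → ℤ) (A : LQ ℂ 2) (hA : A ≠ 0)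
    (h : evc a α A = 0) : ∃ P : LQ ℂ 2, Prime P ∧ P ∣ A ∧ evc a α P = 0 := by
  haveI := hu ℂ 2
  induction A using UniqueFactorizationMonoid.induction_on_prime with
  | h₁ => exact absurd rfl hA
  | h₂ x hx => exact absurd h (hx.map (evc a α)).ne_zero
  | h₃ x p hx hp ih =>
    rw [map_mul, mul_eq_zero] at h
    rcases h with h | h
    · exact ⟨p, hp, dvd_mul_right _ _, h⟩
    · obtain ⟨P, h1, h2, h3⟩ := ih hx h
      exact ⟨P, h1, h2.mul_left _, h3⟩

lemma evc_sum {ι : Type} (α : ℂˣ) (J : Finset ι) (c : ι → ℚ) (m : ι → Fin 2 → ℤ) :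
    evc ![1, 0] α (∑ i ∈ J, (single (m i) ((c i : ℚ) : ℂ) : LQ ℂ 2)) =
      ∑ i ∈ J, (c i : ℂ) * (α : ℂ) ^ (m i 0) := by
  rw [map_sum]
  refine Finset.sum_congr rfl fun i _ => ?_
  rw [evc_single]
  simp [dotProduct, Fin.sum_univ_two]

lemma toC_sum {ι : Type} (J : Finset ι) (c : ι → ℚ) (m : ι → Fin 2 → ℤ) :
    toC (∑ i ∈ J, single (m i) (c i)) = ∑ i ∈ J, (single (m i) ((c i : ℚ) : ℂ) : LQ ℂ 2) := by
  rw [map_sum]
  refine Finset.sum_congr rfl fun i _ => ?_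
  rw [mapRingHom_single]
  simp

lemma lev_mul_const (ω : (Fin 2 → ℤ) →+ ℝ) {g : ℝ} {P : LQ ℂ 2}
    (hP : ∀ u ∈ P.coeff.support, ω u = g) (Z : LQ ℂ 2) (t : ℝ) :
    lev ω t (P * Z) = P * lev ω (t - g) Z := by
  classical
  ext x
  rw [lev_coeff, coeff_mul_of_subset P Z _ subset_rfl, coeff_mul_of_subset P _ _ subset_rfl]
  split_ifs with hx
  · refine Finset.sum_congr rfl fun h hh => ?_
    rw [lev_coeff, if_pos]
    rw [map_add, map_neg, hP h hh, hx]
    ring
  · symm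
    refine Finset.sum_eq_zero fun h hh => ?_
    rw [lev_coeff, if_neg, mul_zero]
    rw [map_add, map_neg, hP h hh]
    intro e
    apply hx
    linarith

open Classical in
lemma lev_sum {ι : Type} (ω : (Fin 2 → ℤ) → ℝ) (t : ℝ) (I : Finset ι) (c : ι → ℂ)
    (m : ι → Fin 2 → ℤ) :
    lev ω t (∑ i ∈ I, (single (m i) (c i) : LQ ℂ 2)) =
      ∑ i ∈ I.filter (fun i => ω (m i) = t), single (m i) (c i) := by
  ext x
  rw [lev_coeff, Finset.sum_filter]
  simp only [coeff_sum, Finsupp.finsetSum_apply]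
  split_ifs with hx
  · refine Finset.sum_congr rfl fun i _ => ?_
    split_ifs with hi
    · rfl
    · have : m i ≠ x := fun e => hi (e ▸ hx)
      simp [coeff_single, Finsupp.single_apply, this]
  · symm
    refine Finset.sum_eq_zero fun i _ => ?_
    split_ifs with hi
    · have : m i ≠ x := fun e => hx (e ▸ hi)
      simp [coeff_single, Finsupp.single_apply, this]
    · simp

/-- the functional vanishing on `μ` -/
noncomputable def perp (μ : Fin 2 → ℤ) : (Fin 2 → ℤ) →+ ℝ :=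
  AddMonoidHom.mk' (fun u => ((μ 0 * u 1 - μ 1 * u 0 : ℤ) : ℝ)) fun u v => by
    simp only [Pi.add_apply]
    push_cast
    ring

lemma perp_eq_iff (μ u u' : Fin 2 → ℤ) :
    perp μ u = perp μ u' ↔ μ 0 * (u 1 - u' 1) = μ 1 * (u 0 - u' 0) := by
  change ((μ 0 * u 1 - μ 1 * u 0 : ℤ) : ℝ) = ((μ 0 * u' 1 - μ 1 * u' 0 : ℤ) : ℝ) ↔ _
  rw [Int.cast_inj]
  constructor <;> intro h <;> linarith

end GeoA

open GeoA in
theorem geoS (hu : S_UFD) (hm : S_M2) : S_Geo := by
  classical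
  intro s
  obtain ⟨C, hC⟩ := hm s 0
  refine ⟨C, fun α G hG hev => ?_⟩
  obtain ⟨P, hP, hPd, hP0⟩ := exists_prime hu α ![1, 0] (toC G) (toC_ne_zero hG)
    (by rw [evc_toC, hev])
  have hdiv : ∀ (ι : Type) (I : Finset ι) (c : ι → ℚ) (m : ι → Fin 2 → ℤ),
      G ∣ ∑ i ∈ I, single (m i) (c i) →
      P ∣ ∑ i ∈ I, (single (m i) ((c i : ℚ) : ℂ) : LQ ℂ 2) := by
    intro ι I c m h
    rw [← toC_sum]
    exact hPd.trans (map_dvd toC h)
  have hsub : ∀ (ι : Type) (I : Finset ι) (c : ι → ℚ) (m : ι → Fin 2 → ℤ),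
      MinVan α I c (fun i => m i 0) → ∀ J ⊆ I, J.Nonempty → J ≠ I →
      ¬ P ∣ ∑ i ∈ J, (single (m i) ((c i : ℚ) : ℂ) : LQ ℂ 2) := by
    intro ι I c m hmin J hJ hne hJI hd
    apply hmin.2 J hJ hne hJI
    rw [← evc_sum]
    obtain ⟨Z, hZ⟩ := hd
    rw [hZ, map_mul, hP0, zero_mul]
  by_cases hns : NonSeg P
  · left
    intro W hW ι I c m hI hd hmin
    have hW' : Wd x0 W (toC G) := by
      intro u hu u' hu'
      rw [support_toC] at hu hu'
      exact hW u hu u' hu'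
    have hWP : Wd x0 W P := Wd.of_dvd x0h hW' (toC_ne_zero hG) hPd
    have e : ∀ J : Finset ι, ∑ i ∈ J, (single 0 ((c i : ℚ) : ℂ) : LQ ℂ 2) * single (m i) 1 =
        ∑ i ∈ J, (single (m i) ((c i : ℚ) : ℂ) : LQ ℂ 2) := by
      intro J
      refine Finset.sum_congr rfl fun i _ => ?_
      rw [single_mul_single, zero_add, mul_one]
    refine hC P hP hns W hWP ι I (fun i => single 0 ((c i : ℚ) : ℂ)) m hI
      (fun i _ => cl_const P _) ?_ ?_
    · rw [e]; exact hdiv ι I c m hd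
    · intro J hJ hne hJI
      rw [e]; exact hsub ι I c m hmin J hJ hne hJI
  · right
    unfold NonSeg at hns
    push Not at hns
    obtain ⟨μ, hμ, hseg⟩ := hns
    refine ⟨μ, hμ, fun ι I c m hd hmin i hi i' hi' => ?_⟩
    obtain ⟨g, -, hg⟩ := exists_top (perp μ) hP.ne_zero
    obtain ⟨u₀, hu₀, -⟩ := lev_ne_zero_iff.mp hg
    have hconst : ∀ u ∈ P.coeff.support, perp μ u = perp μ u₀ := fun u hu =>
      (perp_eq_iff μ u u₀).mpr (hseg u hu u₀ hu₀)
    obtain ⟨Z, hZ⟩ := hdiv ι I c m hd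
    have hJ : P ∣ ∑ j ∈ I.filter (fun j => perp μ (m j) = perp μ (m i')),
        (single (m j) ((c j : ℚ) : ℂ) : LQ ℂ 2) := by
      rw [← lev_sum (perp μ) _ I (fun j => ((c j : ℚ) : ℂ)) m, hZ, lev_mul_const _ hconst]
      exact dvd_mul_right _ _
    have hJI : I.filter (fun j => perp μ (m j) = perp μ (m i')) = I := by
      by_contra hne
      refine hsub ι I c m hmin _ (Finset.filter_subset _ _) ?_ hne hJ
      exact ⟨i', Finset.mem_filter.mpr ⟨hi', rfl⟩⟩
    rw [← hJI] at hi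
    exact (perp_eq_iff μ _ _).mp (Finset.mem_filter.mp hi).2

end Pool.Agent.P.MP_aef18a_nt
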