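import Pool.Agent.P.MP_aef18a_nt.Ad.Basic

namespace Pool.Agent.P.MP_aef18a_nt

open AddMonoidAlgebra

namespace M2A

/-- a zero-sum family whose minimal zero-sum subfamilies respect `p` has zero sum over `p` -/
lemma split {R ι : Type} [CommRing R] (G : R) (g : ι → R) (p : ι → Prop) [DecidablePred p] :
    ∀ I : Finset ι, G ∣ ∑ i ∈ I, g i →
      (∀ J ⊆ I, J.Nonempty → G ∣ ∑ i ∈ J, g i →
        (∀ J' ⊆ J, J'.Nonempty → J' ≠ J → ¬ G ∣ ∑ i ∈ J', g i) →
        (∀ i ∈ J, p i) ∨ (∀ i ∈ J, ¬ p i)) →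
      G ∣ ∑ i ∈ I.filter p, g i := by
  classical
  intro I
  induction I using Finset.strongInduction with
  | H I ih =>
    intro hI hmin
    rcases I.eq_empty_or_nonempty with rfl | hne
    · simp
    obtain ⟨J, ⟨hJI, hJne, hJd⟩, hJm⟩ := (wellFounded_lt (α := Finset ι)).has_min
      {J | J ⊆ I ∧ J.Nonempty ∧ G ∣ ∑ i ∈ J, g i} ⟨I, subset_rfl, hne, hI⟩
    have hm : ∀ J' ⊆ J, J'.Nonempty → J' ≠ J → ¬ G ∣ ∑ i ∈ J', g i := by
      intro J' h1 h2 h3 h4
      exact hJm J' ⟨h1.trans hJI, h2, h4⟩ (Finset.ssubset_iff_subset_ne.mpr ⟨h1, h3⟩)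
    have hsd : G ∣ ∑ i ∈ I \ J, g i := by
      rw [Finset.sum_sdiff_eq_sub hJI]
      exact dvd_sub hI hJd
    have hrec := ih (I \ J) (Finset.sdiff_ssubset hJI hJne) hsd
      (fun J' h1 => hmin J' (h1.trans Finset.sdiff_subset))
    rcases hmin J hJI hJne hJd hm with hp | hp
    · have hsub : J ⊆ I.filter p := fun i hi => Finset.mem_filter.mpr ⟨hJI hi, hp i hi⟩
      have e : (I \ J).filter p = I.filter p \ J := by
        ext i
        simp only [Finset.mem_filter, Finset.mem_sdiff]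
        tauto
      rw [e] at hrec
      rw [← Finset.sum_sdiff hsub]
      exact dvd_add hrec hJd
    · have e : (I \ J).filter p = I.filter p := by
        ext i
        simp only [Finset.mem_filter, Finset.mem_sdiff]
        constructor
        · tauto
        · rintro ⟨h1, h2⟩
          exact ⟨⟨h1, fun h => hp i h h2⟩, h2⟩
      rwa [e] at hrec

/-- the logarithmic derivative of a monomial -/
noncomputable def lg (G : LQ ℂ 2) (m : Fin 2 → ℤ) : LQ ℂ 2 :=
  (m 1 : ℂ) • dd 0 G - (m 0 : ℂ) • dd 1 G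

lemma cl_lg (G : LQ ℂ 2) (m : Fin 2 → ℤ) : Cl G 1 (lg G m) :=
  (((cl_self G).dd 0).smul _).sub (((cl_self G).dd 1).smul _)

/-- the derived coefficients -/
noncomputable def der (G A B : LQ ℂ 2) (a b : Fin 2 → ℤ) : LQ ℂ 2 :=
  A * DG G B - B * DG G A + A * B * (lg G b - lg G a)

lemma cl_der {G A B : LQ ℂ 2} {j : ℕ} (hA : Cl G j A) (hB : Cl G j B) (a b : Fin 2 → ℤ) :
    Cl G (2 * j + 1) (der G A B a b) := by
  have h1 := hA.mul hB.DG
  have h2 := hB.mul hA.DG
  have h3 := (hA.mul hB).mul ((cl_lg G b).sub (cl_lg G a))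
  rw [show j + (1 + j) = 2 * j + 1 by ring] at h1 h2
  rw [show j + j + 1 = 2 * j + 1 by ring] at h3
  exact (h1.sub h2).add h3

lemma der_self (G A : LQ ℂ 2) (a : Fin 2 → ℤ) : der G A A a a = 0 := by
  unfold der
  ring

lemma der_mul (G A B : LQ ℂ 2) (a b : Fin 2 → ℤ) :
    der G A B a b * single b 1 * single a 1 =
      A * single a 1 * DG G (B * single b 1) - B * single b 1 * DG G (A * single a 1) := by
  rw [DG_mul, DG_mul, DG_single, DG_single]
  unfold der lg
  ring

lemma der_sum {ι : Type} (G A : LQ ℂ 2) (a : Fin 2 → ℤ) (J : Finset ι) (B : ι → LQ ℂ 2)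
    (m : ι → Fin 2 → ℤ) :
    (∑ i ∈ J, der G A (B i) a (m i) * single (m i) 1) * single a 1 =
      A * single a 1 * DG G (∑ i ∈ J, B i * single (m i) 1) -
        (∑ i ∈ J, B i * single (m i) 1) * DG G (A * single a 1) := by
  rw [DG_sum, Finset.sum_mul, Finset.sum_mul, Finset.mul_sum, ← Finset.sum_sub_distrib]
  exact Finset.sum_congr rfl fun i _ => der_mul G A (B i) a (m i)

/-- one half of a separated family is a constant multiple of a member of the other half -/
lemma half (hc : S_Const) {G : LQ ℂ 2} (hG : Prime G) (hN : NonSeg G) {ι : Type} (I : Finset ι)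
    (B : ι → LQ ℂ 2) (m : ι → Fin 2 → ℤ) {s j : ℕ} {D : ℝ} (hcard : I.card ≤ s + 1)
    (hB : ∀ i ∈ I, Cl G j (B i)) (hI : G ∣ ∑ i ∈ I, B i * single (m i) 1)
    (ih : ∀ (J : Finset ι) (B' : ι → LQ ℂ 2), J.card ≤ s → (∀ i ∈ J, Cl G (2 * j + 1) (B' i)) →
      G ∣ ∑ i ∈ J, B' i * single (m i) 1 →
      (∀ J' ⊆ J, J'.Nonempty → J' ≠ J → ¬ G ∣ ∑ i ∈ J', B' i * single (m i) 1) →
      ∀ i ∈ J, ∀ i' ∈ J, |(m i 0 : ℝ) - m i' 0| ≤ D)
    (p : ι → Prop) [DecidablePred p]
    (hsep : ∀ i ∈ I, ∀ i' ∈ I, p i → ¬ p i' → D < |(m i 0 : ℝ) - m i' 0|)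
    {t : ι} (ht : t ∈ I) (hpt : ¬ p t) (hnd : ¬ G ∣ B t * single (m t) 1) :
    ∃ κ : ℂ, G ∣ ∑ i ∈ I.filter p, B i * single (m i) 1 - κ • (B t * single (m t) 1) := by
  classical
  have hu : IsUnit (single (m t) (1 : ℂ) : LQ ℂ 2) := isUnit_single _ isUnit_one
  have h0 : G ∣ ∑ i ∈ I, der G (B t) (B i) (m t) (m i) * single (m i) 1 := by
    rw [← hu.dvd_mul_right, der_sum]
    exact dvd_sub (Dvd.dvd.mul_left (DG_dvd hI) _) (Dvd.dvd.mul_right hI _)
  have h1 : G ∣ ∑ i ∈ I.erase t, der G (B t) (B i) (m t) (m i) * single (m i) 1 := by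
    rwa [Finset.sum_erase _ (by rw [der_self, zero_mul])]
  have h2 := split G (fun i => der G (B t) (B i) (m t) (m i) * single (m i) 1) p (I.erase t) h1 (by
    intro J hJ _ hd hm
    have hJI : J ⊆ I := hJ.trans (Finset.erase_subset _ _)
    have hJc : J.card ≤ s := by
      have := Finset.card_le_card hJ
      rw [Finset.card_erase_of_mem ht] at this
      omega
    have hb := ih J (fun i => der G (B t) (B i) (m t) (m i)) hJc
      (fun i hi => cl_der (hB t ht) (hB i (hJI hi)) _ _) hd hm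
    by_contra hcon
    push Not at hcon
    obtain ⟨⟨i', hi', hp'⟩, i, hi, hp⟩ := hcon
    exact absurd (hb i hi i' hi') (not_le.mpr (hsep i (hJI hi) i' (hJI hi') hp hp')))
  have e : (I.erase t).filter p = I.filter p := by
    ext i
    simp only [Finset.mem_filter, Finset.mem_erase]
    constructor
    · tauto
    · rintro ⟨a, b⟩
      exact ⟨⟨fun h => hpt (h ▸ b), a⟩, b⟩
  rw [e, ← hu.dvd_mul_right, der_sum] at h2
  exact hc G hG hN _ _ hnd h2

end M2A

open M2A in
theorem m2 (ht : S_TT) (hc : S_Const) : S_M2 := by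
  classical
  intro s
  induction s with
  | zero =>
    intro j
    refine ⟨0, fun G _ _ W _ ι I B m hI _ _ _ i hi => ?_⟩
    rw [Finset.card_eq_zero.mp (Nat.le_zero.mp hI)] at hi
    simp at hi
  | succ s ih =>
    intro j
    obtain ⟨C, hC⟩ := ih (2 * j + 1)
    refine ⟨(s + 2) * (C + 2 * j), fun G hG hN W hW ι I B m hcard hB hI hmin => ?_⟩
    have hW0 : 0 ≤ W := hW.nonneg hG.ne_zero
    suffices key : ∀ i ∈ I, ∀ i' ∈ I,
        (m i 0 : ℝ) - m i' 0 ≤ (((s + 2) * (C + 2 * j) : ℕ) : ℝ) * W by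
      intro i hi i' hi'
      have h1 := key i hi i' hi'
      have h2 := key i' hi' i hi
      rw [abs_le]
      constructor <;> linarith
    intro a ha b hb
    by_contra hcon
    rw [not_le] at hcon
    have hnn : (0 : ℝ) ≤ (((s + 2) * (C + 2 * j) : ℕ) : ℝ) * W :=
      mul_nonneg (Nat.cast_nonneg _) hW0
    have hle : m b 0 ≤ m a 0 := by
      have : (m b 0 : ℝ) ≤ m a 0 := by linarith
      exact_mod_cast this
    obtain ⟨w, g, g1, g2, g3, g4⟩ := exists_gap (I.image fun i => m i 0) (m b 0) (s + 1) (m a 0)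
      hle ((Finset.card_filter_le _ _).trans (Finset.card_image_le.trans hcard))
    have g5 : ((C : ℝ) + 2 * j) * W < g := by
      have h4 : (m a 0 : ℝ) - m b 0 ≤ g * (s + 1 + 1) := by exact_mod_cast g4
      have h5 : ((s : ℝ) + 2) * (((C : ℝ) + 2 * j) * W) < ((s : ℝ) + 2) * g := by
        push_cast at hcon
        nlinarith
      exact lt_of_mul_lt_mul_left h5 (by positivity)
    have hCW : (0 : ℝ) ≤ C * W := mul_nonneg (Nat.cast_nonneg _) hW0
    have hjW : (0 : ℝ) ≤ 2 * j * W := by positivity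
    have hg0 : 0 < g := by
      have : (0 : ℝ) < g := by nlinarith
      exact_mod_cast this
    have hgap : ∀ i ∈ I, ∀ i' ∈ I, w < m i 0 → ¬ w < m i' 0 →
        (g : ℝ) ≤ (m i 0 : ℝ) - m i' 0 := by
      intro i hi i' _ h1 h2
      have := g3 _ (Finset.mem_image_of_mem _ hi)
      have h3 : (g : ℤ) ≤ m i 0 - m i' 0 := by omega
      exact_mod_cast h3
    have hpa : w < m a 0 := by omega
    have hpb : ¬ w < m b 0 := by omega
    have hab : a ≠ b := fun h => hpb (h ▸ hpa)
    have hnd : ∀ t ∈ I, ¬ G ∣ B t * single (m t) 1 := by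
      intro t ht
      have := hmin {t} (Finset.singleton_subset_iff.mpr ht) (Finset.singleton_nonempty t) (by
        intro h
        rw [← h, Finset.mem_singleton] at ha hb
        exact hab (ha.trans hb.symm))
      rwa [Finset.sum_singleton] at this
    have ih' := fun (J : Finset ι) (B' : ι → LQ ℂ 2) => hC G hG hN W hW ι J B' m
    obtain ⟨κ, hκ⟩ := half hc hG hN I B m hcard hB hI ih' (fun i => w < m i 0) (by
      intro i hi i' hi' h1 h2
      have := hgap i hi i' hi' h1 h2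
      exact lt_of_lt_of_le (by nlinarith) (le_abs_self _)) hb hpb (hnd b hb)
    obtain ⟨κ', hκ'⟩ := half hc hG hN I B m hcard hB hI ih' (fun i => ¬ w < m i 0) (by
      intro i hi i' hi' h1 h2
      have := hgap i' hi' i hi (not_not.mp h2) h1
      rw [abs_sub_comm]
      exact lt_of_lt_of_le (by nlinarith) (le_abs_self _)) ha (not_not.mpr hpa) (hnd a ha)
    have hκ0 : κ' ≠ 0 := by
      rintro rfl
      rw [zero_smul, sub_zero] at hκ'
      refine hmin _ (Finset.filter_subset _ _) ⟨b, Finset.mem_filter.mpr ⟨hb, hpb⟩⟩ ?_ hκ'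
      intro h
      rw [← h] at ha
      exact (Finset.mem_filter.mp ha).2 hpa
    have hs : G ∣ κ • (B b * single (m b) 1) + κ' • (B a * single (m a) 1) := by
      have h := dvd_sub hI (dvd_add hκ hκ')
      rw [← Finset.sum_filter_add_sum_filter_not I (fun i => w < m i 0)] at h
      convert h using 1
      ring
    have hu : IsUnit (single (m b) (1 : ℂ) : LQ ℂ 2) := isUnit_single _ isUnit_one
    have hd : G ∣ single (m a - m b) 1 * (κ' • B a) - -(κ • B b) := by
      rw [← hu.dvd_mul_right]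
      convert hs using 1
      have e : (single (m a) (1 : ℂ) : LQ ℂ 2) = single (m a - m b) 1 * single (m b) 1 := by
        rw [single_mul_single, sub_add_cancel, mul_one]
      rw [e]
      simp only [Algebra.smul_def]
      ring
    have hna : ¬ G ∣ κ' • B a := by
      intro h
      refine hnd a ha (Dvd.dvd.mul_right ?_ _)
      have h2 : B a = algebraMap ℂ _ κ'⁻¹ * (κ' • B a) := by
        rw [← Algebra.smul_def, smul_smul, inv_mul_cancel₀ hκ0, one_smul]
      rw [h2]
      exact Dvd.dvd.mul_left h _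
    have hfin := ht G hG hN j _ _ (m a - m b) W ((hB a ha).smul κ') ((hB b hb).smul κ).neg hna hd hW
    have h1 := hgap a ha b hb hpa hpb
    have h2 : (m a 0 : ℝ) - m b 0 ≤ 2 * j * W := by
      refine le_trans ?_ ((le_abs_self _).trans hfin)
      simp
    nlinarith

end Pool.Agent.P.MP_aef18a_nt
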