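import Pool.Agent.P.MP_aef18a_nt.Ad.Basic

namespace Pool.Agent.P.MP_aef18a_nt

open Polynomial LaurentPolynomial Height AdmissibleAbsValues

namespace MLA

lemma nonarch_le {K : Type*} [Field K] {v : AbsoluteValue K ℝ} (hv : IsNonarchimedean v) {q : ℕ}
    (hq : q.Prime) (h : v (q : K) < 1) {β : K} {p : Polynomial ℤ} (hp : Polynomial.aeval β p = 0)
    (h1 : ¬ (q : ℤ) ∣ p.leadingCoeff) : v β ≤ 1 := by
  have key : ∀ k : ℤ, ¬ (q : ℤ) ∣ k → v (k : K) = 1 := by
    intro k hk
    obtain ⟨x, y, hxy⟩ := ((Nat.prime_iff_prime_int.mp hq).coprime_iff_not_dvd).mpr hk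
    refine le_antisymm hv.apply_intCast_le_one ?_
    by_contra hlt
    push Not at hlt
    have e : (1 : K) = (x : K) * (q : K) + (y : K) * (k : K) := by
      exact_mod_cast congrArg (Int.cast : ℤ → K) hxy.symm
    have := hv ((x : K) * (q : K)) ((y : K) * (k : K))
    rw [← e, map_one, map_mul, map_mul] at this
    have a1 : v (x : K) * v (q : K) < 1 :=
      (mul_le_of_le_one_left (v.nonneg _) hv.apply_intCast_le_one).trans_lt h
    have a2 : v (y : K) * v (k : K) < 1 :=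
      (mul_le_of_le_one_left (v.nonneg _) hv.apply_intCast_le_one).trans_lt hlt
    exact absurd this (not_le.mpr (max_lt a1 a2))
  rw [Polynomial.aeval_eq_sum_range] at hp
  simp only [zsmul_eq_mul] at hp
  by_contra hgt
  push Not at hgt
  have := hv.apply_sum_eq_of_lt (fun a => (v.map_neg a).symm)
    (s := Finset.range (p.natDegree + 1)) (l := fun i => (p.coeff i : K) * β ^ i)
    (k := p.natDegree) (by simp) (fun j hj hj' => by
      rw [map_mul, map_mul, Polynomial.coeff_natDegree, key _ h1, one_mul, map_pow, map_pow]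
      refine (mul_le_of_le_one_left (by positivity) hv.apply_intCast_le_one).trans_lt
        (pow_lt_pow_right₀ hgt ?_)
      have := Finset.mem_range.mp hj
      omega)
  rw [hp, map_zero, map_mul, Polynomial.coeff_natDegree, key _ h1, one_mul, map_pow] at this
  have h2 : 0 < v β ^ p.natDegree := by positivity
  exact h2.ne this

lemma hkey {K : Type*} [Field K] [NumberField K] {ι : Type*} {β : K} (hβ : β ≠ 0)
    (S S' : Finset ι) (c c' e : ι → ℤ) {q : ℕ} (hq : 0 < q) (T W : ℕ) {H C : ℝ} (hH : 0 ≤ H)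
    (hC : 0 ≤ C) (hunit : ∀ v ∈ nonarchAbsVal (K := K), v (q : K) < 1 → v β ≤ 1)
    (hr : ∀ u ∈ S, 0 ≤ e u ∧ e u ≤ W) (hc : ∀ u ∈ S, |(c u : ℝ)| ≤ H) (hr' : ∀ u ∈ S', 0 ≤ e u)
    (hy : ∑ u ∈ S, (c u : K) * β ^ e u = (q : K) ^ T * ∑ u ∈ S', (c' u : K) * β ^ e u)
    (hne : ∑ u ∈ S, (c u : K) * β ^ e u ≠ 0)
    (hh : mulHeight₁ β ^ W ≤ C ^ totalWeight K) : (q : ℝ) ^ T ≤ S.card * H * C := by
  have hqR : (0 : ℝ) < (q : ℝ) ^ T := by positivity
  set y : K := ∑ u ∈ S', (c' u : K) * β ^ e u with hydef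
  have hy0 : y ≠ 0 := by
    intro h
    rw [h, mul_zero] at hy
    exact hne hy
  have all : ∀ v : AbsoluteValue K ℝ, ∀ u ∈ S, v (β ^ e u) ≤ max (v β) 1 ^ W := by
    intro v u hu
    obtain ⟨h1, h2⟩ := hr u hu
    obtain ⟨k, hk⟩ := Int.eq_ofNat_of_zero_le h1
    rw [hk, zpow_natCast, map_pow]
    exact (pow_le_pow_left₀ (v.nonneg _) (le_max_left _ _) _).trans
      (pow_le_pow_right₀ (le_max_right _ _) (by omega))
  have H2 : mulHeight₁ β ^ 0 ≤ (S.card * H / (q : ℝ) ^ T) ^ totalWeight K * mulHeight₁ β ^ W := by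
    refine pf hy0 hβ 0 W (fun v hv => ?_) (fun v hv => ?_)
    · have := arch_sum hv S c _ S.card le_rfl hH (by positivity) hc (all v)
      rw [hy, map_mul, map_pow, ← Int.cast_natCast, arch_int hv, Int.cast_natCast,
        abs_of_nonneg (Nat.cast_nonneg _)] at this
      rw [pow_zero, mul_one, div_mul_eq_mul_div, le_div_iff₀ hqR]
      linarith
    · have hna := isNonarchimedean v hv
      rw [pow_zero, mul_one]
      rcases lt_or_eq_of_le (hna.apply_natCast_le_one (n := q)) with h | h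
      · refine (nonarch_sum hna S' c' _ zero_le_one fun u hu => ?_).trans
          (one_le_pow₀ (le_max_right _ _))
        rw [map_zpow₀]
        exact zpow_le_one₀ (v.pos hβ) (hunit v hv h) (hr' u hu)
      · have := nonarch_sum hna S c _ (by positivity) (all v)
        rwa [hy, map_mul, map_pow, h, one_pow, one_mul] at this
  rw [pow_zero] at H2
  have H4 : 1 ≤ (S.card * H / (q : ℝ) ^ T * C) ^ totalWeight K := by
    rw [mul_pow]
    exact H2.trans (mul_le_mul_of_nonneg_left hh (by positivity))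
  have := (one_le_pow_iff_of_nonneg (by positivity) (NumberField.totalWeight_pos K).ne').mp H4
  rwa [div_mul_eq_mul_div, le_div_iff₀ hqR, one_mul] at this

end MLA

theorem ml (hg : S_Gap) (hs : S_Sieg) : S_ML := by
  classical
  intro n F hcz q hq hnd K
  set S := F.coeff.support with hS
  let B0 : ℕ := S.sup (fun u => (F.coeff u).natAbs) + 1
  have hB0 : ∀ u ∈ S, |F.coeff u| ≤ B0 := by
    intro u hu
    have : (F.coeff u).natAbs ≤ S.sup (fun u => (F.coeff u).natAbs) :=
      Finset.le_sup (f := fun u => (F.coeff u).natAbs) hu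
    rw [Int.abs_eq_natAbs]
    simp only [B0]
    omega
  obtain ⟨T, L, H, hsg⟩ := hs n F q hq hnd K (((S.card : ℝ) * B0) ^ S.card)
  let ΓA : LP n → Finset (Fin n → ℤ) := fun A =>
    if h : ¬ toQ F ∣ A then (hcz A h).choose else ∅
  have ΓA0 : ∀ A, 0 ∉ ΓA A := by
    intro A
    simp only [ΓA]
    split_ifs with h
    · simp
    · exact (hcz A h).choose_spec.1
  let box : Finset (Fin n → ℤ) := Fintype.piFinset fun _ => Finset.Icc (-L : ℤ) L
  let fam : Finset ((Fin n → ℤ) →₀ ℤ) := box.finsupp fun _ => Finset.Icc (-H : ℤ) H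
  let Γ := (fam.biUnion fun f => ΓA (toQ (AddMonoidAlgebra.ofCoeff f))) ∪
    S.powerset.biUnion fun J => ΓA (pol J F.coeff)
  refine ⟨Γ, by simp [Γ, ΓA0], ?_⟩
  intro a hΓ ulo hlo uhi hhi hrange hlt hK p hp hp1 α hα0 hα
  by_contra htor
  have ha : a ≠ 0 := by rintro rfl; simp at hlt
  obtain ⟨B, hB, hBs, hBc, hBq, G, B', hB', hBe⟩ := hsg a ulo hlo uhi hhi hrange hlt hK
  let α' : ℂˣ := Units.mk0 α hα0
  have hevF : ev a α' (toQ F) = 0 := by
    obtain ⟨r, hr⟩ := hp
    rw [ev, RingHom.comp_apply, specHom_apply, spec_toQ, hr, map_mul, map_mul, toQ, map_toLaurent,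
      eval₂_toLaurent, ← aeval_def, ← algebraMap_int_eq, aeval_map_algebraMap]
    simp [α', hα]
  have key : ∀ A, ΓA A ⊆ Γ → ¬ toQ F ∣ A → ev a α' A ≠ 0 := by
    intro A h1 h2 h3
    apply htor
    refine (hcz A h2).choose_spec.2 a ha (fun c hc => hΓ c (h1 ?_)) α' hevF h3
    simp only [ΓA, dif_pos h2]
    exact hc
  have k1 : ∀ w : ℤ, (∃ i ∈ S, i ⬝ᵥ a ≤ w) → (∃ i ∈ S, w < i ⬝ᵥ a) →
      ev a α' (pol (S.filter fun u => u ⬝ᵥ a ≤ w) F.coeff) ≠ 0 := by
    rintro w ⟨i, hi, hi'⟩ ⟨k, hk, hk'⟩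
    refine key _ ((Finset.subset_biUnion_of_mem (fun J => ΓA (pol J F.coeff))
      (Finset.mem_powerset.mpr (Finset.filter_subset _ _))).trans Finset.subset_union_right)
      (not_dvd_of_top (dotR a) ?_ ?_ (u₀ := k) (support_toQ F ▸ hk) ?_)
    · intro h
      have : i ∈ (pol (S.filter fun u => u ⬝ᵥ a ≤ w) F.coeff).coeff.support :=
        mem_pol.mpr ⟨Finset.mem_filter.mpr ⟨hi, hi'⟩, Finsupp.mem_support_iff.mp hi⟩
      simp [h] at this
    · intro u hu
      rw [support_toQ]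
      exact (Finset.mem_filter.mp (mem_pol.mp hu).1).1
    · intro u hu
      have := (Finset.mem_filter.mp (mem_pol.mp hu).1).2
      rw [dotR_apply, dotR_apply]
      exact_mod_cast (by omega : u ⬝ᵥ a < k ⬝ᵥ a)
  have k2 : ev a α' (toQ B) ≠ 0 := by
    refine key _ ((Finset.subset_biUnion_of_mem
      (fun f => ΓA (toQ (AddMonoidAlgebra.ofCoeff f))) (x := B.coeff) ?_).trans
        Finset.subset_union_left) fun hd => ?_
    · refine Finset.mem_finsupp_iff.mpr ⟨fun u hu => ?_, fun u _ => ?_⟩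
      · exact Fintype.mem_piFinset.mpr fun i => Finset.mem_Icc.mpr (abs_le.mp ((hBs u hu).1 i))
      · exact Finset.mem_Icc.mpr (abs_le.mp (hBc u))
    · have hB0' : toQ B ≠ 0 := by
        intro h
        apply hB
        have := support_toQ B
        rw [h] at this
        ext u
        by_contra hu
        have h2 : u ∈ B.coeff.support := Finsupp.mem_support_iff.mpr (by simpa using hu)
        rw [← this] at h2
        simp at h2
      have hw : Wd (dotR a) (((uhi ⬝ᵥ a - ulo ⬝ᵥ a - 1 : ℤ)) : ℝ) (toQ B) := by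
        intro u hu u' hu'
        rw [support_toQ] at hu hu'
        have h1 := (hBs u hu).2
        have h2 := (hBs u' hu').2
        rw [dotR_apply, dotR_apply]
        exact_mod_cast (by omega : u ⬝ᵥ a - u' ⬝ᵥ a ≤ uhi ⬝ᵥ a - ulo ⬝ᵥ a - 1)
      have := Wd.of_dvd (dotR a) hw hB0' hd uhi (support_toQ F ▸ hhi) ulo (support_toQ F ▸ hlo)
      rw [dotR_apply, dotR_apply] at this
      have h3 : uhi ⬝ᵥ a - ulo ⬝ᵥ a ≤ uhi ⬝ᵥ a - ulo ⬝ᵥ a - 1 := by exact_mod_cast this
      omega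
  have k3 : ev a α' (toQ B) = (q : ℂ) ^ T * ev a α' (toQ B') := by
    rw [hBe, map_add, map_add, map_mul, map_mul, hevF, zero_mul, zero_add, map_nsmul, map_nsmul,
      nsmul_eq_mul, Nat.cast_pow]
  rw [toQ_eq_pol, ev_pol] at hevF k2
  rw [toQ_eq_pol, toQ_eq_pol, ev_pol, ev_pol] at k3
  simp only [ev_pol] at k1
  simp only [α', Units.val_mk0] at hevF k1 k2 k3
  have hp00 : p ≠ 0 := by rintro rfl; simp at hp1
  have hint : IsIntegral ℚ α := by
    refine IsAlgebraic.isIntegral ⟨p.map (algebraMap ℤ ℚ), ?_, by rwa [aeval_map_algebraMap]⟩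
    exact (Polynomial.map_ne_zero_iff (RingHom.injective_int _)).mpr hp00
  have : FiniteDimensional ℚ (IntermediateField.adjoin ℚ {α}) :=
    IntermediateField.adjoin.finiteDimensional hint
  have : NumberField (IntermediateField.adjoin ℚ {α}) := {}
  let β := IntermediateField.AdjoinSimple.gen ℚ α
  let ι := algebraMap (IntermediateField.adjoin ℚ {α}) ℂ
  have hι : ι β = α := rfl
  have tr : ∀ (J : Finset (Fin n → ℤ)) (k : (Fin n → ℤ) → ℤ),
      ι (∑ u ∈ J, (k u : IntermediateField.adjoin ℚ {α}) * β ^ (u ⬝ᵥ a)) =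
        ∑ u ∈ J, (k u : ℂ) * α ^ (u ⬝ᵥ a) := by
    intro J k
    simp only [map_sum, map_mul, map_intCast, map_zpow₀, hι]
  have hβ : β ≠ 0 := fun h => hα0 (by rw [← hι, h, map_zero])
  have hpβ : aeval β p = 0 := by
    apply ι.injective
    rw [map_zero, ← hα]
    exact (aeval_algHom_apply ι.toIntAlgHom β p).symm
  have gap := hg _ β hβ _ S F.coeff (· ⬝ᵥ a) S.card B0 le_rfl (by simp [B0]) hB0
    (ι.injective (by rw [tr, hevF, map_zero]))
    (fun w h1 h2 h => k1 w h1 h2 (by rw [← tr, h, map_zero])) uhi hhi ulo hlo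
  have := MLA.hkey hβ B.coeff.support B'.coeff.support B.coeff B'.coeff (· ⬝ᵥ a) hq.pos T _
    (H := H) (Nat.cast_nonneg _) (by positivity)
    (fun v hv h => MLA.nonarch_le (isNonarchimedean v hv) hq h hpβ hp1)
    (fun u hu => ⟨(hBs u hu).2.1, by have := (hBs u hu).2.2; omega⟩)
    (fun u _ => by exact_mod_cast hBc u) hB'
    (ι.injective (by rw [map_mul, tr, tr, k3, map_pow, map_natCast]))
    (fun h => k2 (by rw [← tr, h, map_zero])) gap
  exact absurd hBq (not_lt.mpr this)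

end Pool.Agent.P.MP_aef18a_nt
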