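import Pool.Agent.P.MP_aef18a_nt.Ad.Basic

namespace Pool.Agent.P.MP_aef18a_nt

open AddMonoidAlgebra

namespace NormA

lemma exists_iota {k : ℕ} (S : Set (Fin k → ℤ)) :
    ∃ (r : ℕ) (ι : (Fin r → ℤ) →+ (Fin k → ℤ)), Function.Injective ι ∧
      ∀ z, z ∈ AddSubgroup.closure S ↔ ∃ w, ι w = z := by
  obtain ⟨r, ⟨b⟩⟩ := Submodule.nonempty_basis_of_pid (Pi.basisFun ℤ (Fin k)) (Submodule.span ℤ S)
  refine ⟨r, ((Submodule.span ℤ S).subtype ∘ₗ b.equivFun.symm.toLinearMap).toAddMonoidHom,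
    Subtype.val_injective.comp b.equivFun.symm.injective, fun z => ?_⟩
  rw [← Submodule.span_int_eq_addSubgroupClosure, Submodule.mem_toAddSubgroup]
  constructor
  · intro hz
    exact ⟨b.equivFun ⟨z, hz⟩, by simp⟩
  · rintro ⟨w, rfl⟩
    exact (b.equivFun.symm w).2

variable {r k : ℕ} (ι : (Fin r → ℤ) →+ (Fin k → ℤ))

lemma inj_shift (hι : Function.Injective ι) (u : Fin k → ℤ) :
    Function.Injective fun w => u + ι w := fun _ _ h => hι (add_left_cancel h)

/-- the part of `B` on the coset of `u` -/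
noncomputable def sh (hι : Function.Injective ι) (u : Fin k → ℤ) (B : LQ ℚ k) : LQ ℚ r :=
  comapDomain (fun w => u + ι w) (inj_shift ι hι u) B

lemma sh_coeff (hι : Function.Injective ι) (u : Fin k → ℤ) (B : LQ ℚ k) (w : Fin r → ℤ) :
    (sh ι hι u B).coeff w = B.coeff (u + ι w) := by
  simp [sh]

lemma mem_sh (hι : Function.Injective ι) (u : Fin k → ℤ) (B : LQ ℚ k) (w : Fin r → ℤ) :
    w ∈ (sh ι hι u B).coeff.support ↔ u + ι w ∈ B.coeff.support := by
  simp [sh_coeff]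

lemma map_shift (u : Fin k → ℤ) (A : LQ ℚ r) :
    mapDomain (fun w => u + ι w) A = single u 1 * mapDomain ι A := by
  induction A using AddMonoidAlgebra.induction_linear with
  | zero => simp
  | add x y hx hy => rw [mapDomain_add, mapDomain_add, hx, hy, mul_add]
  | single w s => rw [mapDomain_single, mapDomain_single, single_mul_single, one_mul]

lemma eq_sh (hι : Function.Injective ι) (u : Fin k → ℤ) (B : LQ ℚ k)
    (h : ∀ z ∈ B.coeff.support, ∃ w, u + ι w = z) : B = single u 1 * mapDomain ι (sh ι hι u B) := by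
  rw [← map_shift, sh, mapDomain_comapDomain fun z hz => h z hz]

lemma comap_single (hι : Function.Injective ι) {z : Fin k → ℤ} (hz : z ∉ Set.range ι) (t : ℚ) :
    comapDomain ι hι (single z t) = 0 := by
  ext; simp [*]

lemma comap_mul (hι : Function.Injective ι) (A : LQ ℚ r) (Z : LQ ℚ k) :
    comapDomain ι hι (mapDomain ι A * Z) = A * comapDomain ι hι Z := by
  induction A using AddMonoidAlgebra.induction_linear with
  | zero => simp
  | add x y hx hy => rw [mapDomain_add, add_mul, comapDomain_add, hx, hy, add_mul]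
  | single w s =>
    induction Z using AddMonoidAlgebra.induction_linear with
    | zero => simp
    | add x y hx hy => rw [mul_add, comapDomain_add, hx, hy, comapDomain_add, mul_add]
    | single z t =>
      rw [mapDomain_single, single_mul_single]
      by_cases hz : z ∈ Set.range ι
      · obtain ⟨z, rfl⟩ := hz
        rw [← map_add, comapDomain_single_map, comapDomain_single_map, single_mul_single]
      · rw [comap_single ι hι hz, mul_zero, comap_single ι hι]
        rintro ⟨y, hy⟩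
        exact hz ⟨y - w, by rw [map_sub, hy, add_sub_cancel_left]⟩

lemma isUnit_of_map (hι : Function.Injective ι) {A : LQ ℚ r} (h : IsUnit (mapDomain ι A)) :
    IsUnit A := by
  obtain ⟨Z, hZ⟩ := h.exists_right_inv
  refine IsUnit.of_mul_eq_one (comapDomain ι hι Z) ?_
  rw [← comap_mul, hZ, one_def, ← map_zero ι, comapDomain_single_map, one_def]

lemma dot_eq (a : Fin k → ℤ) (w : Fin r → ℤ) :
    w ⬝ᵥ (fun i => ι (Pi.single i 1) ⬝ᵥ a) = ι w ⬝ᵥ a := by
  conv_rhs => rw [pi_eq_sum_univ' w, map_sum, sum_dotProduct]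
  refine Finset.sum_congr rfl fun i _ => ?_
  rw [map_zsmul, smul_dotProduct, smul_eq_mul]

lemma minVan_sh (hι : Function.Injective ι) (u : Fin k → ℤ) (B : LQ ℚ k)
    (h : ∀ z ∈ B.coeff.support, ∃ w, u + ι w = z) (a : Fin k → ℤ) (α : ℂˣ)
    (hm : MinVan α B.coeff.support B.coeff (· ⬝ᵥ a)) :
    MinVan α (sh ι hι u B).coeff.support (sh ι hι u B).coeff
      (· ⬝ᵥ fun i => ι (Pi.single i 1) ⬝ᵥ a) := by
  let f : (Fin r → ℤ) ↪ (Fin k → ℤ) := ⟨fun w => u + ι w, inj_shift ι hι u⟩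
  have e1 : (sh ι hι u B).coeff.support.map f = B.coeff.support := by
    ext z
    rw [Finset.mem_map]
    constructor
    · rintro ⟨w, hw, rfl⟩
      exact (mem_sh ι hι u B w).1 hw
    · intro hz
      obtain ⟨w, rfl⟩ := h z hz
      exact ⟨w, (mem_sh ι hι u B w).2 hz, rfl⟩
  have e2 : ∀ J : Finset (Fin r → ℤ), ∑ z ∈ J.map f, (B.coeff z : ℂ) * (α : ℂ) ^ (z ⬝ᵥ a) =
      (α : ℂ) ^ (u ⬝ᵥ a) * ∑ w ∈ J, ((sh ι hι u B).coeff w : ℂ) *
        (α : ℂ) ^ (w ⬝ᵥ fun i => ι (Pi.single i 1) ⬝ᵥ a) := fun J => by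
    rw [Finset.sum_map, Finset.mul_sum]
    refine Finset.sum_congr rfl fun w _ => ?_
    rw [dot_eq, sh_coeff]
    show (B.coeff (u + ι w) : ℂ) * (α : ℂ) ^ ((u + ι w) ⬝ᵥ a) = _
    rw [add_dotProduct, zpow_add₀ α.ne_zero]
    ring
  have e3 : (α : ℂ) ^ (u ⬝ᵥ a) ≠ 0 := zpow_ne_zero _ α.ne_zero
  refine ⟨?_, fun J h1 h2 h3 h4 => ?_⟩
  · have := hm.1
    rw [← e1, e2] at this
    exact (mul_eq_zero.1 this).resolve_left e3
  · refine hm.2 (J.map f) (e1 ▸ Finset.map_subset_map.2 h1) h2.map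
      (fun e => h3 (Finset.map_injective f (e.trans e1.symm))) ?_
    rw [e2, h4, mul_zero]

end NormA

open NormA

theorem czp (hu : S_UFD) (hn : S_CZN) : S_CZP := by
  classical
  intro k Ps h1 h2 h3
  obtain ⟨r, ι, hι, hr⟩ := exists_iota (Dif Ps)
  have hex : ∀ B : LQ ℚ k, ∃ u, B ≠ 0 → u ∈ B.coeff.support := fun B => by
    by_cases hB : B = 0
    · exact ⟨0, fun h => (h hB).elim⟩
    · have : B.coeff ≠ 0 := fun e => hB (by ext z; simp [e])
      obtain ⟨u, hu⟩ := Finsupp.support_nonempty_iff.2 this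
      exact ⟨u, fun _ => hu⟩
  choose u hu' using hex
  have hs : ∀ B ∈ Ps, ∀ z ∈ B.coeff.support, ∃ w, u B + ι w = z := fun B hB z hz => by
    obtain ⟨w, hw⟩ := (hr (z - u B)).1
      (AddSubgroup.subset_closure ⟨B, hB, z, hz, u B, hu' B (h2 B hB), rfl⟩)
    exact ⟨w, by rw [hw, add_sub_cancel]⟩
  have key := hn r (Ps.image fun B => sh ι hι (u B) B) (h1.image _) ?_ ?_ ?_
  · obtain ⟨Γ, g0, g1⟩ := key
    refine ⟨Γ.image ι, fun e => ?_, fun a ha α hα hm => ?_⟩
    · obtain ⟨c, hc, e⟩ := Finset.mem_image.1 e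
      rw [← map_zero ι] at e
      exact g0 (hι e ▸ hc)
    · refine g1 (fun i => ι (Pi.single i 1) ⬝ᵥ a) (fun c hc => ?_) α hα fun B' hB' => ?_
      · rw [dot_eq]
        exact ha _ (Finset.mem_image_of_mem _ hc)
      · obtain ⟨B, hB, rfl⟩ := Finset.mem_image.1 hB'
        exact minVan_sh ι hι _ B (hs B hB) a α (hm B hB)
  · intro B' hB' e
    obtain ⟨B, hB, rfl⟩ := Finset.mem_image.1 hB'
    refine h2 B hB ?_
    rw [eq_sh ι hι _ B (hs B hB), e, mapDomain_zero, mul_zero]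
  · intro π hπ
    by_contra hc
    push Not at hc
    have := hu ℚ k
    have n0 : mapDomain ι π ≠ 0 := fun e =>
      hπ.ne_zero (mapDomain_injective hι (e.trans (mapDomain_zero _).symm))
    obtain ⟨ρ, r1, r2⟩ := WfDvdMonoid.exists_irreducible_factor
      (fun e => hπ.not_isUnit (isUnit_of_map ι hι e)) n0
    obtain ⟨B, hB, hd⟩ := h3 ρ (UniqueFactorizationMonoid.irreducible_iff_prime.1 r1)
    obtain ⟨Z, hZ⟩ := hc _ (Finset.mem_image_of_mem _ hB)
    refine hd ?_
    rw [eq_sh ι hι _ B (hs B hB), hZ, mapDomain_mul]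
    exact (r2.mul_right _).mul_left _
  · refine eq_top_iff.2 fun x _ => ?_
    have : AddSubgroup.closure (Dif Ps) ≤
        (AddSubgroup.closure (Dif (Ps.image fun B => sh ι hι (u B) B))).map ι := by
      refine (AddSubgroup.closure_le _).2 ?_
      rintro _ ⟨B, hB, z, hz, z', hz', rfl⟩
      obtain ⟨w, rfl⟩ := hs B hB z hz
      obtain ⟨w', rfl⟩ := hs B hB z' hz'
      refine ⟨w - w', AddSubgroup.subset_closure ⟨_, Finset.mem_image_of_mem _ hB, w,
        (mem_sh ι hι _ B w).2 hz, w', (mem_sh ι hι _ B w').2 hz', rfl⟩, ?_⟩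
      rw [map_sub, add_sub_add_left_eq_sub]
    obtain ⟨y, hy, e⟩ := this ((hr (ι x)).2 ⟨x, rfl⟩)
    exact hι e ▸ hy

end Pool.Agent.P.MP_aef18a_nt
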