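import Pool.Agent.P.MP_aef18a_nt.Ad.Basic

namespace Pool.Agent.P.MP_aef18a_nt

open AddMonoidAlgebra

namespace PigA

variable {n : ℕ}

/-- the element with the given coefficients on a finset -/
noncomputable def mk {R : Type} [CommRing R] (S : Finset (Fin n → ℤ)) (g : S → R) : LQ R n :=
  ∑ m : S, single (m : Fin n → ℤ) (g m)

lemma mk_coeff_mem {R : Type} [CommRing R] (S : Finset (Fin n → ℤ)) (g : S → R) (u : S) :
    (mk S g).coeff (u : Fin n → ℤ) = g u := by
  classical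
  unfold mk
  rw [coeff_sum, Finsupp.finsetSum_apply, Finset.sum_eq_single u]
  · simp
  · intro b _ hb
    rw [coeff_single, Finsupp.single_apply, if_neg]
    exact fun h => hb (Subtype.ext h)
  · simp

lemma mk_coeff_notMem {R : Type} [CommRing R] (S : Finset (Fin n → ℤ)) (g : S → R)
    {u : Fin n → ℤ} (hu : u ∉ S) : (mk S g).coeff u = 0 := by
  classical
  unfold mk
  rw [coeff_sum, Finsupp.finsetSum_apply]
  refine Finset.sum_eq_zero fun b _ => ?_
  rw [coeff_single, Finsupp.single_apply, if_neg]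
  rintro rfl
  exact hu b.2

lemma mk_support {R : Type} [CommRing R] (S : Finset (Fin n → ℤ)) (g : S → R) :
    (mk S g).coeff.support ⊆ S := by
  intro u hu
  by_contra h
  exact Finsupp.mem_support_iff.mp hu (mk_coeff_notMem S g h)

lemma mk_add {R : Type} [CommRing R] (S : Finset (Fin n → ℤ)) (g g' : S → R) :
    mk S (g + g') = mk S g + mk S g' := by
  simp [mk, Finset.sum_add_distrib, single_add]

lemma mk_injective {R : Type} [CommRing R] (S : Finset (Fin n → ℤ)) :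
    Function.Injective (mk S : (S → R) → LQ R n) := by
  intro g g' h
  funext u
  rw [← mk_coeff_mem S g u, ← mk_coeff_mem S g' u, h]

lemma ext_of_support {R : Type} [CommRing R] {S : Finset (Fin n → ℤ)} {A B : LQ R n}
    (hA : A.coeff.support ⊆ S) (hB : B.coeff.support ⊆ S)
    (h : ∀ u ∈ S, A.coeff u = B.coeff u) : A = B := by
  ext u
  by_cases hu : u ∈ S
  · exact h u hu
  · rw [Finsupp.notMem_support_iff.mp fun h' => hu (hA h'),
      Finsupp.notMem_support_iff.mp fun h' => hu (hB h')]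

lemma support_mul_sub {R : Type} [CommRing R] {S Sm : Finset (Fin n → ℤ)} {F G : LQ R n}
    (hG : G.coeff.support ⊆ Sm) (h : ∀ m ∈ Sm, ∀ u ∈ F.coeff.support, m + u ∈ S) :
    (F * G).coeff.support ⊆ S := by
  classical
  intro z hz
  obtain ⟨x, hx, y, hy, rfl⟩ := Finset.mem_add.mp (support_coeff_mul_subset F G hz)
  rw [add_comm]
  exact h y (hG hy) x hx

lemma support_sub_sub {R : Type} [CommRing R] {S : Finset (Fin n → ℤ)} {A B : LQ R n}
    (hA : A.coeff.support ⊆ S) (hB : B.coeff.support ⊆ S) : (A - B).coeff.support ⊆ S := by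
  classical
  intro u hu
  by_contra h
  refine Finsupp.mem_support_iff.mp hu ?_
  rw [coeff_sub, Finsupp.sub_apply, Finsupp.notMem_support_iff.mp fun h' => h (hA h'),
    Finsupp.notMem_support_iff.mp fun h' => h (hB h'), sub_zero]

/-- reduction modulo `q` -/
noncomputable def red (q : ℕ) : LQ ℤ n →+* LQ (ZMod q) n :=
  mapRingHom (Fin n → ℤ) (Int.castRingHom (ZMod q))

lemma red_coeff (q : ℕ) (A : LQ ℤ n) (u : Fin n → ℤ) :
    (red q A).coeff u = ((A.coeff u : ℤ) : ZMod q) := by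
  simp [red]

lemma red_support (q : ℕ) (A : LQ ℤ n) : (red q A).coeff.support ⊆ A.coeff.support := by
  intro u hu
  rw [Finsupp.mem_support_iff] at hu ⊢
  intro h
  rw [red_coeff, h, Int.cast_zero] at hu
  exact hu rfl

lemma exists_div (q : ℕ) {S : Finset (Fin n → ℤ)} {A : LQ ℤ n} (hA : A.coeff.support ⊆ S)
    (h : red q A = 0) : ∃ A' : LQ ℤ n, A'.coeff.support ⊆ S ∧ A = q • A' := by
  refine ⟨mk S fun u => A.coeff u / q, mk_support _ _, ?_⟩
  refine ext_of_support hA ?_ ?_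
  · intro u hu
    rw [coeff_smul] at hu
    exact mk_support _ _ (Finsupp.support_smul hu)
  · intro u hu
    have h1 : (q : ℤ) ∣ A.coeff u := by
      rw [← ZMod.intCast_zmod_eq_zero_iff_dvd, ← red_coeff, h]
      simp
    rw [coeff_smul, Finsupp.smul_apply, mk_coeff_mem S _ ⟨u, hu⟩, nsmul_eq_mul,
      Int.mul_ediv_cancel' h1]

/-- one step of the pigeonhole argument -/
lemma step (F : LQ ℤ n) {q : ℕ} (hq : q.Prime) (hF : ∃ u, ¬ (q : ℤ) ∣ F.coeff u) (D : ℕ)
    (S Sm S' : Finset (Fin n → ℤ))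
    (h1 : ∀ m ∈ Sm, ∀ u, ¬ (q : ℤ) ∣ F.coeff u → m + u ∈ S) (h2 : S ⊆ S')
    (h3 : ∀ m ∈ Sm, ∀ u ∈ F.coeff.support, m + u ∈ S') (h4 : S.card ≤ Sm.card + D)
    (k : ℕ) (P : Finset (LQ ℤ n)) (hP : ∀ b ∈ P, b.coeff.support ⊆ S)
    (hk : q ^ D * k < P.card) :
    ∃ P' ⊆ P, k < P'.card ∧ ∃ b₀ : LQ ℤ n, ∀ b ∈ P', ∃ G b' : LQ ℤ n,
      b'.coeff.support ⊆ S' ∧ b = b₀ + F * G + q • b' := by
  classical
  have : Fact q.Prime := ⟨hq⟩
  have hFb : red q F ≠ 0 := by
    obtain ⟨u, hu⟩ := hF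
    intro h
    apply hu
    rw [← ZMod.intCast_zmod_eq_zero_iff_dvd, ← red_coeff, h]
    simp
  have hsup : ∀ G : LQ (ZMod q) n, G.coeff.support ⊆ Sm →
      (red q F * G).coeff.support ⊆ S := by
    intro G hG
    refine support_mul_sub hG fun m hm u hu => h1 m hm u ?_
    rw [← ZMod.intCast_zmod_eq_zero_iff_dvd, ← red_coeff]
    exact Finsupp.mem_support_iff.mp hu
  let L : (Sm → ZMod q) →+ (S → ZMod q) :=
    AddMonoidHom.mk' (fun g u => (red q F * mk Sm g).coeff (u : Fin n → ℤ)) fun g g' => by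
      funext u
      rw [mk_add, mul_add, coeff_add, Finsupp.add_apply, Pi.add_apply]
  have hL : Function.Injective L := by
    intro g g' h
    apply mk_injective Sm
    apply mul_left_cancel₀ hFb
    refine ext_of_support (hsup _ (mk_support _ _)) (hsup _ (mk_support _ _)) fun u hu => ?_
    exact congrFun h ⟨u, hu⟩
  have hcard : Nat.card ((S → ZMod q) ⧸ L.range) ≤ q ^ D := by
    have e1 := AddSubgroup.card_eq_card_quotient_mul_card_addSubgroup L.range
    have e2 : Nat.card L.range = q ^ Sm.card := by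
      rw [← Nat.card_congr (AddMonoidHom.ofInjective hL).toEquiv]
      simp
    have e3 : Nat.card (S → ZMod q) = q ^ S.card := by simp
    rw [e2, e3] at e1
    have e4 : q ^ S.card ≤ q ^ D * q ^ Sm.card := by
      rw [← pow_add, add_comm]
      exact Nat.pow_le_pow_right hq.pos h4
    rw [e1] at e4
    exact Nat.le_of_mul_le_mul_right e4 (pow_pos hq.pos _)
  have : Fintype ((S → ZMod q) ⧸ L.range) := Fintype.ofFinite _
  let φ : LQ ℤ n → (S → ZMod q) ⧸ L.range := fun b =>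
    QuotientAddGroup.mk fun u => (red q b).coeff (u : Fin n → ℤ)
  have hk' : (Finset.univ : Finset ((S → ZMod q) ⧸ L.range)).card * k < P.card := by
    refine lt_of_le_of_lt (Nat.mul_le_mul_right k ?_) hk
    rwa [Finset.card_univ, ← Nat.card_eq_fintype_card]
  obtain ⟨y, -, hy⟩ := Finset.exists_lt_card_fiber_of_mul_lt_card_of_maps_to
    (f := φ) (fun a _ => Finset.mem_univ (φ a)) hk'
  obtain ⟨b₀, hb₀⟩ := Finset.card_pos.mp (lt_of_le_of_lt (Nat.zero_le k) hy)
  refine ⟨_, Finset.filter_subset _ _, hy, b₀, fun b hb => ?_⟩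
  obtain ⟨hb1, hb2⟩ := Finset.mem_filter.mp hb
  obtain ⟨hb3, hb4⟩ := Finset.mem_filter.mp hb₀
  obtain ⟨g, hg⟩ := QuotientAddGroup.eq.mp (hb4.trans hb2.symm)
  let G : LQ ℤ n := mk Sm fun m => ((g m).val : ℤ)
  have hG : red q G = mk Sm g := by
    refine ext_of_support ((red_support q G).trans (mk_support _ _)) (mk_support _ _)
      fun u hu => ?_
    rw [red_coeff, mk_coeff_mem Sm _ ⟨u, hu⟩, mk_coeff_mem Sm _ ⟨u, hu⟩]
    simp
  have hz : red q (b - b₀ - F * G) = 0 := by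
    rw [map_sub, map_sub, map_mul, hG, sub_eq_zero]
    refine ext_of_support
      (support_sub_sub ((red_support q b).trans (hP b hb1)) ((red_support q b₀).trans (hP b₀ hb3)))
      (hsup _ (mk_support _ _)) fun u hu => ?_
    have := congrFun hg ⟨u, hu⟩
    simp only [L, AddMonoidHom.mk'_apply, Pi.add_apply, Pi.neg_apply] at this
    rw [this, coeff_sub, Finsupp.sub_apply]
    ring
  obtain ⟨b', hb', e⟩ := exists_div q (S := S')
    (support_sub_sub (support_sub_sub ((hP b hb1).trans h2) ((hP b₀ hb3).trans h2))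
      (support_mul_sub (mk_support _ _) h3)) hz
  exact ⟨G, b', hb', by rw [← e]; ring⟩

lemma main (F : LQ ℤ n) {q : ℕ} (hq : q.Prime) (hF : ∃ u, ¬ (q : ℤ) ∣ F.coeff u) (D T : ℕ) :
    ∀ (Ω Ωm : ℕ → Finset (Fin n → ℤ)),
      (∀ j < T, ∀ m ∈ Ωm j, ∀ u, ¬ (q : ℤ) ∣ F.coeff u → m + u ∈ Ω j) →
      (∀ j < T, Ω j ⊆ Ω (j + 1)) →
      (∀ j < T, ∀ m ∈ Ωm j, ∀ u ∈ F.coeff.support, m + u ∈ Ω (j + 1)) →
      (∀ j < T, (Ω j).card ≤ (Ωm j).card + D) →
      ∀ P : Finset (LQ ℤ n), (∀ b ∈ P, b.coeff.support ⊆ Ω 0) → q ^ (T * D) < P.card →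
        ∃ b₁ ∈ P, ∃ b₂ ∈ P, b₁ ≠ b₂ ∧ ∃ G B' : LQ ℤ n, B'.coeff.support ⊆ Ω T ∧
          b₁ - b₂ = F * G + (q ^ T : ℕ) • B' := by
  classical
  induction T with
  | zero =>
    intro Ω Ωm _ _ _ _ P hP hc
    rw [zero_mul, pow_zero] at hc
    obtain ⟨b₁, h₁, b₂, h₂, hne⟩ := Finset.one_lt_card.mp hc
    exact ⟨b₁, h₁, b₂, h₂, hne, 0, b₁ - b₂, support_sub_sub (hP _ h₁) (hP _ h₂), by simp⟩
  | succ T ih =>
    intro Ω Ωm h1 h2 h3 h4 P hP hc
    have hc' : q ^ D * q ^ (T * D) < P.card := by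
      rwa [← pow_add, add_comm, ← Nat.succ_mul]
    obtain ⟨P', hP', hk, b₀, hb⟩ := step F hq hF D (Ω 0) (Ωm 0) (Ω 1) (h1 0 T.succ_pos)
      (h2 0 T.succ_pos) (h3 0 T.succ_pos) (h4 0 T.succ_pos) _ P hP hc'
    choose! G b' hb' e using hb
    by_cases hinj : Set.InjOn b' P'
    · obtain ⟨c₁, hc₁, c₂, hc₂, hne, G', B', hB', e'⟩ :=
        ih (fun j => Ω (j + 1)) (fun j => Ωm (j + 1))
          (fun j hj => h1 (j + 1) (Nat.succ_lt_succ hj))
          (fun j hj => h2 (j + 1) (Nat.succ_lt_succ hj))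
          (fun j hj => h3 (j + 1) (Nat.succ_lt_succ hj))
          (fun j hj => h4 (j + 1) (Nat.succ_lt_succ hj)) (P'.image b')
          (fun c hc => by
            obtain ⟨b, hb, rfl⟩ := Finset.mem_image.mp hc
            exact hb' b hb)
          (by rwa [Finset.card_image_of_injOn hinj])
      obtain ⟨b₁, h₁, rfl⟩ := Finset.mem_image.mp hc₁
      obtain ⟨b₂, h₂, rfl⟩ := Finset.mem_image.mp hc₂
      refine ⟨b₁, hP' h₁, b₂, hP' h₂, fun h => hne (by rw [h]), G b₁ - G b₂ + q • G', B', hB', ?_⟩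
      have : b₁ - b₂ = F * (G b₁ - G b₂) + q • (b' b₁ - b' b₂) := by
        conv_lhs => rw [e b₁ h₁, e b₂ h₂]
        rw [smul_sub]
        ring
      rw [this, e', smul_add, pow_succ', mul_smul, mul_add, mul_smul_comm, add_assoc]
    · unfold Set.InjOn at hinj
      push Not at hinj
      obtain ⟨b₁, h₁, b₂, h₂, he, hne⟩ := hinj
      refine ⟨b₁, hP' h₁, b₂, hP' h₂, hne, G b₁ - G b₂, 0, by simp, ?_⟩
      conv_lhs => rw [e b₁ h₁, e b₂ h₂, he]
      rw [smul_zero]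
      ring

end PigA

open PigA in
theorem pig : S_Pig := by
  classical
  intro n F q hq hF T D Ω Ωm h1 h2 h3 h4 H hH
  let f : (Ω 0 → Fin (H + 1)) → LQ ℤ n := fun g => mk (Ω 0) fun u => ((g u : ℕ) : ℤ)
  have hf : Function.Injective f := by
    intro g g' h
    funext u
    have := congrFun (mk_injective (Ω 0) h) u
    exact Fin.ext (by exact_mod_cast this)
  obtain ⟨b₁, h₁, b₂, h₂, hne, G, B', hB', e⟩ := main F hq hF D T Ω Ωm h1 h2 h3 h4
    (Finset.univ.image f)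
    (fun c hc => by
      obtain ⟨g, -, rfl⟩ := Finset.mem_image.mp hc
      exact mk_support _ _)
    (by
      rw [Finset.card_image_of_injective _ hf]
      simpa using hH)
  obtain ⟨g₁, -, rfl⟩ := Finset.mem_image.mp h₁
  obtain ⟨g₂, -, rfl⟩ := Finset.mem_image.mp h₂
  refine ⟨f g₁ - f g₂, sub_ne_zero.mpr hne,
    support_sub_sub (mk_support _ _) (mk_support _ _), fun u => ?_, G, B', hB', e⟩
  rw [coeff_sub, Finsupp.sub_apply]
  by_cases hu : u ∈ Ω 0
  · rw [mk_coeff_mem (Ω 0) _ ⟨u, hu⟩, mk_coeff_mem (Ω 0) _ ⟨u, hu⟩, abs_le]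
    have := (g₁ ⟨u, hu⟩).2
    have := (g₂ ⟨u, hu⟩).2
    constructor <;> omega
  · rw [mk_coeff_notMem _ _ hu, mk_coeff_notMem _ _ hu]
    simp

end Pool.Agent.P.MP_aef18a_nt
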