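import Pool.Agent.P.MP_aef18a_nt.Ad.Basic

namespace Pool.Agent.P.MP_aef18a_nt

open Polynomial

namespace Res1A

variable {𝕜 : Type} [CommRing 𝕜] {k : ℕ}

lemma bd_zero (ω : (Fin k → ℤ) → ℝ) (c : ℝ) : Bd ω c (0 : LQ 𝕜 k) := fun u hu => by simp at hu

lemma bd_mono {ω : (Fin k → ℤ) → ℝ} {c c' : ℝ} {A : LQ 𝕜 k} (h : Bd ω c A) (hc : c ≤ c') :
    Bd ω c' A := fun u hu => (h u hu).trans hc

lemma bd_sum {ι : Type*} {ω : (Fin k → ℤ) → ℝ} {c : ℝ} (s : Finset ι) (f : ι → LQ 𝕜 k)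
    (h : ∀ i ∈ s, Bd ω c (f i)) : Bd ω c (∑ i ∈ s, f i) :=
  Finset.sum_induction f (Bd ω c) (fun _ _ => bd_add) (bd_zero ω c) h

lemma bd_prod {ι : Type*} (ω : (Fin k → ℤ) →+ ℝ) (s : Finset ι) (c : ι → ℝ) (f : ι → LQ 𝕜 k)
    (h : ∀ i ∈ s, Bd ω (c i) (f i)) : Bd ω (∑ i ∈ s, c i) (∏ i ∈ s, f i) := by
  classical
  induction s using Finset.induction_on with
  | empty =>
    have := bd_single (ω := ω) (0 : Fin k → ℤ) (1 : 𝕜)
    rw [map_zero] at this
    rw [Finset.sum_empty, Finset.prod_empty, AddMonoidAlgebra.one_def]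
    exact this
  | insert a s ha ih =>
    rw [Finset.sum_insert ha, Finset.prod_insert ha]
    exact bd_mul ω (h a (by simp)) (ih fun i hi => h i (by simp [hi]))

/-- a determinant whose entries have bounds of the form column term plus row term -/
lemma bd_det {n : ℕ} (ω : (Fin k → ℤ) →+ ℝ) (M : Matrix (Fin n) (Fin n) (LQ 𝕜 k))
    (r c : Fin n → ℝ) (h : ∀ i j, Bd ω (c j + r i) (M i j)) :
    Bd ω (∑ j, c j + ∑ i, r i) M.det := by
  rw [Matrix.det_apply]
  refine bd_sum _ _ fun σ _ => ?_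
  have := bd_prod ω Finset.univ (fun j => c j + r (σ j)) (fun j => M (σ j) j) fun j _ => h _ _
  rw [Finset.sum_add_distrib, Equiv.sum_comp σ r] at this
  rcases Int.units_eq_one_or (Equiv.Perm.sign σ) with e | e
  · rwa [e, one_smul]
  · rw [e, Units.neg_smul, one_smul]
    exact bd_neg this

lemma bd_resultant (ω : (Fin k → ℤ) →+ ℝ) (f g : (LQ 𝕜 k)[X]) (m n : ℕ) (a b t : ℝ)
    (hf : ∀ j : ℕ, Bd ω (a - j * t) (f.coeff j)) (hg : ∀ j : ℕ, Bd ω (b - j * t) (g.coeff j)) :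
    Bd ω (n * a + m * b - n * m * t) (resultant f g m n) := by
  have := bd_det ω (sylvester f g m n) (fun i => -((i : ℕ) * t))
    (fun j => j.addCases (fun j₁ => b + (j₁ : ℕ) * t) fun j₁ => a + (j₁ : ℕ) * t) fun i j => by
      refine j.addCases (fun j₁ => ?_) fun j₁ => ?_
      · simp only [sylvester, Matrix.of_apply, Fin.addCases_left]
        split_ifs with h
        · refine bd_mono (hg _) (le_of_eq ?_)
          rw [Nat.cast_sub h.1]; ring
        · exact bd_zero _ _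
      · simp only [sylvester, Matrix.of_apply, Fin.addCases_right]
        split_ifs with h
        · refine bd_mono (hf _) (le_of_eq ?_)
          rw [Nat.cast_sub h.1]; ring
        · exact bd_zero _ _
  refine bd_mono this (le_of_eq ?_)
  simp only [Fin.sum_univ_add, Fin.addCases_left, Fin.addCases_right, Fin.val_castAdd,
    Fin.val_natAdd, Nat.cast_add, add_mul, neg_add, Finset.sum_add_distrib, Finset.sum_neg_distrib,
    Finset.sum_const, Finset.card_univ, Fintype.card_fin, nsmul_eq_mul]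
  ring

variable (ρ : (Fin k → ℤ) →+ ℤ) (v : Fin k → ℤ)

lemma bd_coeff (ω : (Fin k → ℤ) → ℝ) (A : LQ 𝕜 k) (j : ℕ) (c : ℝ)
    (h : ∀ u ∈ A.coeff.support, (ρ u).toNat = j → ω (u - ρ u • v) ≤ c) :
    Bd ω c ((toP ρ v A).coeff j) := by
  rw [toP, finsetSum_coeff]
  refine bd_sum _ _ fun u hu => ?_
  rw [coeff_monomial]
  split_ifs with e
  · exact bd_mono (bd_single _ _) (h u hu e)
  · exact bd_zero _ _

lemma natDegree_toP {δ : ℕ} {A : LQ 𝕜 k} (h : Rng ρ δ A) : (toP ρ v A).natDegree ≤ δ :=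
  natDegree_sum_le_of_forall_le _ _ fun u hu =>
    (natDegree_monomial_le _).trans (Int.toNat_le.2 (h u hu).2)

lemma eval_toP {δ : ℕ} {A : LQ 𝕜 k} (h : Rng ρ δ A) :
    (toP ρ v A).eval (AddMonoidAlgebra.single v 1) = A := by
  rw [toP, eval_finsetSum]
  conv_rhs => rw [← AddMonoidAlgebra.sum_coeff_single A, Finsupp.sum]
  refine Finset.sum_congr rfl fun u hu => ?_
  rw [eval_monomial, AddMonoidAlgebra.single_pow, AddMonoidAlgebra.single_mul_single, one_pow,
    mul_one, ← natCast_zsmul, Int.toNat_of_nonneg (h u hu).1, sub_add_cancel]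

lemma bd_toP (ω : (Fin k → ℤ) →+ ℝ) {δ : ℕ} {A : LQ 𝕜 k} (h : Rng ρ δ A) {b : ℝ} (hb : Bd ω b A)
    (j : ℕ) : Bd ω (b - j * ω v) ((toP ρ v A).coeff j) := by
  refine bd_coeff ρ v ω A j _ fun u hu e => ?_
  have e' : ρ u = j := by rw [← e, Int.toNat_of_nonneg (h u hu).1]
  rw [map_sub, e', map_zsmul, zsmul_eq_mul, Int.cast_natCast]
  exact sub_le_sub_right (hb u hu) _

/-- a functional vanishing on the kernel of `ρ` is nonpositive on the resultant -/
lemma bd_ker (hv : ρ v = 1) (ω : (Fin k → ℤ) →+ ℝ) (hω : ∀ u, ρ u = 0 → ω u = 0) (δ e : ℕ)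
    (G A : LQ 𝕜 k) : Bd ω 0 (rs ρ v δ e G A) := by
  have key : ∀ (B : LQ 𝕜 k) (j : ℕ), Bd ω (0 - j * 0) ((toP ρ v B).coeff j) := fun B j =>
    bd_coeff ρ v ω B j _ fun u _ _ => by
      rw [hω _ (by rw [map_sub, map_zsmul, hv, smul_eq_mul, mul_one, sub_self])]
      simp
  simpa [rs] using bd_resultant ω (toP ρ v G) (toP ρ v A) δ e 0 0 0 (key G) (key A)

end Res1A

open Res1A in
theorem res1 : S_Res1 := by
  intro 𝕜 _ k ρ v hv δ e G A hG hA
  refine ⟨fun h => ?_, fun u hu => ?_, fun ω g b hg hb => ?_⟩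
  · obtain ⟨p, q, -, -, h1⟩ := exists_mul_add_mul_eq_C_resultant (toP ρ v G) (toP ρ v A)
      (natDegree_toP ρ v hG) (natDegree_toP ρ v hA) h
    have h2 := congrArg (eval (AddMonoidAlgebra.single v 1)) h1
    rw [eval_add, eval_mul, eval_mul, eval_C, eval_toP ρ v hG, eval_toP ρ v hA] at h2
    rw [rs, ← h2]
    exact Ideal.add_mem _ (Ideal.mul_mem_right _ _ (Ideal.subset_span (by simp)))
      (Ideal.mul_mem_right _ _ (Ideal.subset_span (by simp)))
  · have h1 := bd_ker ρ v hv ((Int.castAddHom ℝ).comp ρ) (fun u h => by simp [h]) δ e G A u hu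
    have h2 := bd_ker ρ v hv (-(Int.castAddHom ℝ).comp ρ) (fun u h => by simp [h]) δ e G A u hu
    simp only [AddMonoidHom.neg_apply, AddMonoidHom.comp_apply, Int.coe_castAddHom] at h1 h2
    exact_mod_cast le_antisymm h1 (neg_nonpos.1 h2)
  · exact bd_resultant ω _ _ δ e g b (ω v) (bd_toP ρ v ω hG hg) (bd_toP ρ v ω hA hb)

end Pool.Agent.P.MP_aef18a_nt
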