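import Pool.Agent.P.MP_aef18a_nt.Ad.Basic

/-! The resultant of two coprime Laurent polynomials does not vanish. -/

namespace Pool.Agent.P.MP_aef18a_nt

open Polynomial

namespace Res2A

theorem exists_ker {R : Type*} [CommRing R] [IsDomain R] {m n : ℕ} (f g : R[X])
    (hf : f.natDegree ≤ m) (hg : g.natDegree ≤ n) (h : resultant f g m n = 0) :
    ∃ p q : R[X], p.degree < m ∧ q.degree < n ∧ (p ≠ 0 ∨ q ≠ 0) ∧ f * q + g * p = 0 := by
  classical
  obtain ⟨w, hw, hw0⟩ := Matrix.exists_mulVec_eq_zero_iff.2 h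
  let b₁ := ((degreeLT.basis R m).prod (degreeLT.basis R n)).reindex finSumFinEquiv
  let b₂ := degreeLT.basis R (m + n)
  let x := b₁.equivFun.symm w
  have hx : ⇑(b₁.repr x) = w := b₁.equivFun.apply_symm_apply w
  have h1 := LinearMap.toMatrix_mulVec_repr b₁ b₂ (sylvesterMap f g hf hg) x
  rw [toMatrix_sylvesterMap', hx, hw0] at h1
  have h2 : sylvesterMap f g hf hg x = 0 := by
    apply b₂.repr.injective
    rw [map_zero]
    exact DFunLike.coe_injective h1.symm
  refine ⟨x.1, x.2, mem_degreeLT.1 x.1.2, mem_degreeLT.1 x.2.2, ?_, congrArg Subtype.val h2⟩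
  by_contra hc
  push Not at hc
  have : x = 0 := Prod.ext (Subtype.ext hc.1) (Subtype.ext hc.2)
  rw [this, map_zero] at hx
  exact hw hx.symm

variable {𝕜 : Type} [Field 𝕜] {k : ℕ}

/-- the Laurent polynomials supported in the kernel of `ρ` -/
def K (𝕜 : Type) [Field 𝕜] (ρ : (Fin k → ℤ) →+ ℤ) : Subring (LQ 𝕜 k) where
  carrier := {A | ∀ u ∈ A.coeff.support, ρ u = 0}
  mul_mem' := fun {A B} hA hB g hg => by
    classical
    obtain ⟨x, hx, y, hy, rfl⟩ :=
      Finset.mem_add.mp (AddMonoidAlgebra.support_coeff_mul_subset A B hg)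
    rw [map_add, hA x hx, hB y hy, add_zero]
  one_mem' := fun u hu => by
    rw [AddMonoidAlgebra.one_def, AddMonoidAlgebra.coeff_single] at hu
    rw [Finset.mem_singleton.mp (Finsupp.support_single_subset hu), map_zero]
  add_mem' := fun {A B} hA hB u hu => by
    classical
    rw [AddMonoidAlgebra.coeff_add] at hu
    rcases Finset.mem_union.mp (Finsupp.support_add hu) with h | h
    · exact hA u h
    · exact hB u h
  zero_mem' := fun u hu => by simp at hu
  neg_mem' := fun {A} hA u hu => by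
    rw [AddMonoidAlgebra.coeff_neg, Finsupp.support_neg] at hu
    exact hA u hu

variable {ρ : (Fin k → ℤ) →+ ℤ} {v : Fin k → ℤ}

theorem single_mem (hv : ρ v = 1) (u : Fin k → ℤ) (c : 𝕜) :
    AddMonoidAlgebra.single (u - ρ u • v) c ∈ K 𝕜 ρ := fun w hw => by
  rw [AddMonoidAlgebra.coeff_single] at hw
  rw [Finset.mem_singleton.mp (Finsupp.support_single_subset hw), map_sub, map_zsmul, hv]
  simp

/-- `toP` with coefficients in the subring -/
noncomputable def toS (hv : ρ v = 1) (A : LQ 𝕜 k) : (K 𝕜 ρ)[X] :=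
  ∑ u ∈ A.coeff.support, monomial (ρ u).toNat ⟨_, single_mem hv u (A.coeff u)⟩

theorem map_toS (hv : ρ v = 1) (A : LQ 𝕜 k) : (toS hv A).map (K 𝕜 ρ).subtype = toP ρ v A := by
  simp only [toS, toP, Polynomial.map_sum, map_monomial]
  rfl

theorem natDegree_toS (hv : ρ v = 1) {δ : ℕ} {A : LQ 𝕜 k} (h : Rng ρ δ A) :
    (toS hv A).natDegree ≤ δ :=
  natDegree_sum_le_of_forall_le _ _ fun u hu =>
    (natDegree_monomial_le _).trans (Int.toNat_le.2 (h u hu).2)

/-- evaluation at the monomial with exponent `v` -/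
noncomputable def evK (ρ : (Fin k → ℤ) →+ ℤ) (v : Fin k → ℤ) : (K 𝕜 ρ)[X] →+* LQ 𝕜 k :=
  eval₂RingHom (K 𝕜 ρ).subtype (AddMonoidAlgebra.single v 1)

theorem ev_monomial (i : ℕ) (c : K 𝕜 ρ) :
    evK ρ v (monomial i c) = c.1 * AddMonoidAlgebra.single (i • v) 1 := by
  simp [evK, AddMonoidAlgebra.single_pow]

theorem ev_toS (hv : ρ v = 1) {δ : ℕ} {A : LQ 𝕜 k} (h : Rng ρ δ A) : evK ρ v (toS hv A) = A := by
  rw [toS, map_sum]
  conv_rhs => rw [← AddMonoidAlgebra.sum_coeff_single A, Finsupp.sum]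
  refine Finset.sum_congr rfl fun u hu => ?_
  rw [ev_monomial, AddMonoidAlgebra.single_mul_single, mul_one, ← natCast_zsmul,
    Int.toNat_of_nonneg (h u hu).1, sub_add_cancel]

theorem coeff_ev (P : (K 𝕜 ρ)[X]) (u : Fin k → ℤ) :
    (evK ρ v P).coeff u = ∑ i ∈ P.support, (P.coeff i).1.coeff (u - i • v) := by
  conv_lhs => rw [P.as_sum_support, map_sum]
  rw [AddMonoidAlgebra.coeff_sum, Finsupp.finsetSum_apply]
  refine Finset.sum_congr rfl fun i _ => ?_
  rw [ev_monomial, AddMonoidAlgebra.coeff_mul_single_apply, mul_one, sub_eq_add_neg]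

theorem rho_eq (hv : ρ v = 1) {c : K 𝕜 ρ} {u : Fin k → ℤ} {i : ℕ}
    (h : c.1.coeff (u - i • v) ≠ 0) : ρ u = i := by
  have := c.2 _ (Finsupp.mem_support_iff.2 h)
  rw [map_sub, map_nsmul, hv] at this
  simpa [sub_eq_zero] using this

theorem ev_eq_zero (hv : ρ v = 1) {P : (K 𝕜 ρ)[X]} (h : evK ρ v P = 0) : P = 0 := by
  ext i w
  by_contra hc
  have hc' : (P.coeff i).1.coeff w ≠ 0 := by simpa using hc
  have hi : i ∈ P.support := mem_support_iff.2 fun e => hc' (by simp [e])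
  have h1 := coeff_ev (v := v) P (w + i • v)
  have e0 : ρ (w + i • v) = i := rho_eq hv (c := P.coeff i) (by simpa using hc')
  rw [h, Finset.sum_eq_single_of_mem i hi fun j _ hj => by
    by_contra hn
    exact hj (by exact_mod_cast (rho_eq hv hn).symm.trans e0)] at h1
  exact hc' (by simpa using h1.symm)

theorem rng_ev (hv : ρ v = 1) {P : (K 𝕜 ρ)[X]} {δ : ℕ} (hP : P.degree < δ) {u : Fin k → ℤ}
    (hu : u ∈ (evK ρ v P).coeff.support) : 0 ≤ ρ u ∧ ρ u < δ := by
  rw [Finsupp.mem_support_iff, coeff_ev] at hu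
  obtain ⟨i, hi, h⟩ := Finset.exists_ne_zero_of_sum_ne_zero hu
  have h1 : (i : WithBot ℕ) < δ := (le_degree_of_mem_supp i hi).trans_lt hP
  rw [rho_eq hv h]
  exact ⟨Int.natCast_nonneg i, by exact_mod_cast h1⟩

end Res2A

open Res2A

theorem res2 (hu : S_UFD) : S_Res2 := by
  intro 𝕜 _ k ρ v hv δ e G A hG hA ⟨u₀, hu₀, e₀⟩ ⟨u₁, hu₁, e₁⟩ hc h0
  have := hu 𝕜 k
  rw [rs, ← map_toS hv, ← map_toS hv, resultant_map_map] at h0
  obtain ⟨p, q, hp, -, hpq, h1⟩ := exists_ker _ _ (natDegree_toS hv hG) (natDegree_toS hv hA)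
    (Subtype.ext h0)
  have h2 := congrArg (evK ρ v) h1
  rw [map_add, map_mul, map_mul, ev_toS hv hG, ev_toS hv hA, map_zero] at h2
  have G0 : G ≠ 0 := by rintro rfl; simp at hu₀
  have h3 : G ∣ evK ρ v p :=
    hc.dvd_of_dvd_mul_left ⟨-evK ρ v q, by linear_combination h2⟩
  have h4 : evK ρ v p = 0 := by
    by_contra hn
    have hw : Wd ((Int.castAddHom ℝ).comp ρ) ((δ : ℝ) - 1) (evK ρ v p) := fun x hx y hy => by
      have a1 : ρ x + 1 ≤ δ := (rng_ev hv hp hx).2
      have a2 : 0 ≤ ρ y := (rng_ev hv hp hy).1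
      have b1 : ((ρ x : ℤ) : ℝ) + 1 ≤ δ := by exact_mod_cast a1
      have b2 : (0 : ℝ) ≤ ((ρ y : ℤ) : ℝ) := by exact_mod_cast a2
      simp only [AddMonoidHom.comp_apply, Int.coe_castAddHom]
      linarith
    have := Wd.of_dvd _ hw hn h3 u₁ hu₁ u₀ hu₀
    simp only [AddMonoidHom.comp_apply, Int.coe_castAddHom, e₀, e₁] at this
    push_cast at this
    linarith
  rw [h4, mul_zero, add_zero, mul_eq_zero] at h2
  rcases hpq with h | h
  · exact h (ev_eq_zero hv h4)
  · exact h (ev_eq_zero hv (h2.resolve_left G0))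

end Pool.Agent.P.MP_aef18a_nt
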