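import Pool.Agent.P.MP_aef18a_nt.Ad.Basic

namespace Pool.Agent.P.MP_aef18a_nt

open AddMonoidAlgebra Polynomial

namespace Res3A

variable {𝕜 : Type} [CommRing 𝕜] {k : ℕ} (ρ : (Fin k → ℤ) →+ ℤ) (v : Fin k → ℤ)

lemma toP_sum (A : LQ 𝕜 k) : toP ρ v A = A.coeff.sum fun u r =>
    monomial (ρ u).toNat (AddMonoidAlgebra.single (u - ρ u • v) r : LQ 𝕜 k) := rfl

lemma toP_add (A B : LQ 𝕜 k) : toP ρ v (A + B) = toP ρ v A + toP ρ v B := by
  rw [toP_sum, toP_sum, toP_sum, AddMonoidAlgebra.coeff_add, Finsupp.sum_add_index']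
  · intro u; simp
  · intro u a b; rw [AddMonoidAlgebra.single_add, map_add]

lemma toP_zero : toP ρ v (0 : LQ 𝕜 k) = 0 := by simp [toP]

lemma toP_single (u : Fin k → ℤ) (r : 𝕜) : toP ρ v (AddMonoidAlgebra.single u r : LQ 𝕜 k) =
    monomial (ρ u).toNat (AddMonoidAlgebra.single (u - ρ u • v) r : LQ 𝕜 k) := by
  rw [toP_sum, AddMonoidAlgebra.coeff_single, Finsupp.sum_single_index]
  simp

lemma toP_finsum {ι : Type} (s : Finset ι) (f : ι → LQ 𝕜 k) :
    toP ρ v (∑ j ∈ s, f j) = ∑ j ∈ s, toP ρ v (f j) := by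
  classical
  induction s using Finset.induction_on with
  | empty => simp [toP_zero]
  | insert a s ha ih => rw [Finset.sum_insert ha, Finset.sum_insert ha, toP_add, ih]

lemma eq_sum (A : LQ 𝕜 k) :
    A = ∑ u ∈ A.coeff.support, AddMonoidAlgebra.single u (A.coeff u) :=
  (AddMonoidAlgebra.sum_coeff_single A).symm

lemma toP_mul (A B : LQ 𝕜 k) (hA : ∀ u ∈ A.coeff.support, 0 ≤ ρ u)
    (hB : ∀ u ∈ B.coeff.support, 0 ≤ ρ u) : toP ρ v (A * B) = toP ρ v A * toP ρ v B := by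
  conv_lhs => rw [eq_sum A, eq_sum B, Finset.sum_mul_sum, toP_finsum]
  rw [toP, toP, Finset.sum_mul_sum]
  refine Finset.sum_congr rfl fun u hu => ?_
  rw [toP_finsum]
  refine Finset.sum_congr rfl fun w hw => ?_
  rw [single_mul_single, toP_single, monomial_mul_monomial, single_mul_single, map_add,
    Int.toNat_add (hA u hu) (hB w hw), add_smul]
  congr 2
  abel

lemma natDegree_toP {δ : ℕ} {A : LQ 𝕜 k} (h : Rng ρ δ A) : (toP ρ v A).natDegree ≤ δ := by
  refine natDegree_sum_le_of_forall_le _ _ fun u hu => (natDegree_monomial_le _).trans ?_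
  have := h u hu
  omega

end Res3A

open Res3A in
theorem res3 : S_Res3 := by
  intro 𝕜 _ k ρ v _ δ e G A hG hA
  refine ⟨fun ε Z hZ hε => ?_, fun m hm => ?_⟩
  · rw [rs, rs, toP_add, toP_mul ρ v G Z (fun u hu => (hG u hu).1) (fun u hu => (hZ u hu).1)]
    exact resultant_add_mul_right _ _ _ _ _
      ((Nat.add_le_add_right (natDegree_toP ρ v hZ) δ).trans hε) (natDegree_toP ρ v hG)
  · have h1 : ∀ u ∈ (AddMonoidAlgebra.single m (1 : 𝕜) : LQ 𝕜 k).coeff.support, 0 ≤ ρ u := by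
      intro u hu
      rw [AddMonoidAlgebra.coeff_single] at hu
      rw [Finset.mem_singleton.mp (Finsupp.support_single_subset hu), hm]
    rw [rs, rs, toP_mul ρ v _ A h1 (fun u hu => (hA u hu).1), toP_single, hm, Int.toNat_zero,
      monomial_zero_left, resultant_C_mul_right, zero_smul, sub_zero, AddMonoidAlgebra.single_pow,
      one_pow]

end Pool.Agent.P.MP_aef18a_nt
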