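import Pool.Agent.P.MP_aef18a_nt.Ad.Basic

namespace Pool.Agent.P.MP_aef18a_nt

open AddMonoidAlgebra

namespace TTA

variable {k : ℕ}

lemma mem_shift {n u : Fin k → ℤ} {A : LQ ℂ k} :
    u ∈ (single n 1 * A : LQ ℂ k).coeff.support ↔ -n + u ∈ A.coeff.support := by
  rw [Finsupp.mem_support_iff, Finsupp.mem_support_iff, coeff_single_mul_apply, one_mul]

lemma shift_bound (ω : (Fin k → ℤ) →+ ℝ) {b b' : ℝ} {R : LQ ℂ k} (n : Fin k → ℤ) (hR : R ≠ 0)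
    (h1 : Bd ω b R) (h2 : Bd (-ω : (Fin k → ℤ) →+ ℝ) b' R) (h3 : Bd ω b (single n 1 * R))
    (h4 : Bd (-ω : (Fin k → ℤ) →+ ℝ) b' (single n 1 * R)) : |ω n| ≤ b + b' := by
  obtain ⟨m, -, hm⟩ := exists_top ω hR
  obtain ⟨z, hz, -⟩ := lev_ne_zero_iff.mp hm
  have hz' : n + z ∈ (single n 1 * R : LQ ℂ k).coeff.support := by
    rw [mem_shift, neg_add_cancel_left]; exact hz
  have a1 := h1 z hz
  have a2 := h2 z hz
  have a3 := h3 _ hz'
  have a4 := h4 _ hz'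
  simp only [AddMonoidHom.neg_apply, map_add] at a1 a2 a3 a4
  rw [abs_le]
  constructor <;> linarith

lemma cl_shift {G A : LQ ℂ k} {j : ℕ} (n : Fin k → ℤ) (h : Cl G j A) :
    Cl (single n 1 * G) j (single (j • n) 1 * A) := by
  intro ω g hg
  have h1 : Bd ω (g - ω n) G := by
    intro u hu
    have := hg (n + u) (by rw [mem_shift, neg_add_cancel_left]; exact hu)
    rw [map_add] at this
    linarith
  intro u hu
  have := h ω _ h1 _ (mem_shift.mp hu)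
  rw [map_add, map_neg, map_nsmul, nsmul_eq_mul] at this
  linarith

lemma core (h1 : S_Res1) (h2 : S_Res2) (h3 : S_Res3) (ρ : (Fin 2 → ℤ) →+ ℤ) (v m : Fin 2 → ℤ)
    (hv : ρ v = 1) (hm : ρ m = 0) (G : LQ ℂ 2) (hG : Prime G) (δ : ℕ) (hδ : 0 < δ)
    (hR : Rng ρ δ G) (hlo : ∃ u ∈ G.coeff.support, ρ u = 0)
    (hhi : ∃ u ∈ G.coeff.support, ρ u = δ) (j : ℕ) (A₁ A₂ : LQ ℂ 2) (W : ℝ)
    (c1 : Cl G j A₁) (c2 : Cl G j A₂) (hnd : ¬ G ∣ A₁) (hd : G ∣ single m 1 * A₁ - A₂)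
    (hW : Wd x0 W G) : |(m 0 : ℝ)| ≤ 2 * j * W := by
  have hW0 : 0 ≤ W := hW.nonneg hG.ne_zero
  obtain ⟨g, g1, g2⟩ := exists_top x0h hG.ne_zero
  obtain ⟨g', g1', g2'⟩ := exists_top (-x0h : (Fin 2 → ℤ) →+ ℝ) hG.ne_zero
  have hgg : g + g' ≤ W := by
    obtain ⟨u, hu, e⟩ := lev_ne_zero_iff.mp g2
    obtain ⟨u', hu', e'⟩ := lev_ne_zero_iff.mp g2'
    have := hW u hu u' hu'
    rw [← x0h_coe] at this
    simp only [AddMonoidHom.neg_apply] at e'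
    linarith
  let ρR : (Fin 2 → ℤ) →+ ℝ := (Int.castAddHom ℝ).comp ρ
  have hρ : ∀ u, ρR u = (ρ u : ℝ) := fun _ => rfl
  have b1 : Bd ρR δ G := fun u hu => by rw [hρ]; exact_mod_cast (hR u hu).2
  have b2 : Bd (-ρR : (Fin 2 → ℤ) →+ ℝ) 0 G := fun u hu => by
    rw [AddMonoidHom.neg_apply, hρ, neg_nonpos]; exact_mod_cast (hR u hu).1
  have rng : ∀ A, Cl G j A → Rng ρ (j * δ) A := by
    intro A hA u hu
    have a1 := hA _ _ b1 u hu
    have a2 := hA _ _ b2 u hu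
    rw [AddMonoidHom.neg_apply, hρ, mul_zero, neg_nonpos] at a2
    rw [hρ] at a1
    exact ⟨by exact_mod_cast a2, by exact_mod_cast a1⟩
  have r1 := rng _ c1
  have r2 := rng _ c2
  have hA1 : A₁ ≠ 0 := by rintro rfl; exact hnd (dvd_zero _)
  have hj : (0 : ℝ) ≤ j := Nat.cast_nonneg _
  obtain ⟨Z, hZ⟩ := hd
  by_cases hZ0 : Z = 0
  · rw [hZ0, mul_zero, sub_eq_zero] at hZ
    have := shift_bound x0h m hA1 (c1 _ _ g1) (c1 _ _ g1') (hZ ▸ c2 _ _ g1) (hZ ▸ c2 _ _ g1')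
    have e : x0h m = (m 0 : ℝ) := rfl
    rw [e] at this
    nlinarith [mul_le_mul_of_nonneg_left hgg hj, mul_nonneg hj hW0]
  have rD : ∀ z ∈ (G * Z).coeff.support, 0 ≤ ρ z ∧ ρ z ≤ (j * δ : ℕ) := by
    classical
    intro z hz
    rw [← hZ, sub_eq_add_neg, coeff_add] at hz
    rcases Finset.mem_union.mp (Finsupp.support_add hz) with h | h
    · have := r1 _ (mem_shift.mp h)
      rwa [map_add, map_neg, hm, neg_zero, zero_add] at this
    · rw [coeff_neg, Finsupp.support_neg] at h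
      exact r2 z h
  obtain ⟨u, -, w, hw, z, hz, a1, a2, a3⟩ := exists_top_mul ρR hG.ne_zero hZ0
  obtain ⟨u', -, w', -, z', hz', a1', a2', a3'⟩ :=
    exists_top_mul (-ρR : (Fin 2 → ℤ) →+ ℝ) hG.ne_zero hZ0
  obtain ⟨ulo, hlo1, hlo2⟩ := hlo
  obtain ⟨uhi, hhi1, hhi2⟩ := hhi
  have e1 : ρ uhi ≤ ρ u := by
    have := a1 uhi hhi1
    rw [hρ, hρ] at this
    exact_mod_cast this
  have e2 : ρ u' ≤ ρ ulo := by
    have := a1' ulo hlo1
    simp only [AddMonoidHom.neg_apply, hρ, neg_le_neg_iff] at this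
    exact_mod_cast this
  have e3 : ρ z = ρ u + ρ w := by
    rw [hρ, hρ, hρ] at a3
    exact_mod_cast a3
  have e4 : ρ z' = ρ u' + ρ w' := by
    simp only [AddMonoidHom.neg_apply, hρ] at a3'
    have : (ρ z' : ℝ) = ρ u' + ρ w' := by linarith
    exact_mod_cast this
  have e5 := (rD z hz).2
  have e6 := (rD z' hz').1
  have rZ' : ∀ y ∈ Z.coeff.support, 0 ≤ ρ y ∧ ρ y ≤ ρ w := by
    intro y hy
    have t1 := a2 y hy
    have t2 := a2' y hy
    simp only [AddMonoidHom.neg_apply, hρ, neg_le_neg_iff] at t1 t2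
    have t3 : ρ w' ≤ ρ y := by exact_mod_cast t2
    exact ⟨by omega, by exact_mod_cast t1⟩
  obtain ⟨ε, hε⟩ := Int.eq_ofNat_of_zero_le (rZ' w hw).1
  have rZ : Rng ρ ε Z := fun y hy => hε ▸ rZ' y hy
  have hle : ε + δ ≤ j * δ := by omega
  have q1 := (h3 ℂ 2 ρ v hv δ (j * δ) G A₂ hR r2).1 ε Z rZ hle
  have q2 := (h3 ℂ 2 ρ v hv δ (j * δ) G A₁ hR r1).2 m hm
  have q3 : A₂ + G * Z = single m 1 * A₁ := by rw [← hZ]; ring
  rw [q3, q2] at q1
  have q4 := h2 ℂ 2 ρ v hv δ (j * δ) G A₁ hR r1 ⟨ulo, hlo1, hlo2⟩ ⟨uhi, hhi1, hhi2⟩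
    (hG.irreducible.isRelPrime_iff_not_dvd.mpr hnd)
  have s1 := (h1 ℂ 2 ρ v hv δ (j * δ) G A₁ hR r1).2.2
  have s2 := (h1 ℂ 2 ρ v hv δ (j * δ) G A₂ hR r2).2.2
  have := shift_bound x0h (δ • m) q4 (s1 _ _ _ g1 (c1 _ _ g1)) (s1 _ _ _ g1' (c1 _ _ g1'))
    (q1 ▸ s2 _ _ _ g1 (c2 _ _ g1)) (q1 ▸ s2 _ _ _ g1' (c2 _ _ g1'))
  have e : x0h m = (m 0 : ℝ) := rfl
  have hδR : (0 : ℝ) < δ := by exact_mod_cast hδ
  rw [map_nsmul, e, nsmul_eq_mul, abs_mul, abs_of_pos hδR, AddMonoidHom.neg_apply] at this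
  push_cast at this
  refine le_of_mul_le_mul_left ?_ hδR
  nlinarith [mul_le_mul_of_nonneg_left hgg (mul_nonneg hj hδR.le)]

end TTA

theorem tt (h1 : S_Res1) (h2 : S_Res2) (h3 : S_Res3) : S_TT := by
  intro G hG hN j A₁ A₂ m W c1 c2 hnd hd hW
  by_cases hm0 : m = 0
  · have := hW.nonneg hG.ne_zero
    rw [hm0]
    simp only [Pi.zero_apply, Int.cast_zero, abs_zero]
    positivity
  have hg : 0 < Int.gcd (m 0) (m 1) := by
    rw [Int.gcd_pos_iff]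
    by_contra h
    push Not at h
    apply hm0
    ext i
    fin_cases i
    · exact h.1
    · exact h.2
  obtain ⟨p, r, hpr, e0, e1⟩ := Int.exists_gcd_one hg
  obtain ⟨x, y, hxy⟩ := Int.isCoprime_iff_gcd_eq_one.mpr hpr
  let ρ : (Fin 2 → ℤ) →+ ℤ := AddMonoidHom.mk' (fun u => p * u 1 - r * u 0) fun u w => by
    simp only [Pi.add_apply]; ring
  have hρ : ∀ u, ρ u = p * u 1 - r * u 0 := fun _ => rfl
  let v : Fin 2 → ℤ := ![-y, x]
  have hv : ρ v = 1 := by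
    rw [hρ]; simp only [v, Matrix.cons_val_zero, Matrix.cons_val_one]; linarith
  have hm : ρ m = 0 := by
    rw [hρ]
    linear_combination p * e1 - r * e0
  obtain ⟨u, hu, u', hu', hne⟩ := hN m hm0
  have hne' : ρ u ≠ ρ u' := by
    intro h
    apply hne
    rw [hρ, hρ] at h
    linear_combination (u 1 - u' 1) * e0 - (u 0 - u' 0) * e1 + (Int.gcd (m 0) (m 1) : ℤ) * h
  obtain ⟨ulo, hlo, hlo'⟩ := Finset.exists_min_image G.coeff.support ρ ⟨u, hu⟩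
  obtain ⟨uhi, hhi, hhi'⟩ := Finset.exists_max_image G.coeff.support ρ ⟨u, hu⟩
  obtain ⟨δ, hδ⟩ := Int.eq_ofNat_of_zero_le (sub_nonneg.mpr (hlo' uhi hhi))
  have hδ0 : 0 < δ := by
    have := hlo' u hu
    have := hlo' u' hu'
    have := hhi' u hu
    have := hhi' u' hu'
    omega
  let n : Fin 2 → ℤ := -ulo
  have hn : IsUnit (single n 1 : LQ ℂ 2) := isUnit_single n isUnit_one
  have hjn : IsUnit (single (j • n) 1 : LQ ℂ 2) := isUnit_single _ isUnit_one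
  refine TTA.core h1 h2 h3 ρ v m hv hm (single n 1 * G)
    ((associated_unit_mul_right G _ hn).prime hG) δ hδ0 ?_ ⟨n + ulo, ?_, ?_⟩ ⟨n + uhi, ?_, ?_⟩ j
    (single (j • n) 1 * A₁) (single (j • n) 1 * A₂) W (TTA.cl_shift n c1) (TTA.cl_shift n c2)
    ?_ ?_ ?_
  · intro z hz
    have hz' := TTA.mem_shift.mp hz
    have a1 := hlo' _ hz'
    have a2 := hhi' _ hz'
    simp only [n, neg_neg, map_add] at a1 a2
    constructor <;> omega
  · rw [TTA.mem_shift, neg_add_cancel_left]; exact hlo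
  · simp [n]
  · rw [TTA.mem_shift, neg_add_cancel_left]; exact hhi
  · simp only [n, map_add, map_neg]; omega
  · rwa [hn.mul_left_dvd, hjn.dvd_mul_left]
  · rw [hn.mul_left_dvd, mul_left_comm, ← mul_sub]
    exact hd.mul_left _
  · intro z hz z' hz'
    have := hW _ (TTA.mem_shift.mp hz) _ (TTA.mem_shift.mp hz')
    rw [← x0h_coe] at this ⊢
    simp only [map_add] at this
    linarith

end Pool.Agent.P.MP_aef18a_nt
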