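import Pool.Agent.P.MP_aef18a_nt.Ad.Basic

namespace Pool.Agent.P.MP_aef18a_nt

open Polynomial LaurentPolynomial

namespace UfdA

/-- splitting off the first coordinate -/
def spl (k : ℕ) : (Fin (k + 1) → ℤ) ≃+ ℤ × (Fin k → ℤ) where
  toFun u := (u 0, fun i => u i.succ)
  invFun p := Fin.cons p.1 p.2
  left_inv u := by
    funext i
    refine Fin.cases ?_ (fun j => ?_) i <;> simp
  right_inv p := by simp
  map_add' _ _ := rfl

end UfdA

theorem ufd : S_UFD := by
  intro 𝕜 _ k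
  induction k with
  | zero =>
    let e : LQ 𝕜 0 ≃+* 𝕜 := AddMonoidAlgebra.uniqueRingEquiv _
    exact e.symm.toMulEquiv.uniqueFactorizationMonoid inferInstance
  | succ k ih =>
    let e : LQ 𝕜 (k + 1) ≃+* (LQ 𝕜 k)[T;T⁻¹] :=
      (AddMonoidAlgebra.mapDomainRingEquiv 𝕜 (UfdA.spl k)).trans AddMonoidAlgebra.curryRingEquiv
    have u : UniqueFactorizationMonoid (LQ 𝕜 k)[T;T⁻¹] :=
      .of_isLocalization (Submonoid.powers (X : (LQ 𝕜 k)[X])) _
    exact e.symm.toMulEquiv.uniqueFactorizationMonoid u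

end Pool.Agent.P.MP_aef18a_nt
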