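import Pool.Agent.P.MP_aef18a_nt.Ad.Blocks
import Pool.Agent.P.MP_aef18a_nt.Ad.Cone2
import Pool.Agent.P.MP_aef18a_nt.Ad.Const
import Pool.Agent.P.MP_aef18a_nt.Ad.Deg
import Pool.Agent.P.MP_aef18a_nt.Ad.Dir
import Pool.Agent.P.MP_aef18a_nt.Ad.Dob
import Pool.Agent.P.MP_aef18a_nt.Ad.Dob1
import Pool.Agent.P.MP_aef18a_nt.Ad.Dob2
import Pool.Agent.P.MP_aef18a_nt.Ad.Dob3
import Pool.Agent.P.MP_aef18a_nt.Ad.Dob4
import Pool.Agent.P.MP_aef18a_nt.Ad.Dob5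
import Pool.Agent.P.MP_aef18a_nt.Ad.Elim
import Pool.Agent.P.MP_aef18a_nt.Ad.Gap
import Pool.Agent.P.MP_aef18a_nt.Ad.Geo
import Pool.Agent.P.MP_aef18a_nt.Ad.M2
import Pool.Agent.P.MP_aef18a_nt.Ad.ML
import Pool.Agent.P.MP_aef18a_nt.Ad.Norm
import Pool.Agent.P.MP_aef18a_nt.Ad.Pig
import Pool.Agent.P.MP_aef18a_nt.Ad.Res1
import Pool.Agent.P.MP_aef18a_nt.Ad.Res2
import Pool.Agent.P.MP_aef18a_nt.Ad.Res3
import Pool.Agent.P.MP_aef18a_nt.Ad.Sieg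
import Pool.Agent.P.MP_aef18a_nt.Ad.TT
import Pool.Agent.P.MP_aef18a_nt.Ad.Ufd

namespace Pool.Agent.P.MP_aef18a_nt

/-- weak Dobrowolski bound -/
theorem dobT : S_Dob := dob dob1 dob2 dob3 dob4 dob5

/-- Bombieri and Zannier: common zeros on one-parameter subgroups are torsion -/
theorem czT : S_CZ :=
  cz ufd (czp ufd (czn ufd (elim res1 (res2 ufd))
    (geoS ufd (m2 (tt res1 (res2 ufd) res3) const)) (deg gap dobT) degUp dir (avoid ufd)))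

theorem mlT : S_ML := ml gap (sieg pig)

end Pool.Agent.P.MP_aef18a_nt
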