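import Pool.Agent.P.MP_aef18a_nt.Ad.Defs

namespace Pool.Agent.P.MP_aef18a_nt

open AddMonoidAlgebra

section Ev

variable {𝕜 : Type} [CommRing 𝕜] [Algebra 𝕜 ℂ] {k : ℕ}

lemma evc_single (a : Fin k → ℤ) (α : ℂˣ) (u : Fin k → ℤ) (r : 𝕜) :
    evc a α (single u r) = algebraMap 𝕜 ℂ r * (α : ℂ) ^ (u ⬝ᵥ a) := by
  simp [evc, Algebra.smul_def]

lemma evc_eq_sum (a : Fin k → ℤ) (α : ℂˣ) (A : LQ 𝕜 k) :
    evc a α A = ∑ u ∈ A.coeff.support, algebraMap 𝕜 ℂ (A.coeff u) * (α : ℂ) ^ (u ⬝ᵥ a) := by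
  rw [evc, lift_apply']
  rfl

lemma ev_eq_evc (a : Fin k → ℤ) (α : ℂˣ) (A : LP k) : ev a α A = evc a α A := by
  induction A using AddMonoidAlgebra.induction_linear with
  | zero => simp
  | add x y hx hy => rw [map_add, map_add, hx, hy]
  | single u r => rw [ev_single, evc_single]; simp

end Ev

section Der

variable {𝕜 : Type} [CommRing 𝕜] {k : ℕ}

lemma dd_coeff (i : Fin k) (A : LQ 𝕜 k) (u : Fin k → ℤ) :
    (dd i A).coeff u = (u i : 𝕜) * A.coeff u := by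
  simp [dd]

lemma dd_add (i : Fin k) (A B : LQ 𝕜 k) : dd i (A + B) = dd i A + dd i B := by
  ext u
  simp [dd_coeff, mul_add]

lemma dd_zero (i : Fin k) : dd i (0 : LQ 𝕜 k) = 0 := by
  ext u
  simp [dd_coeff]

lemma dd_sub (i : Fin k) (A B : LQ 𝕜 k) : dd i (A - B) = dd i A - dd i B := by
  ext u
  simp [dd_coeff, mul_sub]

lemma dd_smul (i : Fin k) (r : 𝕜) (A : LQ 𝕜 k) : dd i (r • A) = r • dd i A := by
  ext u
  simp [dd_coeff, mul_left_comm]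

lemma dd_single (i : Fin k) (u : Fin k → ℤ) (r : 𝕜) :
    dd i (single u r : LQ 𝕜 k) = single u ((u i : 𝕜) * r) := by
  classical
  ext w
  rw [dd_coeff]
  simp only [coeff_single, Finsupp.single_apply]
  split_ifs with h
  · rw [h]
  · simp

lemma dd_sum {ι : Type*} (i : Fin k) (s : Finset ι) (f : ι → LQ 𝕜 k) :
    dd i (∑ j ∈ s, f j) = ∑ j ∈ s, dd i (f j) := by
  classical
  induction s using Finset.induction_on with
  | empty => simp [dd_zero]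
  | insert a s ha ih => rw [Finset.sum_insert ha, Finset.sum_insert ha, dd_add, ih]

lemma dd_mul (i : Fin k) (A B : LQ 𝕜 k) : dd i (A * B) = dd i A * B + A * dd i B := by
  induction A using AddMonoidAlgebra.induction_linear with
  | zero => simp [dd_zero]
  | add x y hx hy => rw [add_mul, dd_add, hx, hy, dd_add]; ring
  | single u r =>
    induction B using AddMonoidAlgebra.induction_linear with
    | zero => simp [dd_zero]
    | add x y hx hy => rw [mul_add, dd_add, hx, hy, dd_add]; ring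
    | single w s =>
      rw [single_mul_single, dd_single, dd_single, dd_single, single_mul_single, single_mul_single,
        ← single_add]
      congr 1
      simp only [Pi.add_apply, Int.cast_add]
      ring

lemma support_dd (i : Fin k) (A : LQ 𝕜 k) : (dd i A).coeff.support ⊆ A.coeff.support := by
  intro u hu
  rw [Finsupp.mem_support_iff] at hu ⊢
  rw [dd_coeff] at hu
  exact right_ne_zero_of_mul hu

lemma DG_self (G : LQ 𝕜 2) : DG G G = 0 := by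
  unfold DG; ring

lemma DG_add (G A B : LQ 𝕜 2) : DG G (A + B) = DG G A + DG G B := by
  simp only [DG, dd_add]; ring

lemma DG_sub (G A B : LQ 𝕜 2) : DG G (A - B) = DG G A - DG G B := by
  simp only [DG, dd_sub]; ring

lemma DG_mul (G A B : LQ 𝕜 2) : DG G (A * B) = DG G A * B + A * DG G B := by
  simp only [DG, dd_mul]; ring

lemma DG_smul (G A : LQ 𝕜 2) (r : 𝕜) : DG G (r • A) = r • DG G A := by
  simp only [DG, dd_smul, smul_sub, mul_smul_comm]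

lemma DG_sum {ι : Type*} (G : LQ 𝕜 2) (s : Finset ι) (f : ι → LQ 𝕜 2) :
    DG G (∑ j ∈ s, f j) = ∑ j ∈ s, DG G (f j) := by
  simp only [DG, dd_sum, Finset.mul_sum, Finset.sum_sub_distrib]

lemma DG_dvd {G A : LQ 𝕜 2} (h : G ∣ A) : G ∣ DG G A := by
  obtain ⟨Z, rfl⟩ := h
  rw [DG_mul, DG_self, zero_mul, zero_add]
  exact dvd_mul_right _ _

lemma DG_single (G : LQ 𝕜 2) (m : Fin 2 → ℤ) :
    DG G (single m 1) = ((m 1 : 𝕜) • dd 0 G - (m 0 : 𝕜) • dd 1 G) * single m 1 := by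
  simp only [DG, dd_single, mul_one, sub_mul, smul_mul_assoc]
  rw [← mul_smul_comm, ← mul_smul_comm, smul_single, smul_single, smul_eq_mul, smul_eq_mul, mul_one,
    mul_one]

lemma bd_of_subset {ω : (Fin k → ℤ) → ℝ} {m : ℝ} {A B : LQ 𝕜 k}
    (h : A.coeff.support ⊆ B.coeff.support) (hB : Bd ω m B) : Bd ω m A :=
  fun u hu => hB u (h hu)

lemma bd_add {ω : (Fin k → ℤ) → ℝ} {m : ℝ} {A B : LQ 𝕜 k} (hA : Bd ω m A) (hB : Bd ω m B) :
    Bd ω m (A + B) := by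
  classical
  intro u hu
  rw [coeff_add] at hu
  rcases Finset.mem_union.mp (Finsupp.support_add hu) with h | h
  · exact hA u h
  · exact hB u h

lemma bd_neg {ω : (Fin k → ℤ) → ℝ} {m : ℝ} {A : LQ 𝕜 k} (hA : Bd ω m A) : Bd ω m (-A) := by
  intro u hu
  rw [coeff_neg, Finsupp.support_neg] at hu
  exact hA u hu

lemma bd_sub {ω : (Fin k → ℤ) → ℝ} {m : ℝ} {A B : LQ 𝕜 k} (hA : Bd ω m A) (hB : Bd ω m B) :
    Bd ω m (A - B) := by
  rw [sub_eq_add_neg]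
  exact bd_add hA (bd_neg hB)

lemma bd_smul {ω : (Fin k → ℤ) → ℝ} {m : ℝ} {A : LQ 𝕜 k} (r : 𝕜) (hA : Bd ω m A) :
    Bd ω m (r • A) := by
  intro u hu
  rw [coeff_smul] at hu
  exact hA u (Finsupp.support_smul hu)

lemma bd_single {ω : (Fin k → ℤ) → ℝ} (u : Fin k → ℤ) (r : 𝕜) :
    Bd ω (ω u) (single u r : LQ 𝕜 k) := by
  intro w hw
  rw [coeff_single] at hw
  rw [Finset.mem_singleton.mp (Finsupp.support_single_subset hw)]

lemma Cl.add {G A B : LQ 𝕜 k} {j : ℕ} (hA : Cl G j A) (hB : Cl G j B) : Cl G j (A + B) :=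
  fun ω g h => bd_add (hA ω g h) (hB ω g h)

lemma Cl.sub {G A B : LQ 𝕜 k} {j : ℕ} (hA : Cl G j A) (hB : Cl G j B) : Cl G j (A - B) :=
  fun ω g h => bd_sub (hA ω g h) (hB ω g h)

lemma Cl.neg {G A : LQ 𝕜 k} {j : ℕ} (hA : Cl G j A) : Cl G j (-A) :=
  fun ω g h => bd_neg (hA ω g h)

lemma Cl.smul {G A : LQ 𝕜 k} {j : ℕ} (r : 𝕜) (hA : Cl G j A) : Cl G j (r • A) :=
  fun ω g h => bd_smul r (hA ω g h)

lemma Cl.mul {G A B : LQ 𝕜 k} {i j : ℕ} (hA : Cl G i A) (hB : Cl G j B) :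
    Cl G (i + j) (A * B) := by
  intro ω g h
  have := bd_mul ω (hA ω g h) (hB ω g h)
  rwa [← add_mul, ← Nat.cast_add] at this

lemma Cl.dd {G A : LQ 𝕜 k} {j : ℕ} (i : Fin k) (hA : Cl G j A) : Cl G j (dd i A) :=
  fun ω g h => bd_of_subset (support_dd i A) (hA ω g h)

lemma cl_self (G : LQ 𝕜 k) : Cl G 1 G := fun ω g h => by simpa using h

lemma cl_const (G : LQ 𝕜 k) (r : 𝕜) : Cl G 0 (single 0 r) := fun ω g _ => by
  simpa using bd_single (ω := ω) 0 r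

lemma Cl.DG {G A : LQ 𝕜 2} {j : ℕ} (hA : Cl G j A) : Cl G (1 + j) (DG G A) :=
  (((cl_self G).dd 0).mul (hA.dd 1)).sub (((cl_self G).dd 1).mul (hA.dd 0))

end Der

section Width

variable {𝕜 : Type} [CommRing 𝕜] {k : ℕ}

lemma Wd.mono {ω : (Fin k → ℤ) → ℝ} {w w' : ℝ} {A : LQ 𝕜 k} (h : Wd ω w A) (hw : w ≤ w') :
    Wd ω w' A := fun u hu u' hu' => (h u hu u' hu').trans hw

lemma Wd.nonneg {ω : (Fin k → ℤ) → ℝ} {w : ℝ} {A : LQ 𝕜 k} (h : Wd ω w A) (hA : A ≠ 0) :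
    0 ≤ w := by
  obtain ⟨m, -, h2⟩ := exists_top ω hA
  obtain ⟨u, hu, -⟩ := lev_ne_zero_iff.mp h2
  simpa using h u hu u hu

lemma wd_of_bd (ω : (Fin k → ℤ) →+ ℝ) {m m' : ℝ} {A : LQ 𝕜 k} (h1 : Bd ω m A)
    (h2 : Bd (-ω : (Fin k → ℤ) →+ ℝ) m' A) : Wd ω (m + m') A := by
  intro u hu u' hu'
  have := h1 u hu
  have := h2 u' hu'
  simp only [AddMonoidHom.neg_apply] at this
  linarith

/-- the top values are additive: the maximum of `ω` on a product is attained at the sum -/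
lemma exists_top_mul [IsDomain 𝕜] (ω : (Fin k → ℤ) →+ ℝ) {A B : LQ 𝕜 k} (hA : A ≠ 0)
    (hB : B ≠ 0) : ∃ u ∈ A.coeff.support, ∃ w ∈ B.coeff.support,
      ∃ z ∈ (A * B).coeff.support, Bd ω (ω u) A ∧ Bd ω (ω w) B ∧ ω z = ω u + ω w := by
  obtain ⟨m₁, a1, a2⟩ := exists_top ω hA
  obtain ⟨m₂, b1, b2⟩ := exists_top ω hB
  obtain ⟨z, hz, e⟩ := lev_ne_zero_iff.mp (lev_mul ω a1 b1 ▸ mul_ne_zero a2 b2)
  obtain ⟨u, hu, rfl⟩ := lev_ne_zero_iff.mp a2
  obtain ⟨w, hw, rfl⟩ := lev_ne_zero_iff.mp b2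
  exact ⟨u, hu, w, hw, z, hz, a1, b1, e⟩

lemma Wd.of_dvd [IsDomain 𝕜] (ω : (Fin k → ℤ) →+ ℝ) {w : ℝ} {G A : LQ 𝕜 k} (h : Wd ω w A)
    (hA : A ≠ 0) (hd : G ∣ A) : Wd ω w G := by
  obtain ⟨Z, rfl⟩ := hd
  obtain ⟨u, -, v, hv, z, hz, a1, b1, e⟩ :=
    exists_top_mul ω (left_ne_zero_of_mul hA) (right_ne_zero_of_mul hA)
  obtain ⟨u', -, v', -, z', hz', a2, b2, e'⟩ :=
    exists_top_mul (-ω) (left_ne_zero_of_mul hA) (right_ne_zero_of_mul hA)
  intro x hx y hy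
  have := h z hz z' hz'
  have := a1 x hx
  have := a2 y hy
  have := b2 v hv
  simp only [AddMonoidHom.neg_apply] at *
  linarith

lemma isUnit_single [IsDomain 𝕜] (u : Fin k → ℤ) {r : 𝕜} (hr : IsUnit r) :
    IsUnit (single u r : LQ 𝕜 k) := by
  obtain ⟨s, rfl⟩ := hr
  refine IsUnit.of_mul_eq_one (single (-u) (s⁻¹ : 𝕜ˣ)) ?_
  rw [single_mul_single, add_neg_cancel, Units.mul_inv, one_def]

/-- the real functional `u ↦ u ⬝ᵥ a` -/
noncomputable def dotR (a : Fin k → ℤ) : (Fin k → ℤ) →+ ℝ :=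
  AddMonoidHom.mk' (fun u => ((u ⬝ᵥ a : ℤ) : ℝ)) fun u v => by
    rw [add_dotProduct, Int.cast_add]

lemma dotR_apply (a u : Fin k → ℤ) : dotR a u = ((u ⬝ᵥ a : ℤ) : ℝ) := rfl

/-- the first coordinate as an additive map -/
noncomputable def x0h : (Fin 2 → ℤ) →+ ℝ :=
  AddMonoidHom.mk' x0 fun u v => by simp [x0]

lemma x0h_coe : (x0h : (Fin 2 → ℤ) → ℝ) = x0 := rfl

end Width

end Pool.Agent.P.MP_aef18a_nt
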