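import Pool.Agent.P.MP_aef18a_nt.Ad.Basic

namespace Pool.Agent.P.MP_aef18a_nt

namespace BlocksA

/-- a zero-sum family splits into minimal zero-sum blocks -/
lemma part {ι M : Type} [DecidableEq ι] [AddCommMonoid M] (f : ι → ℂ) (g : ι → M)
    (I : Finset ι) (h : ∑ i ∈ I, f i = 0) :
    ∃ P : Finset (Finset ι), (∀ J ∈ P, J.Nonempty ∧ J ⊆ I ∧ ∑ i ∈ J, f i = 0 ∧
      ∀ J' ⊆ J, J'.Nonempty → J' ≠ J → ∑ i ∈ J', f i ≠ 0) ∧
      ∑ J ∈ P, ∑ i ∈ J, g i = ∑ i ∈ I, g i := by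
  induction I using Finset.strongInduction with
  | H I ih =>
    rcases I.eq_empty_or_nonempty with rfl | hI
    · exact ⟨∅, by simp, by simp⟩
    obtain ⟨J, hJ, hmin⟩ := Finset.exists_min_image
      (I.powerset.filter (fun J => J.Nonempty ∧ ∑ i ∈ J, f i = 0)) Finset.card
      ⟨I, by simp [hI, h]⟩
    rw [Finset.mem_filter, Finset.mem_powerset] at hJ
    obtain ⟨hJI, hJne, hJ0⟩ := hJ
    have hss : I \ J ⊂ I := Finset.sdiff_ssubset hJI hJne
    have h0 : ∑ i ∈ I \ J, f i = 0 := by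
      have := Finset.sum_sdiff (f := f) hJI
      rwa [hJ0, add_zero, h] at this
    obtain ⟨P, hP, hs⟩ := ih _ hss h0
    have hJP : J ∉ P := by
      intro hm
      obtain ⟨i, hi⟩ := hJne
      exact (Finset.mem_sdiff.mp ((hP J hm).2.1 hi)).2 hi
    refine ⟨insert J P, ?_, ?_⟩
    · intro J₁ hJ₁
      rcases Finset.mem_insert.mp hJ₁ with rfl | hJ₁
      · refine ⟨hJne, hJI, hJ0, fun J' h1 h2 h3 h4 => h3 ?_⟩
        refine Finset.eq_of_subset_of_card_le h1 (hmin J' ?_)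
        rw [Finset.mem_filter, Finset.mem_powerset]
        exact ⟨h1.trans hJI, h2, h4⟩
      · obtain ⟨a, b, c⟩ := hP J₁ hJ₁
        exact ⟨a, b.trans Finset.sdiff_subset, c⟩
    · rw [Finset.sum_insert hJP, hs, add_comm, Finset.sum_sdiff hJI]

/-- the part of `B` with exponents in `J` -/
noncomputable def blk {k : ℕ} (B : LQ ℚ k) (J : Finset (Fin k → ℤ)) : LQ ℚ k :=
  ∑ u ∈ J, AddMonoidAlgebra.single u (B.coeff u)

lemma blk_coeff {k : ℕ} (B : LQ ℚ k) (J : Finset (Fin k → ℤ)) (v : Fin k → ℤ) :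
    (blk B J).coeff v = if v ∈ J then B.coeff v else 0 := by
  classical
  simp [blk, Finsupp.finsetSum_apply, Finsupp.single_apply]

lemma blk_support {k : ℕ} {B : LQ ℚ k} {J : Finset (Fin k → ℤ)} (h : J ⊆ B.coeff.support) :
    (blk B J).coeff.support = J := by
  ext v
  rw [Finsupp.mem_support_iff, blk_coeff]
  split_ifs with hv
  · simpa [hv] using h hv
  · simp [hv]

lemma blk_self {k : ℕ} (B : LQ ℚ k) : blk B B.coeff.support = B := by
  ext v
  rw [blk_coeff]
  split_ifs with hv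
  · rfl
  · exact (Finsupp.notMem_support_iff.mp hv).symm

/-- a vanishing Laurent polynomial is a sum of minimally vanishing blocks -/
lemma split {k : ℕ} (a : Fin k → ℤ) (α : ℂˣ) (B : LQ ℚ k) (h : ev a α B = 0) :
    ∃ P : Finset (LQ ℚ k), P ⊆ B.coeff.support.powerset.image (blk B) ∧
      (∀ C ∈ P, C ≠ 0 ∧ MinVan α C.coeff.support C.coeff (· ⬝ᵥ a)) ∧
      ∀ π : LQ ℚ k, (∀ C ∈ P, π ∣ C) → π ∣ B := by
  classical
  rw [ev_eq_evc, evc_eq_sum] at h
  obtain ⟨P, hP, hs⟩ := part (fun u => algebraMap ℚ ℂ (B.coeff u) * (α : ℂ) ^ (u ⬝ᵥ a))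
    (fun u => (AddMonoidAlgebra.single u (B.coeff u) : LQ ℚ k)) _ h
  refine ⟨P.image (blk B), Finset.image_subset_image fun J hJ =>
    Finset.mem_powerset.mpr (hP J hJ).2.1, ?_, ?_⟩
  · intro C hC
    obtain ⟨J, hJ, rfl⟩ := Finset.mem_image.mp hC
    obtain ⟨h1, h2, h3, h4⟩ := hP J hJ
    have key : ∀ J' ⊆ J, ∑ u ∈ J', (((blk B J).coeff u : ℚ) : ℂ) * (α : ℂ) ^ (u ⬝ᵥ a) =
        ∑ u ∈ J', algebraMap ℚ ℂ (B.coeff u) * (α : ℂ) ^ (u ⬝ᵥ a) := by
      intro J' hJ'
      refine Finset.sum_congr rfl fun u hu => ?_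
      rw [blk_coeff, if_pos (hJ' hu)]
      rfl
    refine ⟨fun h0 => ?_, ?_⟩
    · have := blk_support h2
      rw [h0] at this
      simp only [AddMonoidAlgebra.coeff_zero, Finsupp.support_zero] at this
      exact h1.ne_empty this.symm
    · rw [blk_support h2]
      refine ⟨(key J subset_rfl).trans h3, fun J' b1 b2 b3 => ?_⟩
      rw [key J' b1]
      exact h4 J' b1 b2 b3
  · intro π hπ
    have : B = ∑ J ∈ P, blk B J := (blk_self B).symm.trans hs.symm
    rw [this]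
    exact Finset.dvd_sum fun J hJ => hπ _ (Finset.mem_image_of_mem _ hJ)

end BlocksA

open BlocksA in
theorem cz (_hu : S_UFD) (hp : S_CZP) : S_CZ := by
  classical
  intro n F hF A hA
  let Γ₀ : Finset (LQ ℚ n) → Finset (Fin n → ℤ) := fun Ps =>
    if h : NoMin Ps then h.choose else ∅
  let U : Finset (LQ ℚ n) :=
    F.coeff.support.powerset.image (blk F) ∪ A.coeff.support.powerset.image (blk A)
  refine ⟨U.powerset.biUnion Γ₀, ?_, ?_⟩
  · intro h0
    obtain ⟨Ps, -, h⟩ := Finset.mem_biUnion.mp h0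
    simp only [Γ₀] at h
    split_ifs at h with h1
    · exact h1.choose_spec.1 h
    · simp at h
  intro a _ hΓ α hFa hAa
  by_contra hα
  obtain ⟨P₁, a1, a2, a3⟩ := split a α F hFa
  obtain ⟨P₂, b1, b2, b3⟩ := split a α A hAa
  have hall : ∀ C ∈ P₁ ∪ P₂, C ≠ 0 ∧ MinVan α C.coeff.support C.coeff (· ⬝ᵥ a) := by
    intro C hC
    rcases Finset.mem_union.mp hC with h | h
    · exact a2 C h
    · exact b2 C h
  have hno : NoMin (P₁ ∪ P₂) := by
    refine hp n _ ?_ (fun C hC => (hall C hC).1) ?_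
    · rw [Finset.nonempty_iff_ne_empty]
      intro h0
      refine hA (b3 F fun C hC => ?_)
      have : C ∈ P₁ ∪ P₂ := Finset.mem_union_right _ hC
      rw [h0] at this
      simp at this
    · intro π hπ
      by_contra hc
      push Not at hc
      have h1 := a3 π fun C hC => hc C (Finset.mem_union_left _ hC)
      have h2 := b3 π fun C hC => hc C (Finset.mem_union_right _ hC)
      exact hA ((hπ.irreducible.associated_of_dvd hF h1).symm.dvd.trans h2)
  refine hno.choose_spec.2 a (fun c hc => hΓ c ?_) α hα fun C hC => (hall C hC).2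
  refine Finset.mem_biUnion.mpr ⟨P₁ ∪ P₂, Finset.mem_powerset.mpr
    (Finset.union_subset_union a1 b1), ?_⟩
  simp only [Γ₀]
  rw [dif_pos hno]
  exact hc

end Pool.Agent.P.MP_aef18a_nt
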