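import Pool.Agent.P.MP_aef18a_nt.Ad.Cpt

namespace Pool.Agent.P.MP_aef18a_nt

open Filter Topology

open CptA in
/-- compactness for a closed cone of directions -/
theorem cptC {n : ℕ} (S : Finset (Fin n → ℤ)) (V : (Fin n → ℤ) → Prop)
    (R : (Fin n → ℤ) → ℕ → Prop) (bad : ℕ → (Fin n → ℤ) → Prop) (C : Set (Fin n → ℝ))
    (hC : IsClosed C)
    (hC' : ∀ x ∈ C, ∀ t : ℝ, 0 < t → ∀ y : Fin n → ℝ, (∀ u ∈ S, ∀ w ∈ S, lin y u = lin y w) →
      t • x + y ∈ C)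
    (h : ∀ x ∈ C, (∃ u ∈ S, ∃ u' ∈ S, lin x u ≠ lin x u') → ∀ u ∈ S,
      (∀ w ∈ S, lin x w ≤ lin x u) → V u →
        ∃ q, R u q ∧ ∀ w ∈ S, lin x w = lin x u → ¬ bad q w) :
    ∃ K : ℕ, ∀ x ∈ C, (∃ u ∈ S, ∃ u' ∈ S, lin x u ≠ lin x u') → ∀ u ∈ S,
      (∀ w ∈ S, lin x w ≤ lin x u) → V u →
        ∃ q, R u q ∧ ∀ w ∈ S, bad q w → ∀ w' ∈ S,
          lin x u - lin x w' ≤ K * (lin x u - lin x w) := by
  let P : ℕ → (S × S → ℝ) → Prop := fun K y => ∀ u : S, (∀ w, 0 ≤ y (u, w)) → V u →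
    ∃ q, R u q ∧ ∀ w : S, bad q w → 1 ≤ K * y (u, w)
  have mono : ∀ K K' y, K ≤ K' → P K y → P K' y := fun K K' y hK hP u hu hV => by
    obtain ⟨q, h1, h2⟩ := hP u hu hV
    exact ⟨q, h1, fun w hw => (h2 w hw).trans
      (mul_le_mul_of_nonneg_right (Nat.cast_le.mpr hK) (hu w))⟩
  obtain ⟨σ, hσ⟩ := (D S).rangeRestrict.exists_rightInverse_of_surjective
    (LinearMap.range_rangeRestrict _)
  obtain ⟨τ, hτ⟩ := σ.exists_extend
  have hD : ∀ x, D S (τ (D S x)) = D S x := fun x => by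
    have h1 : τ (D S x) = σ ((D S).rangeRestrict x) := LinearMap.congr_fun hτ ((D S).rangeRestrict x)
    have h2 := congrArg Subtype.val (LinearMap.congr_fun hσ ((D S).rangeRestrict x))
    rw [h1]
    exact h2
  let T : Set (S × S → ℝ) := (Metric.sphere 0 1 ∩ LinearMap.range (D S)) ∩ τ ⁻¹' C
  have hc : IsCompact T :=
    ((isCompact_sphere _ _).inter_right (Submodule.closed_of_finiteDimensional _)).inter_right
      (hC.preimage τ.continuous_of_finiteDimensional)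
  have key : ∃ K, ∀ y ∈ T, P K y := by
    refine hc.induction_on (p := fun s => ∃ K, ∀ y ∈ s, P K y) ⟨0, fun _ h => h.elim⟩
      (fun s t hst ⟨K, hK⟩ => ⟨K, fun y hy => hK y (hst hy)⟩)
      (fun s t ⟨K, hK⟩ ⟨K', hK'⟩ => ⟨max K K', fun y hy => hy.elim
        (fun e => mono _ _ _ (le_max_left _ _) (hK y e))
        (fun e => mono _ _ _ (le_max_right _ _) (hK' y e))⟩) ?_
    rintro _ ⟨⟨h1, x', rfl⟩, hx'⟩
    obtain ⟨x, hxC, hxx⟩ : ∃ x ∈ C, D S x = D S x' := ⟨_, hx', hD x'⟩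
    rw [← hxx] at h1 ⊢
    obtain ⟨K, hK⟩ := near (D S x)
    refine ⟨_, mem_nhdsWithin_of_mem_nhds hK, K, fun y hy u hu hV => ?_⟩
    have hx : D S x ≠ 0 := fun e => by simp [e] at h1
    have h0 : ∀ w : S, 0 ≤ D S x (u, w) := fun w =>
      not_lt.mp fun e => not_lt.mpr (hu w) ((hy (u, w)).2 e)
    obtain ⟨q, a1, a2⟩ := h x hxC (D_ne_zero.mp hx) u u.2
      (fun w hw => sub_nonneg.mp (h0 ⟨w, hw⟩)) hV
    refine ⟨q, a1, fun w hw => ((hy (u, w)).1 ((h0 w).lt_of_ne fun e => ?_)).le⟩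
    exact a2 w w.2 (sub_eq_zero.mp e.symm).symm hw
  obtain ⟨K, hK⟩ := key
  refine ⟨K, fun x hxC hx u hu hmax hV => ?_⟩
  have hp : 0 < ‖D S x‖ := norm_pos_iff.mpr (D_ne_zero.mpr hx)
  have hmem : τ (‖D S x‖⁻¹ • D S x) ∈ C := by
    have h1 := hC' x hxC _ (inv_pos.mpr hp) (‖D S x‖⁻¹ • (τ (D S x) - x)) fun u hu w hw => by
      have h2 : D S (‖D S x‖⁻¹ • (τ (D S x) - x)) = 0 := by
        rw [map_smul, map_sub, hD, sub_self, smul_zero]
      exact sub_eq_zero.mp (congrFun h2 (⟨u, hu⟩, ⟨w, hw⟩))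
    rwa [← smul_add, add_sub_cancel, ← map_smul] at h1
  obtain ⟨q, a1, a2⟩ := hK (‖D S x‖⁻¹ • D S x)
    ⟨⟨by simp [norm_smul, hp.ne'], Submodule.smul_mem _ _ (LinearMap.mem_range_self _ _)⟩, hmem⟩
    ⟨u, hu⟩ (fun w => mul_nonneg (inv_nonneg.mpr hp.le) (sub_nonneg.mpr (hmax w w.2))) hV
  refine ⟨q, a1, fun w hw hb w' hw' => ?_⟩
  have b1 := a2 ⟨w, hw⟩ hb
  have b2 : lin x u - lin x w' ≤ ‖D S x‖ :=
    (le_abs_self _).trans (norm_le_pi_norm (D S x) (⟨u, hu⟩, ⟨w', hw'⟩))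
  rw [Pi.smul_apply, smul_eq_mul, D_apply, mul_left_comm, ← div_eq_inv_mul, one_le_div hp] at b1
  exact b2.trans b1

/-- every linear form is maximised at a vertex -/
lemma exists_vertex {n : ℕ} {F : LP n} (hF : F ≠ 0) (x : Fin n → ℝ) :
    ∃ u ∈ F.coeff.support, pt u ∈ (newt F).extremePoints ℝ ∧
      ∀ w ∈ F.coeff.support, lin x w ≤ lin x u := by
  let l : StrongDual ℝ (Fin n → ℝ) := LinearMap.toContinuousLinearMap (linR x)
  have hcomp : IsCompact (newt F) := (F.coeff.support.finite_toSet.image _).isCompact_convexHull ℝ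
  have hexp : IsExposed ℝ (newt F) (l.toExposed (newt F)) := ContinuousLinearMap.toExposed.isExposed
  have hne : (newt F).Nonempty := by
    obtain ⟨u, hu⟩ : F.coeff.support.Nonempty := by
      rw [Finsupp.support_nonempty_iff]
      simpa using hF
    exact ⟨pt u, subset_convexHull _ _ ⟨u, hu, rfl⟩⟩
  obtain ⟨y, hy, hy'⟩ := hcomp.exists_isMaxOn hne l.continuous.continuousOn
  obtain ⟨p, hp⟩ := (hexp.isCompact hcomp).extremePoints_nonempty ⟨y, hy, hy'⟩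
  have hp' := hexp.isExtreme.extremePoints_subset_extremePoints hp
  obtain ⟨u, hu, rfl⟩ := extremePoints_convexHull_subset hp'
  exact ⟨u, hu, hp', fun u' hu' => hp.1.2 (pt u') (subset_convexHull _ _ ⟨u', hu', rfl⟩)⟩

end Pool.Agent.P.MP_aef18a_nt
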