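import Pool.Agent.P.MP_aef18a_nt.Ad.Basic

namespace Pool.Agent.P.MP_aef18a_nt

open Filter Topology

namespace CptA

/-- all the differences of values of a linear form on `S` -/
noncomputable def D {n : ℕ} (S : Finset (Fin n → ℤ)) : (Fin n → ℝ) →ₗ[ℝ] (S × S → ℝ) where
  toFun x p := lin x p.1 - lin x p.2
  map_add' x y := by
    ext p
    simp only [lin, Pi.add_apply, mul_add, Finset.sum_add_distrib]
    ring
  map_smul' r x := by
    ext p
    simp only [lin, Pi.smul_apply, smul_eq_mul, RingHom.id_apply, mul_sub, Finset.mul_sum]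
    congr 1 <;> exact Finset.sum_congr rfl fun i _ => by ring

lemma D_apply {n : ℕ} (S : Finset (Fin n → ℤ)) (x : Fin n → ℝ) (u w : S) :
    D S x (u, w) = lin x u - lin x w := rfl

lemma D_ne_zero {n : ℕ} {S : Finset (Fin n → ℤ)} {x : Fin n → ℝ} :
    D S x ≠ 0 ↔ ∃ u ∈ S, ∃ u' ∈ S, lin x u ≠ lin x u' := by
  rw [Function.ne_iff]
  constructor
  · rintro ⟨⟨u, w⟩, h⟩
    exact ⟨u, u.2, w, w.2, sub_ne_zero.mp h⟩
  · rintro ⟨u, hu, w, hw, h⟩
    exact ⟨(⟨u, hu⟩, ⟨w, hw⟩), sub_ne_zero.mpr h⟩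

/-- signs are stable, with a uniform lower bound for the positive entries -/
lemma near {ι : Type} [Finite ι] (y₀ : ι → ℝ) : ∃ K : ℕ, ∀ᶠ y : ι → ℝ in 𝓝 y₀, ∀ p,
    (0 < y₀ p → 1 < K * y p) ∧ (y₀ p < 0 → y p < 0) := by
  have h : ∀ᶠ K : ℕ in atTop, ∀ p, 0 < y₀ p → 1 < K * y₀ p := by
    refine eventually_all.mpr fun p => ?_
    by_cases hp : 0 < y₀ p
    · exact ((tendsto_natCast_atTop_atTop.atTop_mul_const hp).eventually_gt_atTop 1).mono
        fun K hK _ => hK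
    · exact Eventually.of_forall fun K h => absurd h hp
  obtain ⟨K, hK⟩ := h.exists
  refine ⟨K, eventually_all.mpr fun p => Eventually.and ?_ ?_⟩
  · by_cases hp : 0 < y₀ p
    · have hc : Continuous fun y : ι → ℝ => (K : ℝ) * y p := by fun_prop
      exact (hc.continuousAt.eventually (lt_mem_nhds (hK p hp))).mono fun y hy _ => hy
    · exact Eventually.of_forall fun K h => absurd h hp
  · by_cases hp : y₀ p < 0
    · exact ((continuous_apply p).continuousAt.eventually (gt_mem_nhds hp)).mono fun y hy _ => hy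
    · exact Eventually.of_forall fun K h => absurd h hp

end CptA

open CptA in
theorem cpt : S_Cpt := by
  intro n S V R bad h
  let P : ℕ → (S × S → ℝ) → Prop := fun K y => ∀ u : S, (∀ w, 0 ≤ y (u, w)) → V u →
    ∃ q, R u q ∧ ∀ w : S, bad q w → 1 ≤ K * y (u, w)
  have mono : ∀ K K' y, K ≤ K' → P K y → P K' y := fun K K' y hK hP u hu hV => by
    obtain ⟨q, h1, h2⟩ := hP u hu hV
    exact ⟨q, h1, fun w hw => (h2 w hw).trans
      (mul_le_mul_of_nonneg_right (Nat.cast_le.mpr hK) (hu w))⟩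
  have hc : IsCompact (Metric.sphere (0 : S × S → ℝ) 1 ∩ LinearMap.range (D S)) :=
    (isCompact_sphere _ _).inter_right (Submodule.closed_of_finiteDimensional _)
  have key : ∃ K, ∀ y ∈ Metric.sphere (0 : S × S → ℝ) 1 ∩ LinearMap.range (D S), P K y := by
    refine hc.induction_on (p := fun s => ∃ K, ∀ y ∈ s, P K y) ⟨0, fun _ h => h.elim⟩
      (fun s t hst ⟨K, hK⟩ => ⟨K, fun y hy => hK y (hst hy)⟩)
      (fun s t ⟨K, hK⟩ ⟨K', hK'⟩ => ⟨max K K', fun y hy => hy.elim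
        (fun e => mono _ _ _ (le_max_left _ _) (hK y e))
        (fun e => mono _ _ _ (le_max_right _ _) (hK' y e))⟩) ?_
    rintro _ ⟨h1, x, rfl⟩
    obtain ⟨K, hK⟩ := near (D S x)
    refine ⟨_, mem_nhdsWithin_of_mem_nhds hK, K, fun y hy u hu hV => ?_⟩
    have hx : D S x ≠ 0 := fun e => by simp [e] at h1
    have h0 : ∀ w : S, 0 ≤ D S x (u, w) := fun w =>
      not_lt.mp fun e => not_lt.mpr (hu w) ((hy (u, w)).2 e)
    obtain ⟨q, a1, a2⟩ := h x (D_ne_zero.mp hx) u u.2 (fun w hw => sub_nonneg.mp (h0 ⟨w, hw⟩)) hV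
    refine ⟨q, a1, fun w hw => ((hy (u, w)).1 ((h0 w).lt_of_ne fun e => ?_)).le⟩
    exact a2 w w.2 (sub_eq_zero.mp e.symm).symm hw
  obtain ⟨K, hK⟩ := key
  refine ⟨K, fun x hx u hu hmax hV => ?_⟩
  have hp : 0 < ‖D S x‖ := norm_pos_iff.mpr (D_ne_zero.mpr hx)
  obtain ⟨q, a1, a2⟩ := hK (‖D S x‖⁻¹ • D S x)
    ⟨by simp [norm_smul, hp.ne'], Submodule.smul_mem _ _ (LinearMap.mem_range_self _ _)⟩ ⟨u, hu⟩
    (fun w => mul_nonneg (inv_nonneg.mpr hp.le) (sub_nonneg.mpr (hmax w w.2))) hV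
  refine ⟨q, a1, fun w hw hb w' hw' => ?_⟩
  have b1 := a2 ⟨w, hw⟩ hb
  have b2 : lin x u - lin x w' ≤ ‖D S x‖ :=
    (le_abs_self _).trans (norm_le_pi_norm (D S x) (⟨u, hu⟩, ⟨w', hw'⟩))
  rw [Pi.smul_apply, smul_eq_mul, D_apply, mul_left_comm, ← div_eq_inv_mul, one_le_div hp] at b1
  exact b2.trans b1

end Pool.Agent.P.MP_aef18a_nt
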