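import Pool.Agent.P.MP_aef18a_nt.Ad.Basic

namespace Pool.Agent.P.MP_aef18a_nt

namespace CznA

open AddMonoidAlgebra

lemma prim {k : ℕ} {b : Fin k → ℤ} (hb : b ≠ 0) :
    ∃ g : ℕ, 0 < g ∧ ∃ b₀ v : Fin k → ℤ, b = (g : ℤ) • b₀ ∧ v ⬝ᵥ b₀ = 1 := by
  classical
  obtain ⟨g, hg⟩ := (IsPrincipalIdealRing.principal (Ideal.span (Set.range b))).principal
  have h1 : ∀ i, g ∣ b i := fun i => by
    have : b i ∈ Ideal.span (Set.range b) := Ideal.subset_span ⟨i, rfl⟩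
    rw [hg] at this
    exact Ideal.mem_span_singleton.mp this
  have h2 : (g.natAbs : ℤ) ∈ Ideal.span (Set.range b) := by
    rw [hg]
    exact Ideal.mem_span_singleton.mpr (Int.dvd_natAbs.mpr dvd_rfl)
  obtain ⟨v, hv⟩ := Ideal.mem_span_range_iff_exists_fun.mp h2
  have hg0 : g ≠ 0 := by
    rintro rfl
    apply hb
    ext i
    simpa using h1 i
  choose b₀ hb₀ using fun i => Int.natAbs_dvd.mpr (h1 i)
  have hp : (0 : ℤ) < g.natAbs := by exact_mod_cast Int.natAbs_pos.mpr hg0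
  refine ⟨g.natAbs, Int.natAbs_pos.mpr hg0, b₀, v, funext fun i => by simpa using hb₀ i, ?_⟩
  refine mul_left_cancel₀ hp.ne' ?_
  rw [mul_one, ← hv, dotProduct, Finset.mul_sum]
  refine Finset.sum_congr rfl fun i _ => ?_
  rw [hv, hb₀ i]
  ring

lemma primefac {R S : Type*} [CommRing R] [IsDomain R] [UniqueFactorizationMonoid R] [Field S]
    (φ : R →+* S) {A : R} (hA : A ≠ 0) (h : φ A = 0) : ∃ G, Prime G ∧ G ∣ A ∧ φ G = 0 := by
  induction A using UniqueFactorizationMonoid.induction_on_prime with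
  | h₁ => exact absurd rfl hA
  | h₂ x hx => exact absurd h (hx.map φ).ne_zero
  | h₃ a p ha hp ih =>
    rw [map_mul, mul_eq_zero] at h
    rcases h with h | h
    · exact ⟨p, hp, dvd_mul_right _ _, h⟩
    · obtain ⟨G, h1, h2, h3⟩ := ih ha h
      exact ⟨G, h1, h2.mul_left _, h3⟩

/-- the `ℓ¹` diameter of the support is at most `R` -/
def Dm {k : ℕ} (R : ℕ) (A : LQ ℚ k) : Prop :=
  ∀ u ∈ A.coeff.support, ∀ u' ∈ A.coeff.support, ∑ i, |u i - u' i| ≤ R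

lemma exists_dm {k : ℕ} (Ps : Finset (LQ ℚ k)) : ∃ R : ℕ, 1 ≤ R ∧ ∀ A ∈ Ps, Dm R A := by
  classical
  let f : LQ ℚ k → ℕ := fun A => (A.coeff.support ×ˢ A.coeff.support).sup
    fun p => (∑ i, |p.1 i - p.2 i|).toNat
  refine ⟨Ps.sup f + 1, by omega, fun A hA u hu u' hu' => ?_⟩
  have h1 : (∑ i, |u i - u' i|).toNat ≤ f A :=
    Finset.le_sup (f := fun p : (Fin k → ℤ) × (Fin k → ℤ) => (∑ i, |p.1 i - p.2 i|).toNat)
      (b := (u, u')) (Finset.mem_product.mpr ⟨hu, hu'⟩)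
  have h2 : f A ≤ Ps.sup f := Finset.le_sup hA
  push_cast
  omega

lemma dot_le {k : ℕ} {R : ℕ} {d : Fin k → ℤ} (hd : ∑ i, |d i| ≤ R) (x : Fin k → ℝ) {M : ℝ}
    (hM0 : 0 ≤ M) (hM : ∀ i, |x i| ≤ M) : ∑ i, (d i : ℝ) * x i ≤ R * M := by
  have h : ∑ i, |(d i : ℝ)| ≤ R := by exact_mod_cast hd
  calc ∑ i, (d i : ℝ) * x i ≤ ∑ i, |(d i : ℝ)| * M := Finset.sum_le_sum fun i _ => by
        refine (le_abs_self _).trans ?_
        rw [abs_mul]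
        exact mul_le_mul_of_nonneg_left (hM i) (abs_nonneg _)
    _ ≤ R * M := by rw [← Finset.sum_mul]; exact mul_le_mul_of_nonneg_right h hM0

/-- output of Dirichlet's theorem -/
structure Ap {k : ℕ} (a b : Fin k → ℤ) (N Q τ : ℕ) : Prop where
  hN : 0 < N
  hQ : 2 ≤ Q
  hτ : 0 < τ
  ha : ∀ i, |a i| ≤ N
  hb : ∀ i, |τ * a i - N * b i| * Q ≤ N

variable {k : ℕ} {a b : Fin k → ℤ} {N Q τ : ℕ}

lemma Ap.b_le (h : Ap a b N Q τ) (i : Fin k) : |b i| ≤ τ + 1 := by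
  have h1 := h.hb i
  have h2 := h.ha i
  have hN : (0 : ℤ) < N := by exact_mod_cast h.hN
  have hQ : (2 : ℤ) ≤ Q := by exact_mod_cast h.hQ
  have h3 : |(τ : ℤ) * a i - N * b i| ≤ N := by nlinarith [abs_nonneg ((τ : ℤ) * a i - N * b i)]
  have h4 : |(N : ℤ) * b i| ≤ |(τ : ℤ) * a i| + N := by
    have := abs_sub_abs_le_abs_sub ((N : ℤ) * b i) (τ * a i)
    rw [abs_sub_comm] at this
    linarith
  rw [abs_mul, abs_mul, Nat.abs_cast, Nat.abs_cast] at h4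
  have h5 : (τ : ℤ) * |a i| ≤ τ * N := mul_le_mul_of_nonneg_left h2 (Int.natCast_nonneg _)
  refine le_of_mul_le_mul_left ?_ hN
  nlinarith

lemma Ap.mul (h : Ap a b N Q τ) {i₀ : Fin k} (hi : |a i₀| = N) (t : ℤ) (hb : b = t • a) :
    N ≤ τ := by
  have h1 := h.hb i₀
  have hN : (0 : ℤ) < N := by exact_mod_cast h.hN
  have hQ : (2 : ℤ) ≤ Q := by exact_mod_cast h.hQ
  have hτ : (0 : ℤ) < τ := by exact_mod_cast h.hτ
  rw [hb, Pi.smul_apply, smul_eq_mul, show (τ : ℤ) * a i₀ - N * (t * a i₀) = (τ - N * t) * a i₀ by ring,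
    abs_mul, hi] at h1
  have h2 : |(τ : ℤ) - N * t| = 0 := by
    by_contra hc
    have : 1 ≤ |(τ : ℤ) - N * t| := Int.one_le_abs (abs_ne_zero.mp hc)
    have h4 : (N : ℤ) ≤ |(τ : ℤ) - N * t| * N := by nlinarith
    have h5 : (N : ℤ) * 2 ≤ |(τ : ℤ) - N * t| * N * Q := mul_le_mul h4 hQ (by norm_num) (by linarith)
    linarith
  have h3 : (τ : ℤ) = N * t := by linarith [abs_eq_zero.mp h2]
  have ht : 0 < t := by
    by_contra hc
    nlinarith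
  have : (N : ℤ) ≤ τ := by nlinarith
  exact_mod_cast this

lemma Ap.ne_zero (h : Ap a b N Q τ) {i₀ : Fin k} (hi : |a i₀| = N) : b ≠ 0 := by
  rintro rfl
  have h1 := h.hb i₀
  have hN : (0 : ℤ) < N := by exact_mod_cast h.hN
  have hQ : (2 : ℤ) ≤ Q := by exact_mod_cast h.hQ
  have hτ : (1 : ℤ) ≤ τ := by exact_mod_cast h.hτ
  simp only [Pi.zero_apply, mul_zero, sub_zero, abs_mul, hi, Nat.abs_cast] at h1
  nlinarith [mul_le_mul hτ hQ (by norm_num) (by linarith)]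

lemma Ap.w1 (h : Ap a b N Q τ) {R : ℕ} {d : Fin k → ℤ} (hd : ∑ i, |d i| ≤ R) :
    ((d ⬝ᵥ b : ℤ) : ℝ) ≤ R * (τ + 1) := by
  have := dot_le hd (fun i => (b i : ℝ)) (M := τ + 1) (by positivity)
    fun i => by exact_mod_cast h.b_le i
  simpa [dotProduct] using this

lemma Ap.w2 (h : Ap a b N Q τ) {R : ℕ} {d : Fin k → ℤ} (hd : ∑ i, |d i| ≤ R) :
    ((d ⬝ᵥ a : ℤ) : ℝ) - N / τ * ((d ⬝ᵥ b : ℤ) : ℝ) ≤ R * (N / (Q * τ)) := by
  have hQ : (0 : ℝ) < Q := by exact_mod_cast (by have := h.hQ; omega : 0 < Q)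
  have hτ : (0 : ℝ) < τ := by exact_mod_cast h.hτ
  have := dot_le hd (fun i => (a i : ℝ) - N / τ * b i) (M := N / (Q * τ)) (by positivity) fun i => by
    have h1 : |(τ : ℝ) * a i - N * b i| * Q ≤ N := by exact_mod_cast h.hb i
    rw [show (a i : ℝ) - N / τ * b i = (τ * a i - N * b i) / τ by field_simp, abs_div,
      abs_of_pos hτ, div_le_div_iff₀ hτ (by positivity)]
    nlinarith
  refine le_of_eq_of_le ?_ this
  simp only [dotProduct, Int.cast_sum, Int.cast_mul, Finset.mul_sum, ← Finset.sum_sub_distrib]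
  exact Finset.sum_congr rfl fun i _ => by ring

lemma Ap.fin (h : Ap a b N Q τ) {R : ℕ} (hR : 1 ≤ R) :
    ((R : ℝ) * (τ + 1) + 1) * (R * (N / (Q * τ))) + R * (τ + 1) * (R * (N / (Q * τ))) ≤
      5 * R ^ 2 * N / Q := by
  have hQ : (0 : ℝ) < Q := by exact_mod_cast (by have := h.hQ; omega : 0 < Q)
  have hτ : (1 : ℝ) ≤ τ := by exact_mod_cast h.hτ
  have hR' : (1 : ℝ) ≤ R := by exact_mod_cast hR
  have e : ((R : ℝ) * (τ + 1) + 1) * (R * (N / (Q * τ))) + R * (τ + 1) * (R * (N / (Q * τ))) =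
      (2 * R * (τ + 1) + 1) / τ * (R * N / Q) := by field_simp; ring
  rw [e, show (5 : ℝ) * R ^ 2 * N / Q = 5 * R * (R * N / Q) by ring]
  refine mul_le_mul_of_nonneg_right ?_ (by positivity)
  rw [div_le_iff₀ (by positivity)]
  nlinarith

lemma gen_bound {Ps : Finset (LQ ℚ k)} (hcl : AddSubgroup.closure (Dif Ps) = ⊤) :
    ∃ C : ℕ, ∀ (a : Fin k → ℤ) (X : ℝ), 0 ≤ X → (∀ d ∈ Dif Ps, |((d ⬝ᵥ a : ℤ) : ℝ)| ≤ X) →
      ∀ i, |(a i : ℝ)| ≤ C * X := by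
  classical
  have h : ∀ x ∈ AddSubgroup.closure (Dif Ps), ∃ C : ℕ, ∀ (a : Fin k → ℤ) (X : ℝ), 0 ≤ X →
      (∀ d ∈ Dif Ps, |((d ⬝ᵥ a : ℤ) : ℝ)| ≤ X) → |((x ⬝ᵥ a : ℤ) : ℝ)| ≤ C * X := by
    intro x hx
    induction hx using AddSubgroup.closure_induction with
    | mem x hx => exact ⟨1, fun a X _ h => by simpa using h x hx⟩
    | zero => exact ⟨0, fun a X _ _ => by simp⟩
    | add x y _ _ hx hy =>
      obtain ⟨C, hC⟩ := hx
      obtain ⟨C', hC'⟩ := hy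
      refine ⟨C + C', fun a X h0 h => ?_⟩
      rw [add_dotProduct, Int.cast_add, Nat.cast_add, add_mul]
      exact (abs_add_le _ _).trans (add_le_add (hC a X h0 h) (hC' a X h0 h))
    | neg x _ hx =>
      obtain ⟨C, hC⟩ := hx
      exact ⟨C, fun a X h0 h => by rw [neg_dotProduct, Int.cast_neg, abs_neg]; exact hC a X h0 h⟩
  choose C hC using fun i : Fin k => h (Pi.single i 1) (hcl ▸ AddSubgroup.mem_top _)
  refine ⟨∑ i, C i, fun a X h0 hd i => ?_⟩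
  have := hC i a X h0 hd
  rw [single_dotProduct, one_mul] at this
  refine this.trans (mul_le_mul_of_nonneg_right ?_ h0)
  exact_mod_cast Finset.single_le_sum (f := C) (fun _ _ => Nat.zero_le _) (Finset.mem_univ i)

lemma numer {k : ℕ} (hk : 0 < k) {c A : ℝ} (hc : 0 < c) :
    ∃ N₀ : ℕ, ∀ N Q : ℕ, N₀ < N → 1 ≤ Q → N ≤ (Q + 1) ^ k → ∀ d : ℝ, 0 ≤ d → d ≤ A * N / Q →
      ¬ c * N ≤ d ^ (1 + 1 / (2 * k : ℝ)) := by
  obtain ⟨N₀, hN₀⟩ := exists_nat_ge (A ^ (2 * k + 1) * 4 ^ k / c ^ (2 * k))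
  refine ⟨N₀, fun N Q hN hQ hNQ d hd hdA h => ?_⟩
  have hk' : (0 : ℝ) < k := by exact_mod_cast hk
  have hNp : (0 : ℝ) < N := by exact_mod_cast (by omega : 0 < N)
  have hQ' : (1 : ℝ) ≤ Q := by exact_mod_cast hQ
  have h1 : (c * N) ^ (2 * k) ≤ d ^ (2 * k + 1) := by
    refine (pow_le_pow_left₀ (by positivity) h _).trans_eq ?_
    rw [← Real.rpow_natCast, ← Real.rpow_mul hd, ← Real.rpow_natCast]
    congr 1
    push_cast
    field_simp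
  have h2 : (N : ℝ) ≤ 2 ^ k * Q ^ k := by
    have : (N : ℝ) ≤ (Q + 1) ^ k := by exact_mod_cast hNQ
    rw [← mul_pow]
    exact this.trans (pow_le_pow_left₀ (by positivity) (by linarith) _)
  have h3 : d ^ (2 * k + 1) * Q ^ (2 * k + 1) ≤ (A * N) ^ (2 * k + 1) := by
    rw [← mul_pow]
    exact pow_le_pow_left₀ (by positivity) ((le_div_iff₀ (by positivity)).mp hdA) _
  have h4 : (N : ℝ) ^ 2 ≤ 4 ^ k * Q ^ (2 * k + 1) := by
    calc (N : ℝ) ^ 2 ≤ (2 ^ k * Q ^ k) ^ 2 := pow_le_pow_left₀ hNp.le h2 2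
      _ = 4 ^ k * Q ^ (2 * k) := by
        rw [mul_pow, ← pow_mul, ← pow_mul, mul_comm k 2, pow_mul]; norm_num
      _ ≤ 4 ^ k * Q ^ (2 * k + 1) :=
        mul_le_mul_of_nonneg_left (pow_le_pow_right₀ hQ' (by omega)) (by positivity)
  have h5 : (c * N) ^ (2 * k) * N ^ 2 ≤ 4 ^ k * (A * N) ^ (2 * k + 1) := by
    calc (c * N) ^ (2 * k) * N ^ 2 ≤ d ^ (2 * k + 1) * (4 ^ k * Q ^ (2 * k + 1)) :=
          mul_le_mul h1 h4 (by positivity) (by positivity)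
      _ = 4 ^ k * (d ^ (2 * k + 1) * Q ^ (2 * k + 1)) := by ring
      _ ≤ _ := mul_le_mul_of_nonneg_left h3 (by positivity)
  have h6 : c ^ (2 * k) * N ≤ A ^ (2 * k + 1) * 4 ^ k := by
    refine le_of_mul_le_mul_right (a := (N : ℝ) ^ (2 * k + 1)) ?_ (by positivity)
    refine le_of_eq_of_le ?_ (h5.trans_eq ?_) <;> ring
  have h7 : (N₀ : ℝ) < N := by exact_mod_cast hN
  rw [div_le_iff₀ (by positivity)] at hN₀
  nlinarith [pow_pos hc (2 * k)]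

lemma exists_Q {k N : ℕ} (hk : 0 < k) (hN : 2 ^ k < N) :
    ∃ Q : ℕ, 2 ≤ Q ∧ Q ^ k < N ∧ N ≤ (Q + 1) ^ k := by
  classical
  have h : ∃ Q : ℕ, N ≤ (Q + 1) ^ k := ⟨N, (Nat.le_succ N).trans (Nat.le_self_pow hk.ne' _)⟩
  have h1 := Nat.find_spec h
  have h2 : 2 ≤ Nat.find h := by
    by_contra hc
    have : (Nat.find h + 1) ^ k ≤ 2 ^ k := Nat.pow_le_pow_left (by omega) _
    omega
  refine ⟨Nat.find h, h2, ?_, h1⟩
  have := Nat.find_min h (m := Nat.find h - 1) (by omega)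
  rw [Nat.sub_add_cancel (by omega)] at this
  omega

/-- the elimination lemma for a direction that need not be primitive -/
lemma elim' (he : S_Elim) {F₁ F₂ : LQ ℚ k} (h1 : F₁ ≠ 0) (h2 : F₂ ≠ 0) (h : IsRelPrime F₁ F₂)
    (b : Fin k → ℤ) : ∃ E : LQ ℚ k, b ≠ 0 → E ≠ 0 ∧ E ∈ Ideal.span {F₁, F₂} ∧
      (∀ u ∈ E.coeff.support, u ⬝ᵥ b = 0) ∧
      ∀ (ω : (Fin k → ℤ) →+ ℝ) (δ w : ℝ), Wd (dotR b) δ F₁ → Wd (dotR b) δ F₂ →
        Wd ω w F₁ → Wd ω w F₂ → Wd ω ((δ + 1) * w + δ * w) E := by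
  by_cases hb : b = 0
  · exact ⟨0, fun h => absurd hb h⟩
  obtain ⟨g, hg, b₀, v, rfl, hv⟩ := prim hb
  let ρ : (Fin k → ℤ) →+ ℤ := AddMonoidHom.mk' (· ⬝ᵥ b₀) fun u w => add_dotProduct u w b₀
  obtain ⟨E, e1, e2, e3, e4⟩ := he k ρ v hv F₁ F₂ h1 h2 h
  have key : ∀ (δ : ℝ) (A : LQ ℚ k), A ≠ 0 → Wd (dotR ((g : ℤ) • b₀)) δ A →
      Wd (fun u => (ρ u : ℝ)) δ A := by
    intro δ A hA hw u hu u' hu'
    have h3 := hw u hu u' hu'
    have h4 := hw.nonneg hA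
    simp only [dotR_apply, dotProduct_smul, smul_eq_mul, Int.cast_mul, Int.cast_natCast] at h3
    have hg' : (1 : ℝ) ≤ g := by exact_mod_cast hg
    change ((u ⬝ᵥ b₀ : ℤ) : ℝ) - ((u' ⬝ᵥ b₀ : ℤ) : ℝ) ≤ δ
    by_contra hc
    nlinarith
  refine ⟨E, fun _ => ⟨e1, e2, fun u hu => ?_, fun ω δ w w1 w2 w3 w4 =>
    e4 ω δ δ w w (key δ _ h1 w1) (key δ _ h2 w2) w3 w4⟩⟩
  have : u ⬝ᵥ b₀ = 0 := e3 u hu
  rw [dotProduct_smul, this, smul_zero]

end CznA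

end Pool.Agent.P.MP_aef18a_nt
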