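import Pool.Agent.P.MP_aef18a_nt.Main

namespace Pool.Agent.P.MP_aef18a_nt

open Polynomial

/-- Laurent polynomials in `k` variables over `𝕜`; `LQ ℚ k` is `LP k`. -/
abbrev LQ (𝕜 : Type) [CommRing 𝕜] (k : ℕ) := AddMonoidAlgebra 𝕜 (Fin k → ℤ)

/-- `F(t^a)^*` is a nonempty product of at most `k` irreducibles. -/
def Fac (f : LaurentPolynomial ℚ) (k : ℕ) : Prop :=
  ∃ s : Multiset (LaurentPolynomial ℚ), s ≠ 0 ∧ s.card ≤ k ∧ (∀ p ∈ s, Irreducible p) ∧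
    IsStar f s.prod

section Gen

variable {𝕜 : Type} [CommRing 𝕜] {k : ℕ}

/-- the support has `ω`-width at most `w` -/
def Wd (ω : (Fin k → ℤ) → ℝ) (w : ℝ) (A : LQ 𝕜 k) : Prop :=
  ∀ u ∈ A.coeff.support, ∀ u' ∈ A.coeff.support, ω u - ω u' ≤ w

/-- `0 ≤ ρ ≤ δ` on the support -/
def Rng (ρ : (Fin k → ℤ) →+ ℤ) (δ : ℕ) (A : LQ 𝕜 k) : Prop :=
  ∀ u ∈ A.coeff.support, 0 ≤ ρ u ∧ ρ u ≤ δ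

/-- `A` as a polynomial in `x^v` with coefficients supported in the kernel of `ρ` -/
noncomputable def toP (ρ : (Fin k → ℤ) →+ ℤ) (v : Fin k → ℤ) (A : LQ 𝕜 k) : (LQ 𝕜 k)[X] :=
  ∑ u ∈ A.coeff.support,
    monomial (ρ u).toNat (AddMonoidAlgebra.single (u - ρ u • v) (A.coeff u))

/-- the resultant with respect to the grading `ρ` -/
noncomputable def rs (ρ : (Fin k → ℤ) →+ ℤ) (v : Fin k → ℤ) (δ e : ℕ) (G A : LQ 𝕜 k) : LQ 𝕜 k :=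
  resultant (toP ρ v G) (toP ρ v A) δ e

/-- the support of `A` lies in `j` times the Newton polytope of `G` -/
def Cl (G : LQ 𝕜 k) (j : ℕ) (A : LQ 𝕜 k) : Prop :=
  ∀ (ω : (Fin k → ℤ) →+ ℝ) (g : ℝ), Bd ω g G → Bd ω (j * g) A

/-- the toric derivation `x_i ∂/∂x_i` -/
noncomputable def dd (i : Fin k) (A : LQ 𝕜 k) : LQ 𝕜 k :=
  .ofCoeff (Finsupp.onFinset A.coeff.support (fun u => (u i : 𝕜) * A.coeff u)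
    (fun _ hu => Finsupp.mem_support_iff.mpr (right_ne_zero_of_mul hu)))

/-- the derivation tangent to the curve `G = 0` -/
noncomputable def DG (G A : LQ 𝕜 2) : LQ 𝕜 2 := dd 0 G * dd 1 A - dd 1 G * dd 0 A

/-- the support of `G` is not contained in a line -/
def NonSeg (G : LQ 𝕜 2) : Prop :=
  ∀ m : Fin 2 → ℤ, m ≠ 0 → ∃ u ∈ G.coeff.support, ∃ u' ∈ G.coeff.support,
    m 0 * (u 1 - u' 1) ≠ m 1 * (u 0 - u' 0)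

/-- evaluation of `A(t^a)` at `t = α` -/
noncomputable def evc [Algebra 𝕜 ℂ] (a : Fin k → ℤ) (α : ℂˣ) : LQ 𝕜 k →ₐ[𝕜] ℂ :=
  AddMonoidAlgebra.lift 𝕜 ℂ (Fin k → ℤ)
    { toFun := fun u => (α : ℂ) ^ (u.toAdd ⬝ᵥ a)
      map_one' := by simp
      map_mul' := fun u w => by
        rw [toAdd_mul, add_dotProduct, zpow_add₀ α.ne_zero] }

end Gen

/-- the first coordinate -/
def x0 : (Fin 2 → ℤ) → ℝ := fun u => (u 0 : ℝ)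

def NonTors (α : ℂˣ) : Prop := ¬ ∃ m, 0 < m ∧ (α : ℂ) ^ m = 1

/-- a vanishing sum without vanishing proper subsum -/
def MinVan {ι : Type} (α : ℂˣ) (I : Finset ι) (c : ι → ℚ) (e : ι → ℤ) : Prop :=
  ∑ i ∈ I, (c i : ℂ) * (α : ℂ) ^ e i = 0 ∧
    ∀ J ⊆ I, J.Nonempty → J ≠ I → ∑ i ∈ J, (c i : ℂ) * (α : ℂ) ^ e i ≠ 0

/-- the archimedean part of the height -/
noncomputable def Mm {K : Type} [Field K] [NumberField K] (β : K) : ℝ :=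
  ∏ σ : K →+* ℂ, max ‖σ β‖ 1

/-! ### Statements -/

def S_UFD : Prop :=
  ∀ (𝕜 : Type) [Field 𝕜] (k : ℕ), UniqueFactorizationMonoid (LQ 𝕜 k)

def S_Res1 : Prop :=
  ∀ (𝕜 : Type) [Field 𝕜] (k : ℕ) (ρ : (Fin k → ℤ) →+ ℤ) (v : Fin k → ℤ), ρ v = 1 →
    ∀ (δ e : ℕ) (G A : LQ 𝕜 k), Rng ρ δ G → Rng ρ e A →
      ((δ ≠ 0 ∨ e ≠ 0) → rs ρ v δ e G A ∈ Ideal.span {G, A}) ∧
      (∀ u ∈ (rs ρ v δ e G A).coeff.support, ρ u = 0) ∧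
      ∀ (ω : (Fin k → ℤ) →+ ℝ) (g b : ℝ), Bd ω g G → Bd ω b A →
        Bd ω (e * g + δ * b - e * δ * ω v) (rs ρ v δ e G A)

def S_Res2 : Prop :=
  ∀ (𝕜 : Type) [Field 𝕜] (k : ℕ) (ρ : (Fin k → ℤ) →+ ℤ) (v : Fin k → ℤ), ρ v = 1 →
    ∀ (δ e : ℕ) (G A : LQ 𝕜 k), Rng ρ δ G → Rng ρ e A →
      (∃ u ∈ G.coeff.support, ρ u = 0) → (∃ u ∈ G.coeff.support, ρ u = δ) →
      IsRelPrime G A → rs ρ v δ e G A ≠ 0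

def S_Res3 : Prop :=
  ∀ (𝕜 : Type) [Field 𝕜] (k : ℕ) (ρ : (Fin k → ℤ) →+ ℤ) (v : Fin k → ℤ), ρ v = 1 →
    ∀ (δ e : ℕ) (G A : LQ 𝕜 k), Rng ρ δ G → Rng ρ e A →
      (∀ (ε : ℕ) (Z : LQ 𝕜 k), Rng ρ ε Z → ε + δ ≤ e →
        rs ρ v δ e G (A + G * Z) = rs ρ v δ e G A) ∧
      ∀ m : Fin k → ℤ, ρ m = 0 →
        rs ρ v δ e G (AddMonoidAlgebra.single m 1 * A) =
          AddMonoidAlgebra.single (δ • m) 1 * rs ρ v δ e G A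

def S_Elim : Prop :=
  ∀ (k : ℕ) (ρ : (Fin k → ℤ) →+ ℤ) (v : Fin k → ℤ), ρ v = 1 →
    ∀ G A : LQ ℚ k, G ≠ 0 → A ≠ 0 → IsRelPrime G A →
      ∃ E : LQ ℚ k, E ≠ 0 ∧ E ∈ Ideal.span {G, A} ∧ (∀ u ∈ E.coeff.support, ρ u = 0) ∧
        ∀ (ω : (Fin k → ℤ) →+ ℝ) (δ e wG wA : ℝ), Wd (fun u => (ρ u : ℝ)) δ G →
          Wd (fun u => (ρ u : ℝ)) e A → Wd ω wG G → Wd ω wA A →
          Wd ω ((e + 1) * wG + δ * wA) E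

def S_TT : Prop :=
  ∀ G : LQ ℂ 2, Prime G → NonSeg G → ∀ (j : ℕ) (A₁ A₂ : LQ ℂ 2) (m : Fin 2 → ℤ) (W : ℝ),
    Cl G j A₁ → Cl G j A₂ → ¬ G ∣ A₁ → G ∣ AddMonoidAlgebra.single m 1 * A₁ - A₂ →
    Wd x0 W G → |(m 0 : ℝ)| ≤ 2 * j * W

def S_Const : Prop :=
  ∀ G : LQ ℂ 2, Prime G → NonSeg G → ∀ P₁ P₂ : LQ ℂ 2, ¬ G ∣ P₂ →
    G ∣ P₂ * DG G P₁ - P₁ * DG G P₂ → ∃ κ : ℂ, G ∣ P₁ - κ • P₂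

def S_M2 : Prop :=
  ∀ s j : ℕ, ∃ C : ℕ, ∀ G : LQ ℂ 2, Prime G → NonSeg G → ∀ W : ℝ, Wd x0 W G →
    ∀ (ι : Type) (I : Finset ι) (B : ι → LQ ℂ 2) (m : ι → Fin 2 → ℤ), I.card ≤ s →
      (∀ i ∈ I, Cl G j (B i)) → G ∣ ∑ i ∈ I, B i * AddMonoidAlgebra.single (m i) 1 →
      (∀ J ⊆ I, J.Nonempty → J ≠ I → ¬ G ∣ ∑ i ∈ J, B i * AddMonoidAlgebra.single (m i) 1) →
      ∀ i ∈ I, ∀ i' ∈ I, |(m i 0 : ℝ) - m i' 0| ≤ C * W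

def S_Geo : Prop :=
  ∀ s : ℕ, ∃ C : ℕ, ∀ (α : ℂˣ) (G : LQ ℚ 2), G ≠ 0 → evc ![1, 0] α G = 0 →
    (∀ W : ℝ, Wd x0 W G →
      ∀ (ι : Type) (I : Finset ι) (c : ι → ℚ) (m : ι → Fin 2 → ℤ), I.card ≤ s →
        G ∣ ∑ i ∈ I, AddMonoidAlgebra.single (m i) (c i) → MinVan α I c (fun i => m i 0) →
        ∀ i ∈ I, ∀ i' ∈ I, |(m i 0 : ℝ) - m i' 0| ≤ C * W) ∨
    ∃ μ : Fin 2 → ℤ, μ ≠ 0 ∧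
      ∀ (ι : Type) (I : Finset ι) (c : ι → ℚ) (m : ι → Fin 2 → ℤ),
        G ∣ ∑ i ∈ I, AddMonoidAlgebra.single (m i) (c i) → MinVan α I c (fun i => m i 0) →
        ∀ i ∈ I, ∀ i' ∈ I, μ 0 * (m i 1 - m i' 1) = μ 1 * (m i 0 - m i' 0)

def S_Gap : Prop :=
  ∀ (K : Type) [Field K] [NumberField K] (β : K), β ≠ 0 →
    ∀ (ι : Type) (I : Finset ι) (c e : ι → ℤ) (s B : ℕ), I.card ≤ s → 1 ≤ B →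
      (∀ i ∈ I, |c i| ≤ B) → ∑ i ∈ I, (c i : K) * β ^ e i = 0 →
      (∀ w : ℤ, (∃ i ∈ I, e i ≤ w) → (∃ i ∈ I, w < e i) →
        ∑ i ∈ I.filter (fun i => e i ≤ w), (c i : K) * β ^ e i ≠ 0) →
      ∀ i ∈ I, ∀ i' ∈ I, Height.mulHeight₁ β ^ (e i - e i').toNat ≤
        (((s : ℝ) * B) ^ s) ^ Height.totalWeight K

def S_Dob1 : Prop :=
  ∀ (K : Type) [Field K] [NumberField K] (β : K),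
    Mm β ≤ Height.mulHeight₁ β ∧ (¬ IsIntegral ℤ β → 2 ≤ Height.mulHeight₁ β)

def S_Dob2 : Prop :=
  ∀ (K : Type) [Field K] [NumberField K] (β : K), IsIntegral ℤ β → ∀ T n H : ℕ, 0 < n →
    (6 * (n : ℝ) ^ T * (H + 1)) ^ (2 * Module.finrank ℚ K * T) * Mm β ^ (2 * n * T) <
      ((H : ℝ) + 1) ^ n →
    ∃ A : ℤ[X], A ≠ 0 ∧ A.natDegree < n ∧ (∀ i, |A.coeff i| ≤ H) ∧ minpoly ℤ β ^ T ∣ A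

def S_Dob3 : Prop :=
  ∀ (K : Type) [Field K] [NumberField K] (β : K), IsIntegral ℤ β → ∀ p : ℕ, p.Prime →
    ∀ (T n H : ℕ) (A : ℤ[X]), A.natDegree < n → (∀ i, |A.coeff i| ≤ H) → minpoly ℤ β ^ T ∣ A →
      aeval (β ^ p) A ≠ 0 →
      (p : ℝ) ^ (T * Module.finrank ℚ K) ≤ ((n : ℝ) * H) ^ Module.finrank ℚ K * Mm β ^ (p * n)

def S_Dob4 : Prop :=
  ∀ (K : Type) [Field K] [NumberField K] (β : K),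
    (minpoly ℚ β).natDegree = Module.finrank ℚ K → ∀ (P : Finset ℕ) (Y : ℕ),
      (∀ p ∈ P, p.Prime ∧ Y < p ∧ (minpoly ℚ (β ^ p)).natDegree ≠ Module.finrank ℚ K) →
      Y ^ P.card ≤ Module.finrank ℚ K ^ 2

def S_Dob5 : Prop :=
  ∀ (K : Type) [Field K] [NumberField K] (β : K), IsIntegral ℤ β → β ≠ 0 →
    (¬ ∃ m, 0 < m ∧ β ^ m = 1) → ∀ (P : Finset ℕ) (A : ℤ[X]), A ≠ 0 →
      (∀ p ∈ P, (minpoly ℚ (β ^ p)).natDegree = Module.finrank ℚ K ∧ aeval (β ^ p) A = 0) →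
      P.card * Module.finrank ℚ K ≤ A.natDegree

def S_Dob : Prop :=
  ∀ η : ℝ, 0 < η → ∃ c : ℝ, 0 < c ∧ ∀ (K : Type) [Field K] [NumberField K] (β : K), β ≠ 0 →
    (¬ ∃ m, 0 < m ∧ β ^ m = 1) → (minpoly ℚ β).natDegree = Module.finrank ℚ K →
    c ≤ (Module.finrank ℚ K : ℝ) ^ η * Real.log (Height.mulHeight₁ β)

def S_Deg : Prop :=
  ∀ (s : ℕ) (Cs : Finset ℚ) (η : ℝ), 0 < η → ∃ c : ℝ, 0 < c ∧ ∀ α : ℂˣ, NonTors α →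
    ∀ (ι : Type) (I : Finset ι) (cf : ι → ℚ) (e : ι → ℤ), I.card ≤ s → (∀ i ∈ I, cf i ∈ Cs) →
      MinVan α I cf e → ∀ i ∈ I, ∀ i' ∈ I,
        c * |(e i : ℝ) - e i'| ≤ ((minpoly ℚ (α : ℂ)).natDegree : ℝ) ^ (1 + η)

def S_DegUp : Prop :=
  ∀ (α : ℂˣ) (k : ℕ) (a : Fin k → ℤ) (E : LQ ℚ k) (w : ℝ), E ≠ 0 →
    Set.InjOn (· ⬝ᵥ a) E.coeff.support → evc a α E = 0 →
    Wd (fun u => ((u ⬝ᵥ a : ℤ) : ℝ)) w E → ((minpoly ℚ (α : ℂ)).natDegree : ℝ) ≤ w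

def S_Dir : Prop :=
  ∀ (r : ℕ) (a : Fin r → ℤ) (N Q : ℕ), 0 < N → 0 < Q → ∃ τ : ℕ, 0 < τ ∧ τ ≤ Q ^ r ∧
    ∃ b : Fin r → ℤ, ∀ i, |τ * a i - N * b i| * Q ≤ N

def S_Avoid : Prop :=
  ∀ (k : ℕ) (Ps : Finset (LQ ℚ k)), Ps.Nonempty → (∀ B ∈ Ps, B ≠ 0) →
    (∀ π : LQ ℚ k, Prime π → ∃ B ∈ Ps, ¬ π ∣ B) →
    ∃ F₁ F₂ : LQ ℚ k, F₁ ≠ 0 ∧ F₂ ≠ 0 ∧ F₁ ∈ Ideal.span (Ps : Set (LQ ℚ k)) ∧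
      F₂ ∈ Ideal.span (Ps : Set (LQ ℚ k)) ∧ IsRelPrime F₁ F₂

/-- the differences of exponents inside the members of `Ps` -/
def Dif {k : ℕ} (Ps : Finset (LQ ℚ k)) : Set (Fin k → ℤ) :=
  {d | ∃ B ∈ Ps, ∃ u ∈ B.coeff.support, ∃ u' ∈ B.coeff.support, d = u - u'}

/-- off finitely many hyperplanes the members of `Ps` do not all vanish minimally -/
def NoMin {k : ℕ} (Ps : Finset (LQ ℚ k)) : Prop :=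
  ∃ Γ : Finset (Fin k → ℤ), 0 ∉ Γ ∧ ∀ a : Fin k → ℤ, (∀ c ∈ Γ, c ⬝ᵥ a ≠ 0) →
    ∀ α : ℂˣ, NonTors α → ¬ ∀ B ∈ Ps, MinVan α B.coeff.support B.coeff (· ⬝ᵥ a)

def S_CZN : Prop :=
  ∀ (k : ℕ) (Ps : Finset (LQ ℚ k)), Ps.Nonempty → (∀ B ∈ Ps, B ≠ 0) →
    (∀ π : LQ ℚ k, Prime π → ∃ B ∈ Ps, ¬ π ∣ B) → AddSubgroup.closure (Dif Ps) = ⊤ → NoMin Ps

def S_CZP : Prop :=
  ∀ (k : ℕ) (Ps : Finset (LQ ℚ k)), Ps.Nonempty → (∀ B ∈ Ps, B ≠ 0) →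
    (∀ π : LQ ℚ k, Prime π → ∃ B ∈ Ps, ¬ π ∣ B) → NoMin Ps

def S_CZ : Prop := ∀ (n : ℕ) (F : LP n), Irreducible F → CZ F

def S_Pig : Prop :=
  ∀ (n : ℕ) (F : LQ ℤ n) (q : ℕ), q.Prime → (∃ u, ¬ (q : ℤ) ∣ F.coeff u) →
    ∀ (T D : ℕ) (Ω Ωm : ℕ → Finset (Fin n → ℤ)),
      (∀ j < T, ∀ m ∈ Ωm j, ∀ u, ¬ (q : ℤ) ∣ F.coeff u → m + u ∈ Ω j) →
      (∀ j < T, Ω j ⊆ Ω (j + 1)) →
      (∀ j < T, ∀ m ∈ Ωm j, ∀ u ∈ F.coeff.support, m + u ∈ Ω (j + 1)) →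
      (∀ j < T, (Ω j).card ≤ (Ωm j).card + D) →
      ∀ H : ℕ, q ^ (T * D) < (H + 1) ^ (Ω 0).card →
        ∃ B : LQ ℤ n, B ≠ 0 ∧ B.coeff.support ⊆ Ω 0 ∧ (∀ u, |B.coeff u| ≤ H) ∧
          ∃ G B' : LQ ℤ n, B'.coeff.support ⊆ Ω T ∧ B = F * G + (q ^ T : ℕ) • B'

def S_Sieg : Prop :=
  ∀ (n : ℕ) (F : LQ ℤ n) (q : ℕ), q.Prime → (∃ u, ¬ (q : ℤ) ∣ F.coeff u) → ∀ (K : ℕ) (C : ℝ),
    ∃ T L H : ℕ, ∀ (a : Fin n → ℤ), ∀ ulo ∈ F.coeff.support, ∀ uhi ∈ F.coeff.support,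
      (∀ u ∈ F.coeff.support, ulo ⬝ᵥ a ≤ u ⬝ᵥ a ∧ u ⬝ᵥ a ≤ uhi ⬝ᵥ a) → ulo ⬝ᵥ a < uhi ⬝ᵥ a →
      (∀ w, ¬ (q : ℤ) ∣ F.coeff w → uhi ⬝ᵥ a - ulo ⬝ᵥ a ≤ K * (uhi ⬝ᵥ a - w ⬝ᵥ a)) →
      ∃ B : LQ ℤ n, B ≠ 0 ∧
        (∀ u ∈ B.coeff.support, (∀ i, |u i| ≤ L) ∧ 0 ≤ u ⬝ᵥ a ∧ u ⬝ᵥ a < uhi ⬝ᵥ a - ulo ⬝ᵥ a) ∧
        (∀ u, |B.coeff u| ≤ H) ∧ (B.coeff.support.card : ℝ) * H * C < (q : ℝ) ^ T ∧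
        ∃ G B' : LQ ℤ n, (∀ u ∈ B'.coeff.support, 0 ≤ u ⬝ᵥ a) ∧ B = F * G + (q ^ T : ℕ) • B'

def S_ML : Prop :=
  ∀ (n : ℕ) (F : LQ ℤ n), CZ (toQ F) → ∀ q : ℕ, q.Prime → (∃ u, ¬ (q : ℤ) ∣ F.coeff u) →
    ∀ K : ℕ, ∃ Γ : Finset (Fin n → ℤ), 0 ∉ Γ ∧ ∀ a : Fin n → ℤ, (∀ c ∈ Γ, c ⬝ᵥ a ≠ 0) →
      ∀ ulo ∈ F.coeff.support, ∀ uhi ∈ F.coeff.support,
        (∀ u ∈ F.coeff.support, ulo ⬝ᵥ a ≤ u ⬝ᵥ a ∧ u ⬝ᵥ a ≤ uhi ⬝ᵥ a) → ulo ⬝ᵥ a < uhi ⬝ᵥ a →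
        (∀ w, ¬ (q : ℤ) ∣ F.coeff w → uhi ⬝ᵥ a - ulo ⬝ᵥ a ≤ K * (uhi ⬝ᵥ a - w ⬝ᵥ a)) →
        ∀ p : ℤ[X], toLaurent p ∣ AddMonoidAlgebra.mapDomain (· ⬝ᵥ a) F →
          ¬ (q : ℤ) ∣ p.leadingCoeff → ∀ α : ℂ, α ≠ 0 → aeval α p = 0 → ∃ m, 0 < m ∧ α ^ m = 1

def S_Fac : Prop :=
  ∀ (n : ℕ) (F : LQ ℤ n), Irreducible (toQ F) → ∀ q : ℕ, q.Prime →
    (∃ u, ¬ (q : ℤ) ∣ F.coeff u) →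
    ∀ K : ℕ, ∃ Γ : Finset (Fin n → ℤ), 0 ∉ Γ ∧ ∀ a : Fin n → ℤ, (∀ c ∈ Γ, c ⬝ᵥ a ≠ 0) →
      ∀ u ∈ F.coeff.support, (∀ w ∈ F.coeff.support, w ⬝ᵥ a ≤ u ⬝ᵥ a) →
        (∀ w, ¬ (q : ℤ) ∣ F.coeff w → ∀ w' ∈ F.coeff.support,
          u ⬝ᵥ a - w' ⬝ᵥ a ≤ K * (u ⬝ᵥ a - w ⬝ᵥ a)) →
        ∀ k : ℕ, ¬ (q : ℤ) ^ (k + 1) ∣ F.coeff u → Fac (spec a (toQ F)) k

def S_Cpt : Prop :=
  ∀ (n : ℕ) (S : Finset (Fin n → ℤ)) (V : (Fin n → ℤ) → Prop) (R : (Fin n → ℤ) → ℕ → Prop)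
    (bad : ℕ → (Fin n → ℤ) → Prop),
    (∀ x : Fin n → ℝ, (∃ u ∈ S, ∃ u' ∈ S, lin x u ≠ lin x u') → ∀ u ∈ S,
      (∀ w ∈ S, lin x w ≤ lin x u) → V u →
        ∃ q, R u q ∧ ∀ w ∈ S, lin x w = lin x u → ¬ bad q w) →
    ∃ K : ℕ, ∀ x : Fin n → ℝ, (∃ u ∈ S, ∃ u' ∈ S, lin x u ≠ lin x u') → ∀ u ∈ S,
      (∀ w ∈ S, lin x w ≤ lin x u) → V u →
        ∃ q, R u q ∧ ∀ w ∈ S, bad q w → ∀ w' ∈ S, lin x u - lin x w' ≤ K * (lin x u - lin x w)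

end Pool.Agent.P.MP_aef18a_nt
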