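import Pool.Agent.P.MP_aef18a_nt.Ad.Basic

namespace Pool.Agent.P.MP_aef18a_nt

open Polynomial

namespace Dob5A

variable {K : Type} [Field K] [NumberField K]

lemma ne_of_lt {β : K} (hi : IsIntegral ℤ β) (h0 : β ≠ 0) (ht : ¬ ∃ m, 0 < m ∧ β ^ m = 1)
    {p q : ℕ} (h : p < q) : minpoly ℚ (β ^ p) ≠ minpoly ℚ (β ^ q) := by
  intro e
  obtain ⟨σ, hσ⟩ := Finite.exists_max fun φ : K →+* ℂ => ‖φ β‖
  have h1 : σ (β ^ q) ∈ Set.range fun φ : K →+* ℂ => φ (β ^ p) := by
    rw [NumberField.Embeddings.range_eval_eq_rootSet_minpoly, e,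
      ← NumberField.Embeddings.range_eval_eq_rootSet_minpoly]
    exact ⟨σ, rfl⟩
  obtain ⟨τ, hτ⟩ := h1
  have h2 : ‖σ β‖ ^ q ≤ ‖σ β‖ ^ p := by
    have := congrArg norm hτ
    simp only [map_pow, norm_pow] at this
    rw [← this]
    exact pow_le_pow_left₀ (norm_nonneg _) (hσ τ) p
  have h3 : ‖σ β‖ ≤ 1 := by
    by_contra k
    exact absurd h2 (not_le.2 (pow_lt_pow_right₀ (not_le.1 k) h))
  obtain ⟨n, hn, k⟩ := NumberField.Embeddings.pow_eq_one_of_norm_le_one K ℂ h0 hi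
    fun φ => (hσ φ).trans h3
  exact ht ⟨n, hn, k⟩

lemma coprime_of_ne {x y : K} (h : minpoly ℚ x ≠ minpoly ℚ y) :
    IsCoprime (minpoly ℚ x) (minpoly ℚ y) := by
  have hx : IsIntegral ℚ x := Algebra.IsIntegral.isIntegral x
  have hy : IsIntegral ℚ y := Algebra.IsIntegral.isIntegral y
  rw [(minpoly.irreducible hx).coprime_iff_not_dvd]
  intro k
  exact h (eq_of_monic_of_associated (minpoly.monic hx) (minpoly.monic hy)
    ((minpoly.irreducible hx).associated_of_dvd (minpoly.irreducible hy) k))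

end Dob5A

theorem dob5 : S_Dob5 := by
  intro K _ _ β hi h0 ht P A hA hP
  have hA' : A.map (algebraMap ℤ ℚ) ≠ 0 :=
    (Polynomial.map_ne_zero_iff (algebraMap ℤ ℚ).injective_int).2 hA
  have hd : (∏ p ∈ P, minpoly ℚ (β ^ p)) ∣ A.map (algebraMap ℤ ℚ) := by
    refine Finset.prod_dvd_of_coprime ?_ fun p hp => ?_
    · intro p _ q _ hpq
      refine Dob5A.coprime_of_ne ?_
      rcases lt_or_gt_of_ne hpq with h | h
      exacts [Dob5A.ne_of_lt hi h0 ht h, (Dob5A.ne_of_lt hi h0 ht h).symm]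
    · exact minpoly.dvd _ _ (by rw [aeval_map_algebraMap]; exact (hP p hp).2)
  have h1 := natDegree_le_of_dvd hd hA'
  rw [natDegree_prod_of_monic _ _ fun p _ => minpoly.monic (Algebra.IsIntegral.isIntegral _),
    Finset.sum_congr rfl fun p hp => (hP p hp).1, Finset.sum_const, smul_eq_mul] at h1
  exact h1.trans natDegree_map_le

end Pool.Agent.P.MP_aef18a_nt
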