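import Pool.Agent.P.MP_aef18a_nt.Ad.Basic

namespace Pool.Agent.P.MP_aef18a_nt

open Polynomial LaurentPolynomial

theorem fac2 (hz : S_CZ) (hm : S_ML) : S_Fac := by
  classical
  intro n F hF q hq hnd K
  have hqZ : Prime (q : ℤ) := Nat.prime_iff_prime_int.mp hq
  obtain ⟨Γ, hΓ0, hΓ⟩ := hm n F (hz n _ hF) q hq hnd K
  refine ⟨Γ ∪ ((F.coeff.support ×ˢ F.coeff.support).image fun p => p.1 - p.2).erase 0,
    by simp [hΓ0], fun a ha u hu hmax hgap k hk => ?_⟩
  have hinj : Set.InjOn (· ⬝ᵥ a) F.coeff.support := by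
    intro w hw w' hw' e
    by_contra hne
    refine ha (w - w') (Finset.mem_union_right _ (Finset.mem_erase.mpr ⟨sub_ne_zero.mpr hne,
      Finset.mem_image.mpr ⟨(w, w'), Finset.mem_product.mpr ⟨hw, hw'⟩, rfl⟩⟩)) ?_
    simp only at e
    rw [sub_dotProduct, e, sub_self]
  obtain ⟨ulo, hlo, hmin⟩ := F.coeff.support.exists_min_image (· ⬝ᵥ a) ⟨u, hu⟩
  have hlt : ulo ⬝ᵥ a < u ⬝ᵥ a := by
    by_contra hc
    have h1 : (toQ F).coeff.support ⊆ {u} := fun w hw => by
      rw [support_toQ] at hw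
      exact Finset.mem_singleton.mpr (hinj hw hu
        (le_antisymm (hmax w hw) ((not_lt.mp hc).trans (hmin w hw))))
    have h2 : toQ F = AddMonoidAlgebra.single u ((toQ F).coeff u) := by
      ext1
      rw [AddMonoidAlgebra.coeff_single]
      exact Finsupp.support_subset_singleton.mp h1
    exact hF.not_isUnit (h2 ▸ isUnit_single u
      (Finsupp.mem_support_iff.mp (support_toQ F ▸ hu)).isUnit)
  have hqu : (q : ℤ) ∣ F.coeff u := by
    by_contra h
    have := hgap u h ulo hlo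
    rw [sub_self, mul_zero] at this
    omega
  have hun := hΓ a (fun c hc => ha c (Finset.mem_union_left _ hc)) ulo hlo u hu
    (fun w hw => ⟨hmin w hw, hmax w hw⟩) hlt (fun w hw => hgap w hw ulo hlo)
  have hF0 : F ≠ 0 := by
    rintro rfl
    simp at hu
  set f := AddMonoidAlgebra.mapDomain (· ⬝ᵥ a) F with hfdef
  have hf : f ≠ 0 := mapDomain_ne_zero hinj hF0
  obtain ⟨f₀, j, hf₀, hc₀⟩ := exists_poly hf
  have hf₀0 : f₀ ≠ 0 := by rintro rfl; simp at hc₀
  have top : ∀ m : ℤ, m ∣ f₀.leadingCoeff ↔ m ∣ F.coeff u := by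
    intro m
    rw [← dv_top hf₀0, hf₀, dv_mul_T hf, hfdef, dv_mapDomain hinj]
    refine ⟨fun h => h u hu fun w hw => ?_, fun h w hw hm => ?_⟩
    · simpa using hmax w hw
    · have := hm u hu
      rwa [hinj hw hu (le_antisymm (hmax w hw) (by simpa using this))]
  obtain ⟨s₀, hs₀, hass₀⟩ := WfDvdMonoid.exists_factors f₀ hf₀0
  set s := s₀.filter fun g => (q : ℤ) ∣ g.leadingCoeff with hsdef
  obtain ⟨f₁, hf₁, l1⟩ : ∃ f₁, f₀ = s.prod * f₁ ∧ ¬ (q : ℤ) ∣ f₁.leadingCoeff := by
    obtain ⟨v, hv⟩ := hass₀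
    refine ⟨(s₀.filter fun g => ¬ (q : ℤ) ∣ g.leadingCoeff).prod * v, ?_, fun h => ?_⟩
    · rw [← mul_assoc, ← Multiset.prod_add, Multiset.filter_add_not, hv]
    · rw [leadingCoeff_mul] at h
      rcases hqZ.dvd_or_dvd h with h | h
      · rw [← leadingCoeffHom_apply, map_multiset_prod] at h
        obtain ⟨c, hc, hqc⟩ := hqZ.exists_mem_multiset_dvd h
        obtain ⟨g, hg, rfl⟩ := Multiset.mem_map.mp hc
        exact (Multiset.mem_filter.mp hg).2 hqc
      · exact hqZ.not_isUnit (isUnit_of_dvd_unit h (v.isUnit.map leadingCoeffHom))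
  have hf₁0 : f₁ ≠ 0 := by rintro rfl; simp at l1
  have hfac : f = toLaurent s.prod * (toLaurent f₁ * T (-j)) := by
    rw [← mul_assoc, ← map_mul, ← hf₁, hf₀, mul_T_assoc, add_neg_cancel, T_zero, mul_one]
  have hs : ∀ g ∈ s, Irreducible g ∧ (q : ℤ) ∣ g.leadingCoeff ∧ g.coeff 0 ≠ 0 ∧
      Prime (g.map (Int.castRingHom ℚ)) := by
    intro g hg
    obtain ⟨h1, h2⟩ := Multiset.mem_filter.mp hg
    have hd : g ∣ s.prod := Multiset.dvd_prod hg
    have hdeg : g.natDegree ≠ 0 := by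
      intro h0
      obtain ⟨w, hw⟩ := hnd
      apply hw
      have h3 : ((q : ℤ) : ℤ[T;T⁻¹]) ∣ f := by
        rw [hfac]
        refine Dvd.dvd.mul_right (Dvd.dvd.trans ?_ (_root_.map_dvd toLaurent hd)) _
        rw [leadingCoeff, h0] at h2
        rw [eq_C_of_natDegree_eq_zero h0]
        simpa using map_dvd (toLaurent.comp Polynomial.C) h2
      by_cases hus : w ∈ F.coeff.support
      · have := (intCast_dvd_iff _ _).mp h3 (w ⬝ᵥ a)
        rwa [hfdef, AddMonoidAlgebra.coeff_mapDomain,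
          Finsupp.mapDomain_apply' _ F.coeff subset_rfl hinj hus] at this
      · rw [Finsupp.notMem_support_iff.mp hus]
        exact dvd_zero _
    refine ⟨hs₀ g h1, h2, fun h => hc₀ ?_, ((IsPrimitive.Int.irreducible_iff_irreducible_map_cast
      ((hs₀ g h1).isPrimitive hdeg)).mp (hs₀ g h1)).prime⟩
    rw [← X_dvd_iff] at h ⊢
    exact h.trans (hd.trans ⟨f₁, hf₁⟩)
  obtain ⟨t, ht, hass⟩ := cyc_prod (p := f₁.map (Int.castRingHom ℚ))
    ((Polynomial.map_ne_zero_iff (RingHom.injective_int _)).mpr hf₁0) fun α hα => by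
      rw [← algebraMap_int_eq, aeval_map_algebraMap] at hα
      refine hun f₁ ⟨toLaurent s.prod * T (-j), by rw [hfac]; ring⟩ l1 α ?_ hα
      rintro rfl
      rw [← coeff_zero_eq_aeval_zero'] at hα
      apply hc₀
      rw [hf₁, mul_coeff_zero, (map_eq_zero_iff _ (RingHom.injective_int _)).mp hα, mul_zero]
  have hpr : (s.map fun g => toLaurent (g.map (Int.castRingHom ℚ))).prod =
      toLaurent (s.prod.map (Int.castRingHom ℚ)) := by
    rw [Polynomial.map_multiset_prod, map_multiset_prod, Multiset.map_map]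
    rfl
  refine ⟨s.map fun g => toLaurent (g.map (Int.castRingHom ℚ)), ?_, ?_, ?_, ⟨t, ht, ?_⟩,
    fun m hm hd => ?_⟩
  · intro h
    rw [Multiset.map_eq_zero] at h
    rw [h, Multiset.prod_zero, one_mul] at hf₁
    exact l1 (hf₁ ▸ (top q).mpr hqu)
  · rw [Multiset.card_map]
    by_contra hc
    refine hk ((top _).mp ((pow_dvd_pow _ (not_le.mp hc)).trans ?_))
    rw [hf₁, leadingCoeff_mul, ← leadingCoeffHom_apply, map_multiset_prod]
    refine Dvd.dvd.mul_right ?_ _
    rw [← Multiset.prod_replicate, ← Multiset.map_const']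
    exact Multiset.prod_dvd_prod_of_dvd _ _ fun g hg => (hs g hg).2.1
  · intro p hp
    obtain ⟨g, hg, rfl⟩ := Multiset.mem_map.mp hp
    exact irreducible_toLaurent (hs g hg).2.2.2 (by simpa using (hs g hg).2.2.1)
  · rw [hpr, spec_toQ, ← hfdef, hfac, toQ, map_mul, map_mul, map_toLaurent, map_toLaurent, map_T]
    refine Associated.mul_left _ ((associated_mul_unit_left _ _ (isUnit_T _)).trans ?_)
    have := hass.map toLaurent
    rwa [map_multiset_prod, Multiset.map_map] at this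
  · have hcyc0 : (cyclotomic m ℚ).coeff 0 ≠ 0 := by
      rcases Nat.lt_or_ge 1 m with h | h
      · rw [cyclotomic_coeff_zero ℚ h]; exact one_ne_zero
      · obtain rfl : m = 1 := by omega
        simp
    have hp := (cyclotomic.irreducible_rat hm).prime
    rw [hpr, toLaurent_dvd_iff hp hcyc0, Polynomial.map_multiset_prod] at hd
    obtain ⟨c, hc, hd⟩ := hp.exists_mem_multiset_dvd hd
    obtain ⟨g, hg, rfl⟩ := Multiset.mem_map.mp hc
    rw [← map_cyclotomic_int, map_dvd_map _ (RingHom.injective_int _) (cyclotomic.monic m ℤ)] at hd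
    have hass := (cyclotomic.irreducible hm).associated_of_dvd (hs g hg).1 hd
    have := map_dvd leadingCoeffHom hass.symm.dvd
    simp only [leadingCoeffHom_apply, (cyclotomic.monic m ℤ).leadingCoeff] at this
    exact hqZ.not_dvd_one ((hs g hg).2.1.trans this)

end Pool.Agent.P.MP_aef18a_nt
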