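import Pool.Agent.P.MP_aef18a_nt.Ad.Basic

namespace Pool.Agent.P.MP_aef18a_nt

open Finset

namespace SiegA

variable {n : ℕ}

/-- lattice points of a box in a slab -/
noncomputable def Hs (a : Fin n → ℤ) (L : ℕ) (t : ℤ) : Finset (Fin n → ℤ) :=
  (Fintype.piFinset fun _ => Icc (-(L : ℤ)) L).filter fun m => 0 ≤ m ⬝ᵥ a ∧ m ⬝ᵥ a < t

lemma mem_Hs {a m : Fin n → ℤ} {L : ℕ} {t : ℤ} :
    m ∈ Hs a L t ↔ (∀ i, |m i| ≤ L) ∧ 0 ≤ m ⬝ᵥ a ∧ m ⬝ᵥ a < t := by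
  simp only [Hs, mem_filter, Fintype.mem_piFinset, mem_Icc, abs_le]

lemma card_Hs (a : Fin n → ℤ) (L : ℕ) (t : ℤ) : (Hs a L t).card ≤ (2 * L + 1) ^ n := by
  refine (card_filter_le _ _).trans_eq ?_
  rw [Fintype.card_piFinset, prod_const, card_univ, Fintype.card_fin, Int.card_Icc]
  congr 1
  omega

lemma Hs_mono {a : Fin n → ℤ} {L L' : ℕ} {t t' : ℤ} (h : L ≤ L') (h' : t ≤ t') :
    Hs a L t ⊆ Hs a L' t' := fun m hm => by
  obtain ⟨h1, h2, h3⟩ := mem_Hs.1 hm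
  exact mem_Hs.2 ⟨fun i => (h1 i).trans (by exact_mod_cast h), h2, h3.trans_le h'⟩

lemma Hs_pos (a : Fin n → ℤ) (L : ℕ) {t : ℤ} (h : 0 < t) : 0 < (Hs a L t).card :=
  card_pos.2 ⟨0, mem_Hs.2 ⟨fun i => by simp, by simp, by simpa using h⟩⟩

lemma strip {a d : Fin n → ℤ} {c : ℕ} (hd : ∀ i, |d i| ≤ c) (hg : 0 < d ⬝ᵥ a) (L M : ℕ) {t : ℤ}
    (ht : t ≤ M * (d ⬝ᵥ a)) : (Hs a L t).card ≤ M * (Hs a (L + M * c) (d ⬝ᵥ a)).card := by
  have : Hs a L t ⊆ (range M).biUnion fun k =>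
      (Hs a (L + M * c) (d ⬝ᵥ a)).image (· + (k : ℤ) • d) := by
    intro x hx
    obtain ⟨h1, h2, h3⟩ := mem_Hs.1 hx
    obtain ⟨k, hk⟩ := Int.eq_ofNat_of_zero_le (Int.ediv_nonneg h2 hg.le)
    have h4 : (k : ℤ) < M := hk ▸ Int.ediv_lt_of_lt_mul hg (h3.trans_le ht)
    have h5 := Int.emod_nonneg (x ⬝ᵥ a) hg.ne'
    have h6 := Int.emod_lt_of_pos (x ⬝ᵥ a) hg
    rw [Int.emod_def, hk] at h5 h6
    refine mem_biUnion.2 ⟨k, mem_range.2 (by exact_mod_cast h4),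
      mem_image.2 ⟨x - (k : ℤ) • d, mem_Hs.2 ⟨fun i => ?_, ?_, ?_⟩, sub_add_cancel _ _⟩⟩
    · rw [Pi.sub_apply, Pi.smul_apply, smul_eq_mul]
      refine (abs_sub _ _).trans ?_
      rw [abs_mul, Nat.abs_cast]
      push_cast
      exact add_le_add (h1 i) (mul_le_mul h4.le (hd i) (abs_nonneg _) (by positivity))
    · rw [sub_dotProduct, smul_dotProduct, smul_eq_mul]; linarith
    · rw [sub_dotProduct, smul_dotProduct, smul_eq_mul]; linarith
  refine (card_le_card this).trans ((card_biUnion_le_card_mul _ _ _ fun k _ => card_image_le).trans ?_)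
  rw [card_range]

lemma slow (Z : ℕ → ℕ) {m t : ℕ} (hm : 0 < m) (h0 : 0 < Z 0) (h : Z (m * t) < 2 ^ t) :
    ∃ i < m * t, m * Z (i + 1) ≤ (m + 1) * Z i := by
  by_contra hc
  push Not at hc
  have hm' : (0 : ℝ) < m := by exact_mod_cast hm
  have key : ∀ i ≤ m * t, (1 + 1 / (m : ℝ)) ^ i ≤ Z i := by
    intro i hi
    induction i with
    | zero => rw [pow_zero]; exact_mod_cast h0
    | succ i ih =>
      have h1 : ((m : ℝ) + 1) * Z i ≤ m * Z (i + 1) := by exact_mod_cast (hc i hi).le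
      calc (1 + 1 / (m : ℝ)) ^ (i + 1) = (1 + 1 / (m : ℝ)) ^ i * (1 + 1 / (m : ℝ)) := pow_succ _ _
        _ ≤ Z i * (1 + 1 / (m : ℝ)) := by gcongr; exact ih (by omega)
        _ = ((m : ℝ) + 1) * Z i / m := by field_simp
        _ ≤ Z (i + 1) := by rw [div_le_iff₀ hm']; linarith
  have h2 : (2 : ℝ) ≤ (1 + 1 / (m : ℝ)) ^ m := by
    have := one_add_mul_le_pow (a := 1 / (m : ℝ)) (by linarith [one_div_pos.2 hm']) m
    rwa [mul_one_div_cancel hm'.ne', one_add_one_eq_two] at this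
  have h3 : (2 : ℝ) ^ t ≤ Z (m * t) :=
    le_trans (by rw [pow_mul]; gcongr) (key _ le_rfl)
  have h4 : ((Z (m * t) : ℕ) : ℝ) < 2 ^ t := by exact_mod_cast h
  linarith

lemma poly_lt (b k : ℕ) : ∃ t : ℕ, b * (t + 1) ^ k < 2 ^ t := by
  have h := (tendsto_pow_const_div_const_pow_of_one_lt k (one_lt_two (α := ℝ))).comp
    (Filter.tendsto_add_atTop_nat 1)
  obtain ⟨t, ht⟩ := (h.eventually (gt_mem_nhds (show (0 : ℝ) < 1 / (2 * (b + 1)) by
    positivity))).exists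
  refine ⟨t, ?_⟩
  simp only [Function.comp] at ht
  rw [div_lt_div_iff₀ (by positivity) (by positivity), pow_succ] at ht
  have h1 : (0 : ℝ) ≤ ((t + 1 : ℕ) : ℝ) ^ k := by positivity
  have h2 : (b : ℝ) * ((t + 1 : ℕ) : ℝ) ^ k < 2 ^ t := by nlinarith
  exact_mod_cast h2

/-- the counting step -/
lemma count {a d p : Fin n → ℤ} {c K T R : ℕ} (hd : ∀ i, |d i| ≤ c) (hp : ∀ i, |p i| ≤ c)
    (hg : 0 < d ⬝ᵥ a) (hp0 : 0 ≤ p ⬝ᵥ a) (hW : p ⬝ᵥ a + d ⬝ᵥ a ≤ K * (d ⬝ᵥ a))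
    (hs : 4 * (T + 1) * K ^ 2 *
      (Hs a (R + ((T + 1) * K + K + T + 1) * c) ((T + 1) * (p ⬝ᵥ a + d ⬝ᵥ a))).card ≤
      (4 * (T + 1) * K ^ 2 + 1) * (Hs a R ((T + 1) * (p ⬝ᵥ a + d ⬝ᵥ a))).card) :
    (2 * K + 5) * ((Hs a (R + (T + 1) * K * c) (p ⬝ᵥ a)).card +
      (Hs a (R + ((T + 1) * K + K + T + 1) * c) ((T + 1) * (p ⬝ᵥ a + d ⬝ᵥ a)) \
        Hs a R ((T + 1) * (p ⬝ᵥ a + d ⬝ᵥ a))).card) <
      (2 * K + 4) * (Hs a (R + (T + 1) * K * c + c) (p ⬝ᵥ a + d ⬝ᵥ a)).card := by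
  have hK : 0 < K := by
    rcases Nat.eq_zero_or_pos K with rfl | h
    · simp only [Nat.cast_zero, zero_mul] at hW; linarith
    · exact h
  have hT : (0 : ℤ) ≤ T := Nat.cast_nonneg T
  have hgW : d ⬝ᵥ a ≤ (T + 1) * (p ⬝ᵥ a + d ⬝ᵥ a) := by nlinarith
  have e1 := card_sdiff_add_card_eq_card (Hs_mono (a := a)
    (Nat.le_add_right R (((T + 1) * K + K + T + 1) * c))
    (le_refl (((T : ℤ) + 1) * (p ⬝ᵥ a + d ⬝ᵥ a))))
  have e2 := strip hd hg R ((T + 1) * K) (t := (T + 1) * (p ⬝ᵥ a + d ⬝ᵥ a)) (by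
    push_cast; nlinarith)
  have e3 := strip hd hg (R + (T + 1) * K * c) K (t := p ⬝ᵥ a) (by linarith)
  have e4 : (Hs a (R + (T + 1) * K * c + K * c) (d ⬝ᵥ a)).card ≤
      (Hs a (R + (T + 1) * K * c) (d ⬝ᵥ a)).card +
      (Hs a (R + ((T + 1) * K + K + T + 1) * c) ((T + 1) * (p ⬝ᵥ a + d ⬝ᵥ a)) \
        Hs a R ((T + 1) * (p ⬝ᵥ a + d ⬝ᵥ a))).card := by
    refine (card_le_card fun x hx => ?_).trans (card_union_le _ _)
    rw [mem_union, mem_sdiff]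
    by_cases h : x ∈ Hs a R ((T + 1) * (p ⬝ᵥ a + d ⬝ᵥ a))
    · exact Or.inl (mem_Hs.2 ⟨fun i => ((mem_Hs.1 h).1 i).trans (by
        exact_mod_cast Nat.le_add_right _ _), (mem_Hs.1 hx).2⟩)
    · exact Or.inr ⟨Hs_mono (by nlinarith [Nat.zero_le c]) hgW hx, h⟩
  have e5 : (Hs a (R + (T + 1) * K * c) (p ⬝ᵥ a)).card +
      (Hs a (R + (T + 1) * K * c) (d ⬝ᵥ a)).card ≤
      (Hs a (R + (T + 1) * K * c + c) (p ⬝ᵥ a + d ⬝ᵥ a)).card := by
    rw [← card_image_of_injective (Hs a (R + (T + 1) * K * c) (d ⬝ᵥ a)) (add_left_injective p),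
      ← card_union_of_disjoint]
    · refine card_le_card (union_subset (Hs_mono (Nat.le_add_right _ _) (by linarith)) fun x hx => ?_)
      obtain ⟨y, hy, rfl⟩ := mem_image.1 hx
      obtain ⟨h1, h2, h3⟩ := mem_Hs.1 hy
      refine mem_Hs.2 ⟨fun i => (abs_add_le _ _).trans ?_, ?_, ?_⟩
      · rw [Nat.cast_add]; exact add_le_add (h1 i) (hp i)
      · rw [add_dotProduct]; linarith
      · rw [add_dotProduct]; linarith
    · refine disjoint_left.2 fun x hx hx' => ?_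
      obtain ⟨y, hy, rfl⟩ := mem_image.1 hx'
      have h1 := (mem_Hs.1 hx).2.2
      have h2 := (mem_Hs.1 hy).2.1
      rw [add_dotProduct] at h1
      linarith
  have e6 := Hs_pos a (R + (T + 1) * K * c) hg
  rw [← e1] at hs
  generalize (Hs a (R + ((T + 1) * K + K + T + 1) * c) ((T + 1) * (p ⬝ᵥ a + d ⬝ᵥ a)) \
    Hs a R ((T + 1) * (p ⬝ᵥ a + d ⬝ᵥ a))).card = e at *
  generalize (Hs a R ((T + 1) * (p ⬝ᵥ a + d ⬝ᵥ a))).card = z at *
  generalize (Hs a (R + (T + 1) * K * c) (d ⬝ᵥ a)).card = N at *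
  generalize (Hs a (R + (T + 1) * K * c) (p ⬝ᵥ a)).card = A at *
  generalize (Hs a (R + (T + 1) * K * c + K * c) (d ⬝ᵥ a)).card = N' at *
  generalize (Hs a (R + (T + 1) * K * c + c) (p ⬝ᵥ a + d ⬝ᵥ a)).card = O at *
  have f1 : (T + 1) * K * (4 * K * e) ≤ (T + 1) * K * N := by nlinarith
  have f2 : 4 * K * e ≤ N := Nat.le_of_mul_le_mul_left f1 (by positivity)
  have f3 : A ≤ K * (N + e) := e3.trans (Nat.mul_le_mul_left K e4)
  have f4 : e ≤ K * e := Nat.le_mul_of_pos_left e hK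
  have f5 : (2 * K + 4) * (A + N) ≤ (2 * K + 4) * O := Nat.mul_le_mul_left _ e5
  nlinarith

end SiegA

open SiegA in
theorem sieg (hp : S_Pig) : S_Sieg := by
  classical
  intro n F q hq hu K C
  obtain ⟨c, hc⟩ : ∃ c : ℕ, ∀ u ∈ F.coeff.support, ∀ u' ∈ F.coeff.support, ∀ i,
      |u i - u' i| ≤ c := by
    refine ⟨(F.coeff.support ×ˢ F.coeff.support ×ˢ (univ : Finset (Fin n))).sup
      fun x => (x.1 x.2.2 - x.2.1 x.2.2).natAbs, fun u h1 u' h2 i => ?_⟩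
    rw [← Int.natCast_natAbs, Nat.cast_le]
    exact le_sup (f := fun x : (Fin n → ℤ) × (Fin n → ℤ) × Fin n =>
      (x.1 x.2.2 - x.2.1 x.2.2).natAbs) (b := (u, u', i)) (by
        simp only [mem_product]; exact ⟨h1, h2, mem_univ _⟩)
  obtain ⟨t, ht⟩ := poly_lt ((2 * (4 * (2 * K + 5) * K ^ 2 *
    (((2 * K + 5) * K + K + (2 * K + 5)) * c)) + 1) ^ n * (⌈C⌉₊ + 1)) (3 * n)
  obtain ⟨T, hT⟩ : ∃ T, T = (2 * K + 5) * t := ⟨_, rfl⟩
  obtain ⟨C2, hC2⟩ : ∃ C2, C2 = ((T + 1) * K + K + T + 1) * c := ⟨_, rfl⟩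
  obtain ⟨m, hm⟩ : ∃ m, m = 4 * (T + 1) * K ^ 2 := ⟨_, rfl⟩
  have hbig : (2 * (m * t * C2) + 1) ^ n * (⌈C⌉₊ + 1) < 2 ^ t := by
    refine lt_of_le_of_lt ?_ ht
    rw [mul_right_comm _ (⌈C⌉₊ + 1), pow_mul, ← mul_pow]
    have h1 : T + 1 ≤ (2 * K + 5) * (t + 1) := by rw [hT]; nlinarith
    have h2 : C2 ≤ ((2 * K + 5) * K + K + (2 * K + 5)) * c * (t + 1) := by
      rw [hC2, mul_right_comm]
      refine Nat.mul_le_mul_right c ?_
      have := Nat.mul_le_mul_right K h1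
      nlinarith
    have h3 : m * t ≤ 4 * (2 * K + 5) * K ^ 2 * (t + 1) ^ 2 :=
      calc m * t = 4 * (T + 1) * K ^ 2 * t := by rw [hm]
        _ ≤ 4 * ((2 * K + 5) * (t + 1)) * K ^ 2 * (t + 1) := by gcongr; omega
        _ = _ := by ring
    have h4 := Nat.mul_le_mul h3 h2
    have h5 : 1 ≤ (t + 1) ^ 3 := Nat.one_le_pow _ _ (by omega)
    gcongr
    nlinarith
  have ht0 : 0 < t := by
    rcases Nat.eq_zero_or_pos t with rfl | h
    · simp at hbig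
    · exact h
  refine ⟨T, m * t * C2, q ^ ((2 * K + 4) * t) - 1, fun a ulo hlo uhi hhi hw hlt hK => ?_⟩
  have hsup : ∀ u, ¬ (q : ℤ) ∣ F.coeff u → u ∈ F.coeff.support := fun u h =>
    Finsupp.mem_support_iff.2 fun e => h (e ▸ dvd_zero _)
  obtain ⟨v, hv, hmax⟩ := exists_max_image (F.coeff.support.filter fun u => ¬ (q : ℤ) ∣ F.coeff u)
    (· ⬝ᵥ a) (let ⟨u, h⟩ := hu; ⟨u, mem_filter.2 ⟨hsup u h, h⟩⟩)
  obtain ⟨hv1, hv2⟩ := mem_filter.1 hv
  have hKv := hK v hv2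
  have hvw := hw v hv1
  have eW : (v - ulo) ⬝ᵥ a + (uhi - v) ⬝ᵥ a = uhi ⬝ᵥ a - ulo ⬝ᵥ a := by
    rw [sub_dotProduct, sub_dotProduct]; ring
  have hK0 : 0 < K := by
    rcases Nat.eq_zero_or_pos K with rfl | h
    · simp only [Nat.cast_zero, zero_mul] at hKv; linarith
    · exact h
  have hg : 0 < (uhi - v) ⬝ᵥ a := by
    rw [sub_dotProduct]
    refine lt_of_le_of_ne (by linarith) fun e => ?_
    rw [← e, mul_zero] at hKv
    linarith
  obtain ⟨W, hW⟩ : ∃ W, W = uhi ⬝ᵥ a - ulo ⬝ᵥ a := ⟨_, rfl⟩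
  have hW0 : 0 < W := by linarith
  obtain ⟨i, hi, hs⟩ := slow (fun i => (Hs a (i * C2) ((T + 1) * W)).card) (m := m) (t := t)
    (by rw [hm]; positivity) (Hs_pos _ _ (by positivity))
    ((card_Hs _ _ _).trans_lt ((Nat.le_mul_of_pos_right _ (Nat.succ_pos _)).trans_lt hbig))
  have hcount := count (a := a) (d := uhi - v) (p := v - ulo) (c := c) (K := K) (T := T)
    (R := i * C2) (hc uhi hhi v hv1) (hc v hv1 ulo hlo) hg (by rw [sub_dotProduct]; linarith)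
    (by rw [eW, sub_dotProduct]; exact hKv)
    (by rw [eW, ← hW, ← hC2, ← hm, ← Nat.succ_mul]; exact hs)
  rw [eW, ← hW, ← hC2] at hcount
  obtain ⟨L, hL⟩ : ∃ L, L = i * C2 + (T + 1) * K * c := ⟨_, rfl⟩
  rw [← hL] at hcount
  have hq1 : 1 ≤ q ^ ((2 * K + 4) * t) := Nat.one_le_pow _ _ hq.pos
  obtain ⟨B, b1, b2, b3, G, B', b4, b5⟩ := hp n F q hq hu T
    ((Hs a L ((v - ulo) ⬝ᵥ a)).card +
      (Hs a (i * C2 + C2) ((T + 1) * W) \ Hs a (i * C2) ((T + 1) * W)).card)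
    (fun j => Hs a (L + c + j * c) ((j + 1) * W))
    (fun j => ((Hs a (L + c + j * c) ((j + 1) * W)).image (· - v)).filter fun x =>
      0 ≤ (x + ulo) ⬝ᵥ a ∧ ∀ u, ¬ (q : ℤ) ∣ F.coeff u → x + u ∈ Hs a (L + c + j * c) ((j + 1) * W))
    (fun j _ x hx => (mem_filter.1 hx).2.2)
    (fun j _ => Hs_mono (by nlinarith [Nat.zero_le c]) (by push_cast; linarith))
    (fun j _ x hx u h => by
      obtain ⟨-, h1, h2⟩ := mem_filter.1 hx
      obtain ⟨h3, -, h4⟩ := mem_Hs.1 (h2 v hv2)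
      have h5 := hw u h
      rw [add_dotProduct] at h1 h4
      refine mem_Hs.2 ⟨fun k => ?_, ?_, ?_⟩
      · have h6 := abs_le.1 (h3 k)
        have h7 := abs_le.1 (hc u h v hv1 k)
        simp only [Pi.add_apply] at h6 ⊢
        push_cast at h6 ⊢
        rw [abs_le]
        constructor <;> linarith [h6.1, h6.2, h7.1, h7.2]
      · rw [add_dotProduct]; linarith
      · rw [add_dotProduct]; push_cast; linarith)
    (fun j hj => by
      rw [← add_assoc, ← card_image_of_injective (filter _ _) (add_left_injective v)]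
      refine (card_le_card fun x hx => ?_).trans
        ((card_union_le _ _).trans (Nat.add_le_add_right (card_union_le _ _) _))
      obtain ⟨h1, h2, h3⟩ := mem_Hs.1 hx
      have hj' : (j : ℤ) ≤ T := by exact_mod_cast hj.le
      simp only [mem_union, mem_sdiff]
      by_cases h4 : x ∈ Hs a (i * C2) ((T + 1) * W)
      · have h5 : ∀ k, |x k| ≤ L := fun k => ((mem_Hs.1 h4).1 k).trans (by
          rw [hL]; exact_mod_cast Nat.le_add_right _ _)
        refine Or.inl ?_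
        rcases lt_or_ge (x ⬝ᵥ a) ((v - ulo) ⬝ᵥ a) with h6 | h6
        · exact Or.inr (mem_Hs.2 ⟨h5, h2, h6⟩)
        · rw [sub_dotProduct] at h6
          refine Or.inl (mem_image.2 ⟨x - v, mem_filter.2 ⟨mem_image_of_mem _ hx, ?_,
            fun u h => mem_Hs.2 ⟨fun k => ?_, ?_, ?_⟩⟩, sub_add_cancel _ _⟩)
          · rw [add_dotProduct, sub_dotProduct]; linarith
          · have h7 := abs_le.1 (h5 k)
            have h8 := abs_le.1 (hc u (hsup u h) v hv1 k)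
            have h9 : (0 : ℤ) ≤ j * c := by positivity
            simp only [Pi.add_apply, Pi.sub_apply]
            push_cast
            rw [abs_le]
            constructor <;> linarith [h7.1, h7.2, h8.1, h8.2]
          · rw [add_dotProduct, sub_dotProduct]; linarith [(hw u (hsup u h)).1]
          · rw [add_dotProduct, sub_dotProduct]
            linarith [hmax u (mem_filter.2 ⟨hsup u h, h⟩)]
      · refine Or.inr ⟨Hs_mono ?_ (by nlinarith) hx, h4⟩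
        have := Nat.mul_le_mul_right c hj.le
        rw [hL, hC2]
        nlinarith [Nat.zero_le (K * c)])
    (q ^ ((2 * K + 4) * t) - 1) (by
      rw [Nat.sub_add_cancel hq1, ← pow_mul]
      refine Nat.pow_lt_pow_right hq.one_lt ?_
      simp only [zero_mul, add_zero, Nat.cast_zero, zero_add, one_mul]
      have := Nat.mul_lt_mul_of_pos_left hcount ht0
      rw [hT] at this ⊢
      linarith)
  simp only [zero_mul, add_zero, Nat.cast_zero, zero_add, one_mul] at b2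
  have hLm : L + c ≤ m * t * C2 := by
    have := Nat.mul_le_mul_right C2 (Nat.succ_le_of_lt hi)
    have h2 : (T + 1) * K * c + c ≤ C2 := by rw [hC2]; nlinarith [Nat.zero_le (K * c), Nat.zero_le (T * c)]
    rw [Nat.succ_mul] at this
    omega
  have b2' := b2.trans (Hs_mono hLm le_rfl)
  refine ⟨B, b1, fun u h => hW ▸ mem_Hs.1 (b2' h), b3, ?_, G, B',
    fun u h => (mem_Hs.1 (b4 h)).2.1, b5⟩
  have c1 : B.coeff.support.card * (q ^ ((2 * K + 4) * t) - 1) * (⌈C⌉₊ + 1) < q ^ T :=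
    calc _ ≤ (2 * (m * t * C2) + 1) ^ n * q ^ ((2 * K + 4) * t) * (⌈C⌉₊ + 1) := by
          gcongr
          · exact (card_le_card b2').trans (card_Hs _ _ _)
          · exact Nat.sub_le _ _
      _ < 2 ^ t * q ^ ((2 * K + 4) * t) := by
          rw [mul_right_comm]
          exact Nat.mul_lt_mul_of_pos_right hbig hq1
      _ ≤ q ^ t * q ^ ((2 * K + 4) * t) := by gcongr; exact hq.two_le
      _ = q ^ T := by rw [← pow_add, hT]; congr 1; ring
  have c2 : C ≤ ((⌈C⌉₊ + 1 : ℕ) : ℝ) := (Nat.le_ceil C).trans (by push_cast; linarith)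
  refine lt_of_le_of_lt (mul_le_mul_of_nonneg_left c2 (by positivity)) ?_
  exact_mod_cast c1

end Pool.Agent.P.MP_aef18a_nt
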